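import Pool.Agent.H24.Bip.Defs
import Pool.Agent.H7.Online.RankAlg

/-!
The on-line algorithm for bipartite graphs without self-merging connected sets: the colour of a
vertex records the patterns occurring in its component and the side of a distinguished vertex.
-/

namespace H24.Bip

open H7.Online

namespace AlgAux

/-- patterns: equalities, adjacencies and labels of `s` vertices -/
abbrev Pat (s : ℕ) : Type := (Fin s → Fin s → Prop) × (Fin s → Fin s → Prop) × (Fin s → Bool)

/-- the pattern of a sequence of vertices -/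
def pat (s : ℕ) (G : SimpleGraph ℕ) (c : ℕ → Bool) (p : Fin s → ℕ) : Pat s :=
  (fun i j => p i = p j, fun i j => G.Adj (p i) (p j), fun i => c (p i))

/-- the pattern with flipped labels -/
def flp (s : ℕ) (P : Pat s) : Pat s := (P.1, P.2.1, fun i => !(P.2.2 i))

/-- the component of `v` at time `v` -/
def C (G : SimpleGraph ℕ) (v : ℕ) : Set ℕ := Kc G Set.univ v

/-- `c` is a proper colouring of `K` -/
def Pr (G : SimpleGraph ℕ) (c : ℕ → Bool) (K : Set ℕ) : Prop :=
  ∀ i ∈ K, ∀ j ∈ K, G.Adj i j → c i ≠ c j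

/-- the patterns occurring in the component of `v` -/
def T (s : ℕ) (G : SimpleGraph ℕ) (v : ℕ) : Set (Pat s) :=
  {P | ∃ c : ℕ → Bool, Pr G c (C G v) ∧ c v = true ∧
    ∃ p : Fin s → ℕ, (∀ i, p i ∈ C G v) ∧ pat s G c p = P}

/-- the first vertex of the component of `v` with the same patterns -/
noncomputable def w (s : ℕ) (G : SimpleGraph ℕ) (v : ℕ) : ℕ :=
  sInf {m | m ∈ C G v ∧ T s G m = T s G v}

/-- `w v` is on the side of `v` -/
def bit (s : ℕ) (G : SimpleGraph ℕ) (v : ℕ) : Prop :=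
  ∃ c : ℕ → Bool, Pr G c (C G v) ∧ c v = true ∧ c (w s G v) = true

/-- the raw colour -/
def raw (s : ℕ) (G : SimpleGraph ℕ) (v : ℕ) : Set (Pat s) × Prop := (T s G v, bit s G v)

theorem C_sub {G : SimpleGraph ℕ} {v x : ℕ} (hx : x ∈ C G v) : x ≤ v :=
  (Kc_sub (Set.mem_univ v) hx).2

theorem mem_C (G : SimpleGraph ℕ) (v : ℕ) : v ∈ C G v := mem_Kc G Set.univ v

theorem C_congr {G G' : SimpleGraph ℕ} {v : ℕ} (h : Agr G G' Set.univ Set.univ v) :
    C G v = C G' v := Kc_congr (Set.mem_univ v) h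

theorem Pr_congr {G G' : SimpleGraph ℕ} {c : ℕ → Bool} {K : Set ℕ}
    (h : ∀ i ∈ K, ∀ j ∈ K, (G.Adj i j ↔ G'.Adj i j)) (hc : Pr G c K) : Pr G' c K :=
  fun i hi j hj hij => hc i hi j hj ((h i hi j hj).mpr hij)

theorem T_congr_sub {s : ℕ} {G G' : SimpleGraph ℕ} {v : ℕ}
    (h : Agr G G' Set.univ Set.univ v) : T s G v ⊆ T s G' v := by
  rintro P ⟨c, h1, h2, p, h3, h4⟩
  have hadj : ∀ i ∈ C G v, ∀ j ∈ C G v, (G.Adj i j ↔ G'.Adj i j) := fun i hi j hj =>
    h.2 i (Set.mem_univ _) j (Set.mem_univ _) (C_sub hi) (C_sub hj)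
  refine ⟨c, ?_, h2, p, ?_, ?_⟩
  · rw [← C_congr h]
    exact Pr_congr hadj h1
  · rw [← C_congr h]
    exact h3
  · rw [← h4]
    unfold pat
    have : (fun i j : Fin s => G'.Adj (p i) (p j)) = fun i j => G.Adj (p i) (p j) := by
      funext i j
      exact propext (hadj _ (h3 i) _ (h3 j)).symm
    rw [this]

theorem T_congr {s : ℕ} {G G' : SimpleGraph ℕ} {v : ℕ}
    (h : Agr G G' Set.univ Set.univ v) : T s G v = T s G' v :=
  Set.Subset.antisymm (T_congr_sub h) (T_congr_sub h.symm)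

theorem w_congr {s : ℕ} {G G' : SimpleGraph ℕ} {v : ℕ}
    (h : Agr G G' Set.univ Set.univ v) : w s G v = w s G' v := by
  unfold w
  congr 1
  ext m
  simp only [Set.mem_ofPred_eq]
  rw [← C_congr h, ← T_congr h]
  constructor
  · rintro ⟨h1, h2⟩
    exact ⟨h1, by rw [← T_congr (h.le (C_sub h1))]; exact h2⟩
  · rintro ⟨h1, h2⟩
    exact ⟨h1, by rw [T_congr (h.le (C_sub h1))]; exact h2⟩

theorem bit_congr_imp {s : ℕ} {G G' : SimpleGraph ℕ} {v : ℕ}
    (h : Agr G G' Set.univ Set.univ v) (hb : bit s G v) : bit s G' v := by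
  obtain ⟨c, h1, h2, h3⟩ := hb
  have hadj : ∀ i ∈ C G v, ∀ j ∈ C G v, (G.Adj i j ↔ G'.Adj i j) := fun i hi j hj =>
    h.2 i (Set.mem_univ _) j (Set.mem_univ _) (C_sub hi) (C_sub hj)
  refine ⟨c, ?_, h2, ?_⟩
  · rw [← C_congr h]
    exact Pr_congr hadj h1
  · rw [← w_congr h]
    exact h3

theorem raw_congr {s : ℕ} {G G' : SimpleGraph ℕ} {v : ℕ}
    (h : Agr G G' Set.univ Set.univ v) : raw s G v = raw s G' v := by
  unfold raw
  rw [T_congr h]
  congr 1
  exact propext ⟨bit_congr_imp h, bit_congr_imp h.symm⟩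

/-- two proper colourings of a connected set -/
theorem uniq_col {G : SimpleGraph ℕ} {K : Set ℕ} {c d : ℕ → Bool} (hK : Conn G K)
    (hc : Pr G c K) (hd : Pr G d K) {v : ℕ} (hv : v ∈ K) (h : c v = d v) :
    ∀ x ∈ K, c x = d x := by
  have key : ∀ x, Relation.ReflTransGen (fun u w => G.Adj u w ∧ w ∈ K) v x →
      x ∈ K ∧ c x = d x := by
    intro x hx
    induction hx with
    | refl => exact ⟨hv, h⟩
    | tail _ h2 ih =>
      refine ⟨h2.2, ?_⟩
      have e1 := hc _ ih.1 _ h2.2 h2.1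
      have e2 := hd _ ih.1 _ h2.2 h2.1
      have e3 := ih.2
      revert e1 e2 e3
      cases c _ <;> cases c _ <;> cases d _ <;> cases d _ <;> simp
  exact fun x hx => (key x (hK.2 v hv x hx)).2

section cls
variable {G : SimpleGraph ℕ} {m : ℕ} {c : ℕ → Bool}

theorem Pr_C (hc : ∀ i < m, ∀ j < m, G.Adj i j → c i ≠ c j) {v : ℕ} (hv : v < m) :
    Pr G c (C G v) := fun i hi j hj hij =>
  hc i ((C_sub hi).trans_lt hv) j ((C_sub hj).trans_lt hv) hij

/-- the colouring with `v` on the side `true` -/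
def nrm (c : ℕ → Bool) (v : ℕ) : ℕ → Bool := fun x => xor (c x) (!(c v))

theorem Pr_nrm {K : Set ℕ} (h : Pr G c K) (v : ℕ) : Pr G (nrm c v) K := by
  intro i hi j hj hij
  have := h i hi j hj hij
  unfold nrm
  revert this
  cases c i <;> cases c j <;> cases c v <;> simp

theorem nrm_self (v : ℕ) : nrm c v v = true := by
  unfold nrm
  cases c v <;> rfl

theorem conn_C (v : ℕ) : Conn G (C G v) := conn_Kc (Set.mem_univ v)

theorem T_eq (s : ℕ) (hc : ∀ i < m, ∀ j < m, G.Adj i j → c i ≠ c j) {v : ℕ} (hv : v < m)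
    (P : Pat s) : P ∈ T s G v ↔
      ∃ p : Fin s → ℕ, (∀ i, p i ∈ C G v) ∧ pat s G (nrm c v) p = P := by
  constructor
  · rintro ⟨d, h1, h2, p, h3, h4⟩
    refine ⟨p, h3, ?_⟩
    rw [← h4]
    have hcd := uniq_col (conn_C v) (Pr_nrm (Pr_C hc hv) v) h1 (mem_C G v)
      ((nrm_self v).trans h2.symm)
    unfold pat
    have : (fun i : Fin s => nrm c v (p i)) = fun i => d (p i) := by
      funext i
      exact hcd _ (h3 i)
    rw [this]
  · rintro ⟨p, h3, h4⟩
    exact ⟨nrm c v, Pr_nrm (Pr_C hc hv) v, nrm_self v, p, h3, h4⟩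

theorem w_mem (s : ℕ) (G : SimpleGraph ℕ) (v : ℕ) :
    w s G v ∈ C G v ∧ T s G (w s G v) = T s G v :=
  Nat.sInf_mem (s := {m | m ∈ C G v ∧ T s G m = T s G v}) ⟨v, mem_C G v, rfl⟩

theorem w_le (s : ℕ) {G : SimpleGraph ℕ} {v x : ℕ} (h1 : x ∈ C G v) (h2 : T s G x = T s G v) :
    w s G v ≤ x :=
  Nat.sInf_le (s := {m | m ∈ C G v ∧ T s G m = T s G v}) ⟨h1, h2⟩

theorem bit_iff (s : ℕ) (hc : ∀ i < m, ∀ j < m, G.Adj i j → c i ≠ c j) {v : ℕ} (hv : v < m) :
    bit s G v ↔ c (w s G v) = c v := by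
  have hw := (w_mem s G v).1
  constructor
  · rintro ⟨d, h1, h2, h3⟩
    have hcd := uniq_col (conn_C v) (Pr_nrm (Pr_C hc hv) v) h1 (mem_C G v)
      ((nrm_self v).trans h2.symm) _ hw
    rw [h3] at hcd
    unfold nrm at hcd
    revert hcd
    cases c (w s G v) <;> cases c v <;> simp
  · intro h
    refine ⟨nrm c v, Pr_nrm (Pr_C hc hv) v, nrm_self v, ?_⟩
    unfold nrm
    rw [h]
    cases c v <;> rfl

theorem C_time {u v : ℕ} (h : u ∈ C G v) : C G u ⊆ C G v := Kc_time (Set.mem_univ v) h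

/-- a component in which all the patterns of `C v` occur with both labellings -/
theorem rich (s : ℕ) (hc : ∀ i < m, ∀ j < m, G.Adj i j → c i ≠ c j) {v x : ℕ} (hv : v < m)
    (hx : x < m) (hT : T s G x = T s G v) (hfl : ∀ P ∈ T s G v, flp s P ∈ T s G v) :
    Rich G c (C G v) s (C G x) := by
  classical
  refine ⟨conn_C x, ?_⟩
  intro W hW hcard b
  rcases W.eq_empty_or_nonempty with h0 | hne
  · subst h0
    refine ⟨id, ⟨?_, ?_, ?_⟩, ?_⟩
    · intro a ha; simp at ha
    · intro a ha; simp at ha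
    · intro a ha; simp at ha
    · intro a ha; simp at ha
  · obtain ⟨w0, hw0⟩ := hne
    have hne' : Nonempty (W : Set ℕ) := ⟨⟨w0, hw0⟩⟩
    have hem : Nonempty (W ↪ Fin s) := by
      apply Function.Embedding.nonempty_of_card_le
      simpa using hcard
    obtain ⟨e⟩ := hem
    have : Nonempty W := ⟨⟨w0, hw0⟩⟩
    let p : Fin s → ℕ := fun i => (Function.invFun e i).1
    have hpe : ∀ y (hy : y ∈ W), p (e ⟨y, hy⟩) = y := by
      intro y hy
      simp only [p]
      rw [Function.leftInverse_invFun e.injective]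
    have hpW : ∀ i, p i ∈ C G v := fun i => hW (Function.invFun e i).2
    have hP : pat s G (nrm c v) p ∈ T s G v := (T_eq s hc hv _).mpr ⟨p, hpW, rfl⟩
    -- the wanted pattern
    have hQ : ∃ q : Fin s → ℕ, (∀ i, q i ∈ C G x) ∧ (∀ i j, (q i = q j) = (p i = p j)) ∧
        (∀ i j, (G.Adj (q i) (q j)) = (G.Adj (p i) (p j))) ∧
        ∀ i, c (q i) = xor b (c (p i)) := by
      cases hd : xor b (xor (c x) (c v)) with
      | false =>
        have h1 : pat s G (nrm c v) p ∈ T s G x := by rw [hT]; exact hP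
        obtain ⟨q, hq1, hq2⟩ := (T_eq s hc hx _).mp h1
        refine ⟨q, hq1, ?_, ?_, ?_⟩
        · intro i j
          exact congrFun (congrFun (congrArg Prod.fst hq2) i) j
        · intro i j
          exact congrFun (congrFun (congrArg (fun z => z.2.1) hq2) i) j
        · intro i
          have h3 := congrFun (congrArg (fun z => z.2.2) hq2) i
          simp only [pat, nrm] at h3
          revert h3 hd
          cases c (q i) <;> cases c (p i) <;> cases c x <;> cases c v <;> cases b <;> simp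
      | true =>
        have h1 : flp s (pat s G (nrm c v) p) ∈ T s G x := by rw [hT]; exact hfl _ hP
        obtain ⟨q, hq1, hq2⟩ := (T_eq s hc hx _).mp h1
        refine ⟨q, hq1, ?_, ?_, ?_⟩
        · intro i j
          exact congrFun (congrFun (congrArg Prod.fst hq2) i) j
        · intro i j
          exact congrFun (congrFun (congrArg (fun z => z.2.1) hq2) i) j
        · intro i
          have h3 := congrFun (congrArg (fun z => z.2.2) hq2) i
          simp only [pat, nrm, flp] at h3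
          revert h3 hd
          cases c (q i) <;> cases c (p i) <;> cases c x <;> cases c v <;> cases b <;> simp
    obtain ⟨q, q1, q2, q3, q4⟩ := hQ
    refine ⟨fun y => if hy : y ∈ W then q (e ⟨y, hy⟩) else 0, ⟨?_, ?_, ?_⟩, ?_⟩
    · intro a ha a' ha' h
      have ha1 : a ∈ W := ha
      have ha2 : a' ∈ W := ha'
      simp only [dif_pos ha1, dif_pos ha2] at h
      rw [q2, hpe, hpe] at h
      exact h
    · intro a ha a' ha'
      have ha1 : a ∈ W := ha
      have ha2 : a' ∈ W := ha'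
      simp only [dif_pos ha1, dif_pos ha2]
      rw [q3, hpe, hpe]
    · intro a ha
      have ha1 : a ∈ W := ha
      simp only [dif_pos ha1]
      rw [q4, hpe]
    · intro a ha
      have ha1 : a ∈ W := ha
      simp only [dif_pos ha1]
      exact q1 _

/-- components at an earlier time are separate -/
theorem anti_C {u x : ℕ} (hxu : x ≤ u) (hx : x ∉ C G u) : Anti G (C G u) (C G x) := by
  have hmU : x ∈ Up (Set.univ : Set ℕ) u := ⟨Set.mem_univ _, hxu⟩
  intro a ha b hb
  have hb1 : b ∈ comp G (Up Set.univ u) x := reach_mono (Up_mono subset_rfl hxu) hb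
  have hbU : b ∈ Up (Set.univ : Set ℕ) u := comp_subset hmU hb1
  have hb' : Relation.ReflTransGen (fun u' w => G.Adj u' w ∧ w ∈ Up Set.univ u) b x :=
    reach_symm hmU hb1
  constructor
  · rintro rfl
    exact hx (Relation.ReflTransGen.trans ha hb')
  · intro hab
    exact hx (Relation.ReflTransGen.trans (comp_step ha hab hbU) hb')

theorem raw_ne (s : ℕ) (hc : ∀ i < m, ∀ j < m, G.Adj i j → c i ≠ c j)
    (hD : ∀ D D1 D2 : Set ℕ, D ⊆ Set.Iio m → ¬ Ctx G c s D D1 D2) {u v : ℕ} (huv : u < v)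
    (hv : v < m) (hadj : G.Adj u v) : raw s G u ≠ raw s G v := by
  intro hraw
  have hu : u < m := huv.trans hv
  have hcuv : c u ≠ c v := hc u hu v hv hadj
  have hTT : T s G u = T s G v := congrArg Prod.fst hraw
  have hbb : bit s G u = bit s G v := congrArg Prod.snd hraw
  have huC : u ∈ C G v := comp_step (mem_C G v) hadj.symm ⟨Set.mem_univ _, huv.le⟩
  have hsub : C G u ⊆ C G v := C_time huC
  have hfl : ∀ P ∈ T s G v, flp s P ∈ T s G v := by
    intro P hP
    rw [← hTT] at hP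
    obtain ⟨p, h1, h2⟩ := (T_eq s hc hu _).mp hP
    refine (T_eq s hc hv _).mpr ⟨p, fun i => hsub (h1 i), ?_⟩
    rw [← h2]
    unfold pat flp nrm
    simp only [Prod.mk.injEq, true_and]
    funext i
    revert hcuv
    cases c (p i) <;> cases c u <;> cases c v <;> simp
  have hwv := w_mem s G v
  have hwu := w_mem s G u
  have hle : w s G v ≤ w s G u := w_le s (hsub hwu.1) (hwu.2.trans hTT)
  have hnot : w s G v ∉ C G u := by
    intro h
    have h1 : w s G u ≤ w s G v := w_le s h (hwv.2.trans hTT.symm)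
    have h2 : w s G u = w s G v := le_antisymm h1 hle
    have h3 := bit_iff s hc hu
    have h4 := bit_iff s hc hv
    rw [hbb, h4, h2] at h3
    revert h3 hcuv
    cases c (w s G v) <;> cases c u <;> cases c v <;> simp
  have hwu' : w s G v ≤ u := hle.trans (C_sub hwu.1)
  refine hD (C G v) (C G u) (C G (w s G v)) ?_ ⟨conn_C v, hsub, C_time hwv.1,
    anti_C hwu' hnot, rich s hc hv hu hTT hfl,
    rich s hc hv (hwu'.trans_lt hu) hwv.2 hfl, ?_⟩
  · intro y hy
    exact (C_sub hy).trans_lt hv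
  · exact Pr_C hc hv

end cls

end AlgAux

open AlgAux in
theorem alg (s : ℕ) : ∃ (A : ℕ → SimpleGraph ℕ → ℕ) (N : ℕ), IsOnline A ∧
    ∀ (G : SimpleGraph ℕ) (m : ℕ) (c : ℕ → Bool),
      (∀ i < m, ∀ j < m, G.Adj i j → c i ≠ c j) →
      (∀ D D1 D2 : Set ℕ, D ⊆ Set.Iio m → ¬ Ctx G c s D D1 D2) →
      ∀ i < m, A i G < N := by
  classical
  obtain ⟨N, ⟨e⟩⟩ := Finite.exists_equiv_fin (Set (Pat s) × Prop)
  let ok : SimpleGraph ℕ → ℕ → Prop := fun G v =>
    ∀ i j : ℕ, i < j → j ≤ v → G.Adj i j → raw s G i ≠ raw s G j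
  let A : ℕ → SimpleGraph ℕ → ℕ := fun v G =>
    if ok G v then 2 * (e (raw s G v) : ℕ) else 2 * v + 1
  have hAgr : ∀ (n : ℕ) (G G' : SimpleGraph ℕ),
      (∀ i j : ℕ, i ≤ n → j ≤ n → (G.Adj i j ↔ G'.Adj i j)) → Agr G G' Set.univ Set.univ n := by
    intro n G G' h
    exact ⟨fun i _ => Iff.rfl, fun i _ j _ hi hj => h i j hi hj⟩
  refine ⟨A, 2 * N, ⟨?_, ?_⟩, ?_⟩
  · intro n G G' h
    have h0 := hAgr n G G' h
    have hok : ok G n ↔ ok G' n := by
      constructor
      · intro hG i j hij hj hadj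
        rw [← raw_congr (h0.le (hij.le.trans hj)), ← raw_congr (h0.le hj)]
        exact hG i j hij hj ((h i j (hij.le.trans hj) hj).mpr hadj)
      · intro hG i j hij hj hadj
        rw [raw_congr (h0.le (hij.le.trans hj)), raw_congr (h0.le hj)]
        exact hG i j hij hj ((h i j (hij.le.trans hj) hj).mp hadj)
    simp only [A]
    by_cases hG : ok G n
    · rw [if_pos hG, if_pos (hok.mp hG), raw_congr h0]
    · rw [if_neg hG, if_neg (fun h' => hG (hok.mpr h'))]
  · intro G i j hij hadj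
    simp only [A]
    by_cases hj : ok G j
    · have hi : ok G i := fun a b hab hb hadj => hj a b hab (hb.trans hij.le) hadj
      rw [if_pos hi, if_pos hj]
      intro h
      have h1 : e (raw s G i) = e (raw s G j) := Fin.ext (by omega)
      exact hj i j hij le_rfl hadj (e.injective h1)
    · rw [if_neg hj]
      by_cases hi : ok G i
      · rw [if_pos hi]; omega
      · rw [if_neg hi]; omega
  · intro G m c hc hD i hi
    have hok : ok G i := fun a b hab hb hadj =>
      raw_ne s hc hD hab (hb.trans_lt hi) hadj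
    simp only [A]
    rw [if_pos hok]
    have := (e (raw s G i)).2
    omega

end H24.Bip
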