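import Pool.Agent.H24.Bip.Defs

/-!
Ramsey theorem for chains of a binary tree.
-/

namespace H24.Bip

open H7.Online

section Ram
variable {P : Type} {lt sep : P → P → Prop}

theorem TT.mono {N : ℕ} {Pr Pr' : List P → Prop} {v : P} (h : TT lt sep N Pr v)
    (hP : ∀ l, Pr l → Pr' l) : TT lt sep N Pr' v := by
  induction N generalizing Pr Pr' v with
  | zero => exact hP _ h
  | succ N ih =>
    obtain ⟨h0, u1, u2, h1, h2, h3, h4, h5⟩ := h
    exact ⟨hP _ h0, u1, u2, h1, h2, h3, ih h4 (fun l hl => ⟨hP _ hl.1, hP _ hl.2⟩),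
      ih h5 (fun l hl => ⟨hP _ hl.1, hP _ hl.2⟩)⟩

theorem TT.root {N : ℕ} {Pr : List P → Prop} {v : P} (h : TT lt sep N Pr v) : Pr [v] := by
  cases N with
  | zero => exact h
  | succ N => exact h.1

theorem TT.le {M N : ℕ} {Pr : List P → Prop} {v : P} (h : TT lt sep N Pr v) (hM : M ≤ N) :
    TT lt sep M Pr v := by
  induction N generalizing M Pr v with
  | zero =>
    obtain rfl : M = 0 := by omega
    exact h
  | succ N ih =>
    cases M with
    | zero => exact h.1
    | succ M =>
      obtain ⟨h0, u1, u2, h1, h2, h3, h4, h5⟩ := h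
      exact ⟨h0, u1, u2, h1, h2, h3, ih h4 (by omega), ih h5 (by omega)⟩

/-- the tree only sees descending chains at or below its root -/
theorem TT.mono_chain {N : ℕ} {Pr Pr' : List P → Prop} {v : P}
    (htr : ∀ u v w, lt u v → lt v w → lt u w) (h : TT lt sep N Pr v)
    (hP : ∀ l : List P, (∀ x ∈ l, x = v ∨ lt x v) → l.Pairwise (fun a b => lt b a) →
      Pr l → Pr' l) : TT lt sep N Pr' v := by
  induction N generalizing Pr Pr' v with
  | zero => exact hP [v] (by simp) (by simp) h
  | succ N ih =>
    obtain ⟨h0, u1, u2, h1, h2, h3, h4, h5⟩ := h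
    have key : ∀ u : P, lt u v → ∀ l : List P, (∀ x ∈ l, x = u ∨ lt x u) →
        l.Pairwise (fun a b => lt b a) → (Pr l ∧ Pr (v :: l)) → (Pr' l ∧ Pr' (v :: l)) := by
      intro u hu l hl hp hPr
      have hb : ∀ x ∈ l, lt x v := by
        intro x hx
        rcases hl x hx with rfl | h
        · exact hu
        · exact htr _ _ _ h hu
      refine ⟨hP l (fun x hx => Or.inr (hb x hx)) hp hPr.1, hP (v :: l) ?_ ?_ hPr.2⟩
      · intro x hx
        rcases List.mem_cons.1 hx with rfl | hx
        · exact Or.inl rfl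
        · exact Or.inr (hb x hx)
      · exact List.pairwise_cons.2 ⟨hb, hp⟩
    exact ⟨hP [v] (by simp) (by simp) h0, u1, u2, h1, h2, h3, ih h4 (key u1 h1),
      ih h5 (key u2 h2)⟩

/-- chains are chains -/
theorem TT.chain {N : ℕ} {Pr : List P → Prop} {v : P}
    (htr : ∀ u v w, lt u v → lt v w → lt u w) (h : TT lt sep N Pr v) :
    TT lt sep N (fun l => Pr l ∧ l.Pairwise (fun a b => lt b a)) v :=
  h.mono_chain htr (fun _ _ hp hl => ⟨hl, hp⟩)

/-- a branch of the tree -/
theorem TT.line {N : ℕ} {Pr : List P → Prop} {v : P} (h : TT lt sep N Pr v) :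
    ∃ w : ℕ → P, w 0 = v ∧ ∀ l : List ℕ, l ≠ [] → l.Pairwise (· < ·) → (∀ i ∈ l, i ≤ N) →
      Pr (l.map w) := by
  induction N generalizing Pr v with
  | zero =>
    refine ⟨fun _ => v, rfl, ?_⟩
    intro l hl hp hN
    match l, hl with
    | [a], _ => exact h
    | a :: b :: t, _ =>
      exfalso
      have h1 : a < b := (List.pairwise_cons.1 hp).1 b (by simp)
      have h2 : b ≤ 0 := hN b (by simp)
      omega
  | succ N ih =>
    obtain ⟨h0, u1, u2, h1, h2, h3, h4, h5⟩ := h
    obtain ⟨w, hw0, hw⟩ := ih h4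
    let w' : ℕ → P := fun i => match i with
      | 0 => v
      | i + 1 => w i
    have hsh : ∀ t : List ℕ, (∀ i ∈ t, 1 ≤ i) → t.map w' = (t.map (fun i => i - 1)).map w := by
      intro t ht
      rw [List.map_map]
      apply List.map_congr_left
      intro i hi
      have := ht i hi
      obtain ⟨j, rfl⟩ : ∃ j, i = j + 1 := ⟨i - 1, by omega⟩
      simp [w']
    have hpw : ∀ t : List ℕ, (∀ i ∈ t, 1 ≤ i) → t.Pairwise (· < ·) →
        (t.map (fun i => i - 1)).Pairwise (· < ·) := by
      intro t ht hp
      rw [List.pairwise_map]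
      refine List.Pairwise.imp_of_mem ?_ hp
      intro a b ha hb hab
      have := ht a ha
      omega
    have hbd : ∀ t : List ℕ, (∀ i ∈ t, i ≤ N + 1) → ∀ i ∈ t.map (fun i => i - 1), i ≤ N := by
      intro t ht i hi
      obtain ⟨j, hj, rfl⟩ := List.mem_map.1 hi
      have := ht j hj
      omega
    refine ⟨w', rfl, ?_⟩
    intro l hl hp hN
    cases l with
    | nil => exact absurd rfl hl
    | cons a t =>
      have hp' := List.pairwise_cons.1 hp
      cases a with
      | zero =>
        have ht : ∀ i ∈ t, 1 ≤ i := fun i hi => hp'.1 i hi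
        by_cases h : t = []
        · subst h
          exact h0
        · have := (hw (t.map (fun i => i - 1)) (by simpa using h) (hpw t ht hp'.2)
            (hbd t (fun i hi => hN i (List.mem_cons_of_mem _ hi)))).2
          rw [List.map_cons, hsh t ht]
          exact this
      | succ a =>
        have ht : ∀ i ∈ (a + 1) :: t, 1 ≤ i := by
          intro i hi
          rcases List.mem_cons.1 hi with rfl | hi
          · omega
          · have := hp'.1 i hi
            omega
        have := (hw (((a + 1) :: t).map (fun i => i - 1)) (by simp) (hpw _ ht hp)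
            (hbd _ hN)).1
        rw [hsh _ ht]
        exact this

/-- many pairwise separate nodes below the root -/
theorem TT.comb {N : ℕ} {Pr : List P → Prop} {v : P}
    (htr : ∀ u v w, lt u v → lt v w → lt u w)
    (hsep : ∀ u v w, lt u v → sep v w → sep u w) (hsy : ∀ u v, sep u v → sep v u)
    (h : TT lt sep N Pr v) :
    ∃ w : ℕ → P, (∀ i < N, lt (w i) v ∧ Pr [w i] ∧ Pr [v, w i]) ∧
      ∀ i < N, ∀ j < N, i ≠ j → sep (w i) (w j) := by
  induction N generalizing Pr v with
  | zero => exact ⟨fun _ => v, fun i hi => absurd hi (Nat.not_lt_zero i),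
      fun i hi => absurd hi (Nat.not_lt_zero i)⟩
  | succ N ih =>
    obtain ⟨h0, u1, u2, h1, h2, h3, h4, h5⟩ := h
    obtain ⟨w, hw1, hw2⟩ := ih h4
    let w' : ℕ → P := fun i => match i with
      | 0 => u2
      | i + 1 => w i
    have hs : ∀ i < N, sep (w i) u2 := fun i hi => hsep _ _ _ (hw1 i hi).1 h3
    refine ⟨w', ?_, ?_⟩
    · intro i hi
      cases i with
      | zero => exact ⟨h2, h5.root.1, h5.root.2⟩
      | succ i =>
        have := hw1 i (by omega)
        exact ⟨htr _ _ _ this.1 h1, this.2.1.1, this.2.1.2⟩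
    · intro i hi j hj hij
      cases i with
      | zero =>
        cases j with
        | zero => exact absurd rfl hij
        | succ j => exact hsy _ _ (hs j (by omega))
      | succ i =>
        cases j with
        | zero => exact hs i (by omega)
        | succ j => exact hw2 i (by omega) j (by omega) (by omega)

end Ram

/-- the statement of the Ramsey theorem with targets -/
theorem ramsey_step {C : Type} [Fintype C] (q : ℕ)
    (ihq : ∀ N : ℕ, ∃ M : ℕ, ∀ (P : Type)
      (lt sep : P → P → Prop), (∀ u v w, lt u v → lt v w → lt u w) →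
      (∀ u v w, lt u v → sep v w → sep u w) → (∀ u v, sep u v → sep v u) →
      ∀ (Pr : List P → Prop) (col : List P → C) (v : P), TT lt sep M Pr v →
        ∃ (c : C) (u : P), (u = v ∨ lt u v) ∧
          TT lt sep N (fun l => Pr l ∧ (l.length = q → col l = c)) u) (s : ℕ) :
    ∀ T : C → ℕ, ∑ c, T c = s → ∃ M : ℕ, ∀ (P : Type)
    (lt sep : P → P → Prop), (∀ u v w, lt u v → lt v w → lt u w) →
    (∀ u v w, lt u v → sep v w → sep u w) → (∀ u v, sep u v → sep v u) →
    ∀ (Pr : List P → Prop) (col : List P → C) (v : P), TT lt sep M Pr v →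
      ∃ (c : C) (u : P), (u = v ∨ lt u v) ∧
        TT lt sep (T c) (fun l => Pr l ∧ (l.length = q + 1 → col l = c)) u := by
  classical
  induction s using Nat.strong_induction_on with
  | _ s ih =>
    intro T hT
    have hex : ∀ c : C, ∃ M : ℕ, T c ≠ 0 → ∀ (P : Type)
        (lt sep : P → P → Prop), (∀ u v w, lt u v → lt v w → lt u w) →
        (∀ u v w, lt u v → sep v w → sep u w) → (∀ u v, sep u v → sep v u) →
        ∀ (Pr : List P → Prop) (col : List P → C) (v : P), TT lt sep M Pr v →
          ∃ (c' : C) (u : P), (u = v ∨ lt u v) ∧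
            TT lt sep (Function.update T c (T c - 1) c')
              (fun l => Pr l ∧ (l.length = q + 1 → col l = c')) u := by
      intro c
      by_cases hc : T c = 0
      · exact ⟨0, fun h => absurd hc h⟩
      · have hlt : ∑ c', Function.update T c (T c - 1) c' < s := by
          rw [← hT]
          apply Finset.sum_lt_sum
          · intro i _
            by_cases hi : i = c
            · subst hi
              simp
            · rw [Function.update_of_ne hi]
          · refine ⟨c, Finset.mem_univ _, ?_⟩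
            rw [Function.update_self]
            omega
        obtain ⟨M, hM⟩ := ih _ hlt (Function.update T c (T c - 1)) rfl
        exact ⟨M, fun _ => hM⟩
    choose Mf hMf using hex
    obtain ⟨M0, hM0⟩ := ihq (Finset.univ.sup Mf + 1)
    refine ⟨M0 + 1, ?_⟩
    intro P lt sep htr hsep hsy Pr col v hv
    obtain ⟨h0, a1, a2, ha1, ha2, ha3, ha4, ha5⟩ := hv
    obtain ⟨c0, w, hw, hwT⟩ := hM0 P lt sep htr hsep hsy (fun l => Pr l ∧ Pr (v :: l))
      (fun l => col (v :: l)) a1 ha4
    obtain ⟨c, hc0, hcT⟩ : ∃ c : C, (q = 0 → col [v] = c) ∧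
        TT lt sep (Finset.univ.sup Mf + 1) (fun l => (Pr l ∧ Pr (v :: l)) ∧
          (l.length = q → col (v :: l) = c)) w := by
      by_cases hq : q = 0
      · refine ⟨col [v], fun _ => rfl, hwT.mono ?_⟩
        intro l hl
        refine ⟨hl.1, fun hl' => ?_⟩
        have : l = [] := List.length_eq_zero_iff.1 (by omega)
        rw [this]
      · exact ⟨c0, fun h => absurd h hq, hwT⟩
    have hwv : lt w v := by
      rcases hw with rfl | hw
      · exact ha1
      · exact htr _ _ _ hw ha1
    have hroot : Pr [v] ∧ ([v].length = q + 1 → col [v] = c) := by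
      refine ⟨h0, fun h => hc0 ?_⟩
      have h' : 1 = q + 1 := h
      omega
    by_cases hTc : T c = 0
    · refine ⟨c, v, Or.inl rfl, ?_⟩
      rw [hTc]
      exact hroot
    · obtain ⟨hr, w1, w2, hw1, hw2, hw12, hT1, hT2⟩ := hcT
      have hsub : ∀ w' : P, lt w' w → TT lt sep (Finset.univ.sup Mf) (fun l =>
          ((Pr l ∧ Pr (v :: l)) ∧ (l.length = q → col (v :: l) = c)) ∧
          ((Pr (w :: l) ∧ Pr (v :: w :: l)) ∧ ((w :: l).length = q →
            col (v :: w :: l) = c))) w' →
          ∃ (c' : C) (u : P), (u = w' ∨ lt u w') ∧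
            TT lt sep (Function.update T c (T c - 1) c')
              (fun l => ((Pr l ∧ Pr (v :: l)) ∧ (l.length = q → col (v :: l) = c)) ∧
                (l.length = q + 1 → col l = c')) u := by
        intro w' _ hT'
        have hT'' : TT lt sep (Mf c) (fun l =>
            ((Pr l ∧ Pr (v :: l)) ∧ (l.length = q → col (v :: l) = c))) w' :=
          (hT'.mono (fun l hl => hl.1)).le (Finset.le_sup (f := Mf) (Finset.mem_univ c))
        exact hMf c hTc P lt sep htr hsep hsy _ col w' hT''
      obtain ⟨c1, u1, hu1, hTu1⟩ := hsub w1 hw1 hT1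
      obtain ⟨c2, u2, hu2, hTu2⟩ := hsub w2 hw2 hT2
      have hlt : ∀ w' : P, lt w' w → ∀ u : P, (u = w' ∨ lt u w') → lt u v := by
        intro w' hw' u hu
        have : lt w' v := htr _ _ _ hw' hwv
        rcases hu with rfl | hu
        · exact this
        · exact htr _ _ _ hu this
      by_cases hc1 : c1 = c
      · by_cases hc2 : c2 = c
        · subst hc1
          subst hc2
          rw [Function.update_self] at hTu1 hTu2
          refine ⟨c2, v, Or.inl rfl, ?_⟩
          obtain ⟨t, ht⟩ : ∃ t, T c2 = t + 1 := ⟨T c2 - 1, by omega⟩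
          have ht' : T c2 - 1 = t := by omega
          rw [ht'] at hTu1 hTu2
          rw [ht]
          have hs1 : sep u1 w2 := by
            rcases hu1 with rfl | hu1
            · exact hw12
            · exact hsep _ _ _ hu1 hw12
          have hs2 : sep u1 u2 := by
            rcases hu2 with rfl | hu2
            · exact hs1
            · exact hsy _ _ (hsep _ _ _ hu2 (hsy _ _ hs1))
          refine ⟨hroot, u1, u2, hlt w1 hw1 u1 hu1, hlt w2 hw2 u2 hu2, hs2,
            hTu1.mono ?_, hTu2.mono ?_⟩
          · intro l hl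
            exact ⟨⟨hl.1.1.1, hl.2⟩, hl.1.1.2, fun h => hl.1.2 (by simpa using h)⟩
          · intro l hl
            exact ⟨⟨hl.1.1.1, hl.2⟩, hl.1.1.2, fun h => hl.1.2 (by simpa using h)⟩
        · rw [Function.update_of_ne hc2] at hTu2
          exact ⟨c2, u2, Or.inr (hlt w2 hw2 u2 hu2), hTu2.mono (fun l hl => ⟨hl.1.1.1, hl.2⟩)⟩
      · rw [Function.update_of_ne hc1] at hTu1
        exact ⟨c1, u1, Or.inr (hlt w1 hw1 u1 hu1), hTu1.mono (fun l hl => ⟨hl.1.1.1, hl.2⟩)⟩

theorem ramsey_tree {C : Type} [Finite C] (q N : ℕ) : ∃ M : ℕ, ∀ (P : Type)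
    (lt sep : P → P → Prop), (∀ u v w, lt u v → lt v w → lt u w) →
    (∀ u v w, lt u v → sep v w → sep u w) → (∀ u v, sep u v → sep v u) →
    ∀ (Pr : List P → Prop) (col : List P → C) (v : P), TT lt sep M Pr v →
      ∃ (c : C) (u : P), (u = v ∨ lt u v) ∧
        TT lt sep N (fun l => Pr l ∧ (l.length = q → col l = c)) u := by
  classical
  cases nonempty_fintype C
  induction q generalizing N with
  | zero =>
    refine ⟨N, ?_⟩
    intro P lt sep _ _ _ Pr col v hv
    refine ⟨col [], v, Or.inl rfl, hv.mono ?_⟩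
    intro l hl
    refine ⟨hl, fun h => ?_⟩
    rw [List.length_eq_zero_iff.1 h]
  | succ q ih =>
    exact ramsey_step q ih _ (fun _ => N) rfl

end H24.Bip
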