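import Pool.Agent.H24.Bip.Defs
import Pool.Agent.H24.Bip.Ram
import Pool.Agent.H7.Online.Contracted

/-!
Attachment: deep subtrees in which every node is adjacent to a vertex chosen from the other five.
-/

namespace H24.Bip

open H7.Online

/-- a shortest path through a connected set -/
private theorem att_path {V : Type} {G : SimpleGraph V} {O : Set V} (hO : Conn G O) {s t : V}
    (hs : Touch G s O) (ht : Touch G t O) : ∃ (l : ℕ) (p : ℕ → V), p 0 = s ∧ p l = t ∧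
      (∀ i, 0 < i → i < l → p i ∈ O) ∧ (∀ i ≤ l, ∀ j ≤ l, p i = p j → i = j) ∧
      (∀ i ≤ l, ∀ j ≤ l, (G.Adj (p i) (p j) ↔ (i + 1 = j ∨ j + 1 = i))) := by
  set U : Set V := O ∪ {s, t} with hU
  have hxa : s ∈ U := by rw [hU]; simp
  have hxb : t ∈ U := by rw [hU]; simp
  obtain ⟨y, hy, hay⟩ := hs
  obtain ⟨z, hz, hbz⟩ := ht
  have h1 : Relation.ReflTransGen (fun u v => G.Adj u v ∧ v ∈ U) y z :=
    Relation.ReflTransGen.mono (r := fun u v => G.Adj u v ∧ v ∈ O)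
      (p := fun u v => G.Adj u v ∧ v ∈ U)
      (fun u v huv => ⟨huv.1, Or.inl huv.2⟩) y z (hO.2 y hy z hz)
  have h2 : Relation.ReflTransGen (fun u v => G.Adj u v ∧ v ∈ U) s t :=
    ((Relation.ReflTransGen.single ⟨hay, Or.inl hy⟩).trans h1).tail ⟨hbz.symm, hxb⟩
  obtain ⟨l, p, hp0, hpl, hpU, hpi, hpa⟩ := geodesic hxa h2
  refine ⟨l, p, hp0, hpl, ?_, hpi, hpa⟩
  intro i hi0 hil
  have h3 := hpU i hil.le
  rw [hU] at h3
  rcases h3 with h3 | h3 | h3
  · exact h3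
  · have := hpi i hil.le 0 (Nat.zero_le _) (by rw [hp0, h3])
    omega
  · have h3' : p i = t := h3
    have := hpi i hil.le l (le_refl _) (by rw [hpl, h3'])
    omega

section Nodes
variable {V : Type} {G : SimpleGraph V} {c : V → Bool} {D : Set V} {Rc : Set V → Prop}
  {KP : Set V → V → Prop}

theorem att_trans : ∀ u v w : Nd G c D Rc KP, Nd.lt u v → Nd.lt v w → Nd.lt u w := by
  intro u v w h1 h2
  have hsub : insert u.x u.X ⊆ insert v.x v.X := fun t ht =>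
    Set.mem_insert_of_mem _ (v.YX (h1.1 ht))
  exact ⟨fun t ht => h2.1 (hsub ht), fun s hs t ht => h2.2 s (hsub hs) t ht⟩

theorem att_sep : ∀ u v w : Nd G c D Rc KP, Nd.lt u v → Nd.sep v w → Nd.sep u w := by
  intro u v w h1 h2
  have hsub : insert u.x u.X ⊆ insert v.x v.X := fun t ht =>
    Set.mem_insert_of_mem _ (v.YX (h1.1 ht))
  exact fun s hs t ht => h2 s (hsub hs) t ht

theorem att_symm : ∀ u v : Nd G c D Rc KP, Nd.sep u v → Nd.sep v u := by
  intro u v h s hs t ht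
  have h1 := h t ht s hs
  exact ⟨h1.1.symm, fun h2 => h1.2 h2.symm⟩

/-- the core of a node lies in its set `X` -/
private theorem att_OX (u : Nd G c D Rc KP) : u.O ⊆ u.X := fun _ ht => u.YX (u.OY ht)

/-- the cores of the nodes below `v` lie in `v.Y` -/
private theorem att_OY {u v : Nd G c D Rc KP} (h : u = v ∨ Nd.lt u v) : u.O ⊆ v.Y := by
  rcases h with h | h
  · subst h; exact u.OY
  · exact fun t ht => h.1 (Set.mem_insert_of_mem _ (att_OX u ht))

private theorem att_touch {z : Nd G c D Rc KP → V} (hz : z = Nd.x ∨ z = Nd.y)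
    {u v : Nd G c D Rc KP} (h : u = v ∨ Nd.lt u v) : Touch G (z v) u.O := by
  rcases hz with hz | hz
  · subst hz
    exact v.domx u.O (fun t ht => v.YX (att_OY h ht)) u.richO
  · subst hz
    exact v.domy u.O (att_OY h) u.richO

private theorem att_mem {z : Nd G c D Rc KP → V} (hz : z = Nd.x ∨ z = Nd.y)
    (u : Nd G c D Rc KP) : z u ∈ insert u.x u.X := by
  rcases hz with hz | hz
  · subst hz; exact Set.mem_insert _ _
  · subst hz; exact Set.mem_insert_of_mem _ u.yX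

private theorem att_notY {z : Nd G c D Rc KP → V} (hz : z = Nd.x ∨ z = Nd.y)
    (u : Nd G c D Rc KP) : z u ∉ u.Y := by
  rcases hz with hz | hz
  · subst hz; exact fun h => u.xX (u.YX h)
  · subst hz; exact u.yY

private theorem att_D {z : Nd G c D Rc KP → V} (hz : z = Nd.x ∨ z = Nd.y)
    (u : Nd G c D Rc KP) : z u ∈ D := by
  rcases hz with hz | hz
  · subst hz; exact u.xD
  · subst hz; exact u.XD u.yX

private theorem att_lab {z : Nd G c D Rc KP → V} (hz : z = Nd.x ∨ z = Nd.y)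
    (u v : Nd G c D Rc KP) : c (z u) = c (z v) := by
  rcases hz with hz | hz
  · subst hz; rw [u.cx, v.cx]
  · subst hz; rw [u.cy, v.cy]

end Nodes

theorem attach (n N : ℕ) : ∃ M : ℕ, ∀ (V : Type) (G : SimpleGraph V) (c : V → Bool) (D : Set V)
    (Rc : Set V → Prop) (KP : Set V → V → Prop),
    (∀ u ∈ D, ∀ v ∈ D, G.Adj u v → c u ≠ c v) → ¬ HasPath G n →
    ∀ (z : Nd G c D Rc KP → V), (z = Nd.x ∨ z = Nd.y) →
    ∀ (Pr : List (Nd G c D Rc KP) → Prop) (v : Nd G c D Rc KP), TT Nd.lt Nd.sep M Pr v →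
      ∃ (a : Nd G c D Rc KP → Nd G c D Rc KP → Nd G c D Rc KP → Nd G c D Rc KP →
          Nd G c D Rc KP → V) (u : Nd G c D Rc KP), (u = v ∨ Nd.lt u v) ∧
        TT Nd.lt Nd.sep N (fun l => Pr l ∧ ∀ t1 t2 e b1 b2 w, l = [t1, t2, e, b1, b2, w] →
          a t1 t2 b1 b2 w ∈ w.O ∧ G.Adj (z e) (a t1 t2 b1 b2 w)) u := by
  classical
  obtain ⟨M, hM⟩ := ramsey_tree (C := (Fin n → Prop) × (Fin n → Prop)) 6 (max N (3 * (2 * n + 6)))
  refine ⟨M, fun V G c D Rc KP hprop hnp z hz Pr v hv => ?_⟩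
  -- the connecting paths
  have hpath : ∀ a b w : Nd G c D Rc KP, ∃ (l : ℕ) (p : ℕ → V), Nd.lt b a →
      (w = b ∨ Nd.lt w b) →
      p 0 = z a ∧ p l = z b ∧ (∀ i, 0 < i → i < l → p i ∈ w.O) ∧
      (∀ i ≤ l, ∀ j ≤ l, p i = p j → i = j) ∧
      (∀ i ≤ l, ∀ j ≤ l, (G.Adj (p i) (p j) ↔ (i + 1 = j ∨ j + 1 = i))) := by
    intro a b w
    by_cases h : Nd.lt b a ∧ (w = b ∨ Nd.lt w b)
    · have hwa : Nd.lt w a := by
        rcases h.2 with h1 | h1
        · rw [h1]; exact h.1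
        · exact att_trans _ _ _ h1 h.1
      obtain ⟨l, p, h1⟩ := att_path w.connO (att_touch hz (Or.inr hwa)) (att_touch hz h.2)
      exact ⟨l, p, fun _ _ => h1⟩
    · exact ⟨0, fun _ => z a, fun h1 h2 => absurd ⟨h1, h2⟩ h⟩
  choose L S hS using hpath
  have hLn : ∀ a b w, Nd.lt b a → (w = b ∨ Nd.lt w b) → L a b w < n := by
    intro a b w h1 h2
    by_contra hcon
    obtain ⟨-, -, -, h5, h6⟩ := hS a b w h1 h2
    exact hnp (hasPath_of (S a b w) h5 h6 (by omega))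
  -- the colouring
  let χ : List (Nd G c D Rc KP) → (Fin n → Prop) × (Fin n → Prop) := fun l =>
    (fun p => 0 < (p : ℕ) ∧ (p : ℕ) < L (l.getD 0 v) (l.getD 1 v) (l.getD 5 v) ∧
        G.Adj (z (l.getD 2 v)) (S (l.getD 0 v) (l.getD 1 v) (l.getD 5 v) p),
      fun p => 0 < (p : ℕ) ∧ (p : ℕ) < L (l.getD 3 v) (l.getD 4 v) (l.getD 5 v) ∧
        G.Adj (z (l.getD 2 v)) (S (l.getD 3 v) (l.getD 4 v) (l.getD 5 v) p))
  obtain ⟨κ, u, hu, hT⟩ := hM _ Nd.lt Nd.sep att_trans att_sep att_symm Pr χ v hv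
  have hT2 := TT.chain att_trans hT
  -- the colour of a chain
  have hcol : ∀ t1 t2 e b1 b2 w, χ [t1, t2, e, b1, b2, w] = κ →
      (∀ p : Fin n, (0 < (p : ℕ) ∧ (p : ℕ) < L t1 t2 w ∧ G.Adj (z e) (S t1 t2 w p)) ↔ κ.1 p) ∧
      (∀ p : Fin n, (0 < (p : ℕ) ∧ (p : ℕ) < L b1 b2 w ∧ G.Adj (z e) (S b1 b2 w p)) ↔ κ.2 p) := by
    intro t1 t2 e b1 b2 w h
    refine ⟨fun p => ?_, fun p => ?_⟩
    · rw [← h]
      rfl
    · rw [← h]
      rfl
  by_cases hb1 : ∃ p, κ.1 p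
  · obtain ⟨p, hp⟩ := hb1
    refine ⟨fun t1 t2 _ _ w => S t1 t2 w p, u, hu, ?_⟩
    refine (hT2.le (le_max_left _ _)).mono ?_
    rintro l ⟨⟨h1, h2⟩, h3⟩
    refine ⟨h1, ?_⟩
    rintro t1 t2 e b1 b2 w rfl
    have h4 := ((hcol t1 t2 e b1 b2 w (h2 rfl)).1 p).mpr hp
    simp only [List.pairwise_cons, List.mem_cons, List.not_mem_nil, or_false, List.Pairwise.nil,
      and_true, forall_eq_or_imp, forall_eq, IsEmpty.forall_iff, implies_true] at h3
    have h5 : Nd.lt t2 t1 := h3.1.1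
    have h6 : Nd.lt w t2 := h3.2.1.2.2.2
    exact ⟨(hS t1 t2 w h5 (Or.inr h6)).2.2.1 p h4.1 h4.2.1, h4.2.2⟩
  by_cases hb2 : ∃ p, κ.2 p
  · obtain ⟨p, hp⟩ := hb2
    refine ⟨fun _ _ b1 b2 w => S b1 b2 w p, u, hu, ?_⟩
    refine (hT2.le (le_max_left _ _)).mono ?_
    rintro l ⟨⟨h1, h2⟩, h3⟩
    refine ⟨h1, ?_⟩
    rintro t1 t2 e b1 b2 w rfl
    have h4 := ((hcol t1 t2 e b1 b2 w (h2 rfl)).2 p).mpr hp
    simp only [List.pairwise_cons, List.mem_cons, List.not_mem_nil, or_false, List.Pairwise.nil,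
      and_true, forall_eq_or_imp, forall_eq, IsEmpty.forall_iff, implies_true] at h3
    have h5 : Nd.lt b2 b1 := h3.2.2.2.1.1
    have h6 : Nd.lt w b2 := h3.2.2.2.2
    exact ⟨(hS b1 b2 w h5 (Or.inr h6)).2.2.1 p h4.1 h4.2.1, h4.2.2⟩
  -- all bits are false
  exfalso
  obtain ⟨w, -, hw⟩ := (hT2.le (le_max_right _ _)).line
  have hlt : ∀ i j, i < j → j ≤ 3 * (2 * n + 6) → Nd.lt (w j) (w i) := by
    intro i j hij hj
    have h1 := (hw [i, j] (by simp) (by simp [hij]) (by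
      simp only [List.mem_cons, List.not_mem_nil, or_false, forall_eq_or_imp, forall_eq]
      omega)).2
    simpa using h1
  have hle : ∀ i j, i ≤ j → j ≤ 3 * (2 * n + 6) → w j = w i ∨ Nd.lt (w j) (w i) := by
    intro i j hij hj
    rcases Nat.lt_or_ge i j with h1 | h1
    · exact Or.inr (hlt i j h1 hj)
    · left
      rw [le_antisymm hij h1]
  have hcw : ∀ a b c d e f, a < b → b < c → c < d → d < e → e < f → f ≤ 3 * (2 * n + 6) →
      χ [w a, w b, w c, w d, w e, w f] = κ := by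
    intro a b c d e f h1 h2 h3 h4 h5 h6
    have h7 := (hw [a, b, c, d, e, f] (by simp) (by
        simp only [List.pairwise_cons, List.mem_cons, List.not_mem_nil, or_false,
          List.Pairwise.nil, and_true, forall_eq_or_imp, forall_eq, IsEmpty.forall_iff,
          implies_true]
        omega) (by
        simp only [List.mem_cons, List.not_mem_nil, or_false, forall_eq_or_imp, forall_eq]
        omega)).1.2
    exact h7 rfl
  refine hnp (core_path (N := 2 * n + 6) (le_refl _) (fun i => z (w (3 * i + 2)))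
    (fun i => (w (3 * i + 2)).O)
    (fun a b d => S (w (3 * a + 2)) (w (3 * b + 2)) (w (3 * d + 2)))
    (fun a b d => L (w (3 * a + 2)) (w (3 * b + 2)) (w (3 * d + 2)))
    ?_ ?_ ?_ ?_ ?_ ?_ ?_ ?_ ?_ ?_)
  · intro i hi j hj h
    rcases Nat.lt_or_ge j i with h1 | h1
    · exact ((hlt (3 * j + 2) (3 * i + 2) (by omega) (by omega)).2 _ (att_mem hz _) _ h).1 rfl
    · exact att_notY hz _ (att_OY (hle (3 * i + 2) (3 * j + 2) (by omega) (by omega)) h)
  · intro i hi j hj hij h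
    have h1 := (hlt (3 * i + 2) (3 * j + 2) (by omega) (by omega)).1 (att_mem hz (w (3 * j + 2)))
    have h2 : z (w (3 * i + 2)) = z (w (3 * j + 2)) := h
    rw [← h2] at h1
    exact att_notY hz _ h1
  · intro i hi j hj hij s hs t ht
    rcases Nat.lt_or_gt_of_ne hij with h1 | h1
    · have h2 := (hlt (3 * i + 2) (3 * j + 2) (by omega) (by omega)).2 t
        (Set.mem_insert_of_mem _ (att_OX _ ht)) s hs
      exact ⟨h2.1.symm, fun h3 => h2.2 h3.symm⟩
    · exact (hlt (3 * j + 2) (3 * i + 2) (by omega) (by omega)).2 s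
        (Set.mem_insert_of_mem _ (att_OX _ hs)) t ht
  · intro a b d h1 h2 h3
    exact (hS _ _ _ (hlt _ _ (by omega) (by omega)) (hle _ _ (by omega) (by omega))).1
  · intro a b d h1 h2 h3
    exact (hS _ _ _ (hlt _ _ (by omega) (by omega)) (hle _ _ (by omega) (by omega))).2.1
  · intro a b d h1 h2 h3
    exact (hS _ _ _ (hlt _ _ (by omega) (by omega)) (hle _ _ (by omega) (by omega))).2.2.1
  · intro a b d h1 h2 h3 p hp
    exact ((hS _ _ _ (hlt _ _ (by omega) (by omega)) (hle _ _ (by omega) (by omega))).2.2.2.2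
      p hp.le (p + 1) hp).mpr (Or.inl rfl)
  · intro a b h1 h2 h
    exact hprop _ (att_D hz _) _ (att_D hz _) h (att_lab hz _ _)
  · intro a b c d h1 h2 h3 h4 p h5 h6 h7
    have hp : p < n := lt_trans h6 (hLn _ _ _ (hlt _ _ (by omega) (by omega))
      (hle _ _ (by omega) (by omega)))
    exact hb1 ⟨⟨p, hp⟩, ((hcol _ _ _ _ _ _ (hcw (3 * a + 2) (3 * b + 2) (3 * c + 2) (3 * c + 3)
      (3 * c + 4) (3 * d + 2) (by omega) (by omega) (by omega) (by omega) (by omega)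
      (by omega))).1 ⟨p, hp⟩).mp ⟨h5, h6, h7⟩⟩
  · intro a b c d h1 h2 h3 h4 p h5 h6 h7
    have hp : p < n := lt_trans h6 (hLn _ _ _ (hlt _ _ (by omega) (by omega))
      (hle _ _ (by omega) (by omega)))
    exact hb2 ⟨⟨p, hp⟩, ((hcol _ _ _ _ _ _ (hcw (3 * a) (3 * a + 1) (3 * a + 2) (3 * b + 2)
      (3 * c + 2) (3 * d + 2) (by omega) (by omega) (by omega) (by omega) (by omega)
      (by omega))).2 ⟨p, hp⟩).mp ⟨h5, h6, h7⟩⟩

end H24.Bip
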