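import Pool.Agent.H24.Bip.Defs
import Pool.Agent.H7.Online.Rank

/-!
Copies and rich sets.
-/

namespace H24.Bip

open H7.Online

variable {V : Type} {G : SimpleGraph V} {c : V → Bool} {D : Set V}

theorem Cp.mono {b : Bool} {f : V → V} {W W' : Set V} (h : Cp G c b f W) (hW : W' ⊆ W) :
    Cp G c b f W' :=
  ⟨h.inj.mono hW, fun u hu w hw => h.adj u (hW hu) w (hW hw), fun u hu => h.lab u (hW hu)⟩

theorem Cp.comp {b b' : Bool} {f g : V → V} {W W' : Set V} (h : Cp G c b f W)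
    (hm : Set.MapsTo f W W') (h' : Cp G c b' g W') : Cp G c (xor b' b) (g ∘ f) W := by
  refine ⟨h'.inj.comp h.inj hm, fun u hu w hw => ?_, fun u hu => ?_⟩
  · exact (h'.adj _ (hm hu) _ (hm hw)).trans (h.adj u hu w hw)
  · have h1 := h'.lab _ (hm hu)
    have h2 := h.lab u hu
    simp only [Function.comp_apply, h1, h2, Bool.xor_assoc]

theorem conn_image {W : Set V} {f : V → V} (hW : Conn G W)
    (hf : ∀ u ∈ W, ∀ w ∈ W, G.Adj u w → G.Adj (f u) (f w)) : Conn G (f '' W) := by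
  refine ⟨hW.1.image f, ?_⟩
  rintro _ ⟨a, ha, rfl⟩ _ ⟨b, hb, rfl⟩
  have key : ∀ b, Relation.ReflTransGen (fun u v => G.Adj u v ∧ v ∈ W) a b → b ∈ W ∧
      Relation.ReflTransGen (fun u v => G.Adj u v ∧ v ∈ f '' W) (f a) (f b) := by
    intro b hb
    induction hb with
    | refl => exact ⟨ha, Relation.ReflTransGen.refl⟩
    | tail _ h2 ih =>
      exact ⟨h2.2, ih.2.tail ⟨hf _ ih.1 _ h2.2 h2.1, _, h2.2, rfl⟩⟩
  exact (key b (hW.2 a ha b hb)).2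

theorem conn_preimage {W O : Set V} {f : V → V} (hO : Conn G O) (hOW : O ⊆ f '' W)
    (hinj : Set.InjOn f W) (hf : ∀ u ∈ W, ∀ w ∈ W, G.Adj (f u) (f w) → G.Adj u w) :
    Conn G {u | u ∈ W ∧ f u ∈ O} := by
  constructor
  · obtain ⟨o, ho⟩ := hO.1
    obtain ⟨u, hu, rfl⟩ := hOW ho
    exact ⟨u, hu, ho⟩
  · rintro a ⟨ha, ha'⟩ b ⟨hb, hb'⟩
    have key : ∀ o, Relation.ReflTransGen (fun u v => G.Adj u v ∧ v ∈ O) (f a) o →
        ∃ u ∈ W, f u = o ∧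
          Relation.ReflTransGen (fun u v => G.Adj u v ∧ v ∈ {u | u ∈ W ∧ f u ∈ O}) a u := by
      intro o ho
      induction ho with
      | refl => exact ⟨a, ha, rfl, Relation.ReflTransGen.refl⟩
      | tail _ h2 ih =>
        obtain ⟨u, hu, hu1, hu2⟩ := ih
        obtain ⟨w, hw, hw1⟩ := hOW h2.2
        refine ⟨w, hw, hw1, hu2.tail ⟨hf u hu w hw ?_, hw, ?_⟩⟩
        · rw [hu1, hw1]; exact h2.1
        · rw [hw1]; exact h2.2
    obtain ⟨u, hu, hu1, hu2⟩ := key _ (hO.2 _ ha' _ hb')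
    have := hinj hu hb hu1
    rwa [this] at hu2

theorem anti_image {W A B : Set V} {b : Bool} {f : V → V} (h : Cp G c b f W) (hA : A ⊆ W)
    (hB : B ⊆ W) (hAB : Anti G A B) : Anti G (f '' A) (f '' B) := by
  rintro _ ⟨u, hu, rfl⟩ _ ⟨w, hw, rfl⟩
  have h1 := hAB u hu w hw
  exact ⟨fun h' => h1.1 (h.inj (hA hu) (hB hw) h'), fun h' =>
    h1.2 ((h.adj u (hA hu) w (hB hw)).mp h')⟩

theorem Rich.conn {m : ℕ} {E : Set V} (h : Rich G c D m E) : Conn G E := h.1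

theorem Rich.mono {m : ℕ} {E E' : Set V} (h : Rich G c D m E) (hE : E ⊆ E') (hc : Conn G E') :
    Rich G c D m E' := by
  refine ⟨hc, fun W hW hm b => ?_⟩
  obtain ⟨f, h1, h2⟩ := h.2 W hW hm b
  exact ⟨f, h1, h2.mono_right hE⟩

theorem Rich.le {m m' : ℕ} {E : Set V} (h : Rich G c D m E) (hm : m' ≤ m) : Rich G c D m' E :=
  ⟨h.1, fun W hW hW' b => h.2 W hW (hW'.trans hm) b⟩

theorem Rich.image {m : ℕ} {b : Bool} {f : V → V} {W : Set V} (h : Rich G c D m W)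
    (hf : Cp G c b f W) : Rich G c D m (f '' W) := by
  refine ⟨conn_image h.1 (fun u hu w hw => (hf.adj u hu w hw).mpr), fun W' hW' hm b' => ?_⟩
  obtain ⟨g, h1, h2⟩ := h.2 W' hW' hm (xor b b')
  refine ⟨f ∘ g, ?_, fun u hu => ⟨g u, h2 hu, rfl⟩⟩
  have h3 := h1.comp h2 hf
  rwa [← Bool.xor_assoc, Bool.xor_self, Bool.false_xor] at h3

theorem Rich.preimage {m : ℕ} {b : Bool} {f : V → V} {W O : Set V} (h : Rich G c D m O)
    (hf : Cp G c b f W) (hO : O ⊆ f '' W) : Rich G c D m {u | u ∈ W ∧ f u ∈ O} := by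
  classical
  refine ⟨conn_preimage h.1 hO hf.inj (fun u hu w hw => (hf.adj u hu w hw).mp),
    fun W' hW' hm b' => ?_⟩
  obtain ⟨g, h1, h2⟩ := h.2 W' hW' hm (xor b b')
  have hinv : ∀ u, ∃ w, u ∈ (W' : Set V) → w ∈ W ∧ f w = g u := by
    intro u
    by_cases hu : u ∈ (W' : Set V)
    · obtain ⟨w, hw, hw'⟩ := hO (h2 hu)
      exact ⟨w, fun _ => ⟨hw, hw'⟩⟩
    · exact ⟨u, fun h' => absurd h' hu⟩
  choose k hk using hinv
  refine ⟨k, ⟨?_, ?_, ?_⟩, ?_⟩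
  · intro u hu w hw huw
    apply h1.inj hu hw
    rw [← (hk u hu).2, ← (hk w hw).2, huw]
  · intro u hu w hw
    rw [← h1.adj u hu w hw, ← (hk u hu).2, ← (hk w hw).2]
    exact (hf.adj _ (hk u hu).1 _ (hk w hw).1).symm
  · intro u hu
    have h3 := hf.lab _ (hk u hu).1
    rw [(hk u hu).2, h1.lab u hu] at h3
    cases b <;> cases b' <;> cases h4 : c u <;> cases h5 : c (k u) <;> simp_all
  · intro u hu
    refine ⟨(hk u hu).1, ?_⟩
    rw [(hk u hu).2]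
    exact h2 hu

/-- domination is inherited by copies -/
theorem dom_image {r : ℕ} {b : Bool} {f : V → V} {x : V} {W : Set V}
    (hf : Cp G c b f (insert x W)) (hd : ∀ O ⊆ W, Rich G c D r O → Touch G x O) :
    ∀ O ⊆ f '' W, Rich G c D r O → Touch G (f x) O := by
  intro O hO hr
  obtain ⟨y, hy, hxy⟩ := hd {u | u ∈ W ∧ f u ∈ O} (fun u hu => hu.1)
    (hr.preimage (hf.mono (Set.subset_insert x W)) hO)
  refine ⟨f y, hy.2, ?_⟩
  exact (hf.adj x (Set.mem_insert x W) y (Set.mem_insert_of_mem x hy.1)).mpr hxy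

/-- Gyárfás' step for a property of connected sets -/
theorem step_of {Pp : Set V → Prop} (hc : ∀ s, Pp s → Conn G s)
    (hm : ∀ s s', Pp s → s ⊆ s' → Conn G s' → Pp s') {x : V} {D' O : Set V} (hD : Conn G D')
    (hx : Touch G x D') (hO : O ⊆ D') (hr : Pp O) (hxO : ¬ Touch G x O) :
    ∃ w ∈ D', G.Adj x w ∧ ∃ C ⊆ D', w ∉ C ∧ Touch G w C ∧ Pp C ∧ ¬ Touch G x C := by
  obtain ⟨o, ho⟩ := (hc O hr).1
  obtain ⟨y, hyD, hxy⟩ := hx
  set T : Set V := {z | z ∈ D' ∧ ¬ G.Adj x z} with hT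
  have hOT : O ⊆ T := fun z hz => ⟨hO hz, fun h => hxO ⟨z, hz, h⟩⟩
  have hoT : o ∈ T := hOT ho
  have hCT : comp G T o ⊆ T := comp_subset hoT
  have hCD : comp G T o ⊆ D' := hCT.trans (fun z hz => hz.1)
  have hyC : y ∉ comp G T o := fun h => (hCT h).2 hxy
  obtain ⟨w, hwD, hwC, e, he, hwe⟩ := boundary hD ⟨o, mem_comp_self T o⟩ hCD hyD hyC
  have hxw : G.Adj x w := by
    by_contra hcon
    exact hwC (comp_step he hwe.symm ⟨hwD, hcon⟩)
  refine ⟨w, hwD, hxw, comp G T o, hCD, hwC, ⟨e, he, hwe⟩, ?_, ?_⟩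
  · exact hm O _ hr (subset_comp (hc O hr) hOT ho) (conn_comp hoT)
  · rintro ⟨z, hz, hxz⟩
    exact (hCT hz).2 hxz

end H24.Bip
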