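import Pool.Agent.H7.Online.RankDefs

/-!
On-line colouring of bipartite graphs without long induced paths: copies, rich sets, double laminar
graphs and binary trees.
-/

namespace H24.Bip

open H7.Online

/-- `f` restricted to `W` is an isomorphism onto an induced subgraph, and it changes the labels by
`b` -/
structure Cp {V : Type} (G : SimpleGraph V) (c : V → Bool) (b : Bool) (f : V → V) (W : Set V) :
    Prop where
  inj : Set.InjOn f W
  adj : ∀ u ∈ W, ∀ w ∈ W, (G.Adj (f u) (f w) ↔ G.Adj u w)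
  lab : ∀ u ∈ W, c (f u) = xor b (c u)

/-- `E` is connected and contains both kinds of copies of all the subsets of `D` with at most `m`
elements -/
def Rich {V : Type} (G : SimpleGraph V) (c : V → Bool) (D : Set V) (m : ℕ) (E : Set V) : Prop :=
  Conn G E ∧ ∀ W : Finset V, (W : Set V) ⊆ D → W.card ≤ m → ∀ b : Bool,
    ∃ f : V → V, Cp G c b f W ∧ Set.MapsTo f W E

/-- a self-merging connected set -/
structure Ctx {V : Type} (G : SimpleGraph V) (c : V → Bool) (s : ℕ) (D D1 D2 : Set V) : Prop where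
  conn : Conn G D
  sub1 : D1 ⊆ D
  sub2 : D2 ⊆ D
  anti : Anti G D1 D2
  rich1 : Rich G c D s D1
  rich2 : Rich G c D s D2
  proper : ∀ u ∈ D, ∀ v ∈ D, G.Adj u v → c u ≠ c v

/-- **Double laminar graphs.** The set `E` induces in `H` the double laminar graph of depth `d` with
paths of length `l`: for `d = 0` this is a path with `l` edges, whose ends form `A` and `B`; for
`d + 1` it consists of two copies for `d` without edges between them, and two non-adjacent vertices
`x` and `y`, where `x` is adjacent to the vertices in the sets `A` of the two copies and `y` is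
adjacent to the vertices in the sets `B` of the two copies (and to nothing else). -/
def DLam {V : Type} (H : SimpleGraph V) (l : ℕ) : ℕ → Set V → Set V → Set V → Prop
  | 0, E, A, B => ∃ p : Fin (l + 1) → V, Function.Injective p ∧
      (∀ i j : Fin (l + 1), H.Adj (p i) (p j) ↔ ((i : ℕ) + 1 = j ∨ (j : ℕ) + 1 = i)) ∧
      E = Set.range p ∧ A = {p 0} ∧ B = {p (Fin.last l)}
  | d + 1, E, A, B => ∃ (x y : V) (E1 A1 B1 E2 A2 B2 : Set V),
      DLam H l d E1 A1 B1 ∧ DLam H l d E2 A2 B2 ∧ Anti H E1 E2 ∧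
      x ∉ E1 ∪ E2 ∧ y ∉ E1 ∪ E2 ∧ x ≠ y ∧ ¬ H.Adj x y ∧
      (∀ z ∈ E1 ∪ E2, (H.Adj x z ↔ z ∈ A1 ∪ A2)) ∧
      (∀ z ∈ E1 ∪ E2, (H.Adj y z ↔ z ∈ B1 ∪ B2)) ∧
      E = insert x (insert y (E1 ∪ E2)) ∧ A = A1 ∪ A2 ∧ B = B1 ∪ B2

/-- `v` is the root of a binary tree of height `N` (children are below their parent, siblings are
separate), all of whose chains (root first) satisfy `Pr` -/
def TT {P : Type} (lt sep : P → P → Prop) : ℕ → (List P → Prop) → P → Prop
  | 0, Pr, v => Pr [v]
  | N + 1, Pr, v => Pr [v] ∧ ∃ u1 u2 : P, lt u1 v ∧ lt u2 v ∧ sep u1 u2 ∧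
      TT lt sep N (fun l => Pr l ∧ Pr (v :: l)) u1 ∧
      TT lt sep N (fun l => Pr l ∧ Pr (v :: l)) u2

/-- a node of the tree: `x` dominates the sets with property `Rc` inside `X`, and `y` those inside
`Y`, where `Y` is a part of `X` -/
structure Nd {V : Type} (G : SimpleGraph V) (c : V → Bool) (D : Set V) (Rc : Set V → Prop)
    (KP : Set V → V → Prop) where
  x : V
  y : V
  X : Set V
  Y : Set V
  O : Set V
  cx : c x = true
  cy : c y = false
  xX : x ∉ X
  yX : y ∈ X
  yY : y ∉ Y
  YX : Y ⊆ X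
  OY : O ⊆ Y
  connO : Conn G O
  richO : Rc O
  domx : ∀ E ⊆ X, Rc E → Touch G x E
  domy : ∀ E ⊆ Y, Rc E → Touch G y E
  xD : x ∈ D
  XD : X ⊆ D
  kx : KP (insert x X) x
  ky : KP (insert y Y) y

/-- the node `u` lies below `v` -/
def Nd.lt {V : Type} {G : SimpleGraph V} {c : V → Bool} {D : Set V} {Rc : Set V → Prop}
    {KP : Set V → V → Prop} (u v : Nd G c D Rc KP) : Prop :=
  insert u.x u.X ⊆ v.Y ∧ Anti G (insert u.x u.X) v.O

/-- the nodes `u` and `v` are separate -/
def Nd.sep {V : Type} {G : SimpleGraph V} {c : V → Bool} {D : Set V} {Rc : Set V → Prop}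
    {KP : Set V → V → Prop} (u v : Nd G c D Rc KP) : Prop :=
  Anti G (insert u.x u.X) (insert v.x v.X)

end H24.Bip
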