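import Pool.Agent.H24.Bip.Defs
import Pool.Agent.H7.Online.Contracted

/-!
# Small: small connected sets

`connect`: geodesics from one vertex of `U` to all the others.
`small`: there are finitely many patterns (number of vertices at most `m`, adjacency, labels); for every
pattern which occurs in `E` choose an occurrence, and connect the union of these occurrences.
-/

set_option autoImplicit false

namespace H24.Bip

open H7.Online

theorem connect {V : Type} {G : SimpleGraph V} {n : ℕ} {E : Set V} (hn : ¬ HasPath G n)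
    (hE : Conn G E) (U : Finset V) (hU : U.Nonempty) (hUE : (U : Set V) ⊆ E) :
    ∃ W : Finset V, U ⊆ W ∧ (W : Set V) ⊆ E ∧ Conn G (W : Set V) ∧ W.card ≤ U.card * n := by
  classical
  obtain ⟨u0, hu0⟩ := hU
  have hu0E : u0 ∈ E := hUE hu0
  have key : ∀ v : V, ∃ (d : ℕ) (p : ℕ → V), v ∈ U → (p 0 = u0 ∧ p d = v ∧ (∀ i ≤ d, p i ∈ E) ∧
      (∀ i < d, G.Adj (p i) (p (i + 1))) ∧ d + 1 ≤ n) := by
    intro v
    by_cases hv : v ∈ U
    · obtain ⟨d, p, h0, hd, hpE, hpi, hpa⟩ := geodesic hu0E (hE.2 u0 hu0E v (hUE hv))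
      refine ⟨d, p, fun _ => ⟨h0, hd, hpE, ?_, ?_⟩⟩
      · intro i hi
        exact (hpa i hi.le (i + 1) hi).mpr (Or.inl rfl)
      · by_contra hcon
        exact hn (hasPath_of p hpi hpa (by omega))
    · exact ⟨0, fun _ => u0, fun h => absurd h hv⟩
  choose d p hp using key
  set W : Finset V := U.biUnion (fun v => (Finset.range (d v + 1)).image (p v)) with hW
  have hmem : ∀ v ∈ U, ∀ i ≤ d v, p v i ∈ W := by
    intro v hv i hi
    rw [hW, Finset.mem_biUnion]
    exact ⟨v, hv, Finset.mem_image_of_mem _ (Finset.mem_range.mpr (by omega))⟩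
  have hup : ∀ v ∈ U, ∀ i ≤ d v,
      Relation.ReflTransGen (fun u w => G.Adj u w ∧ w ∈ (W : Set V)) u0 (p v i) := by
    intro v hv i
    induction i with
    | zero => intro _; rw [(hp v hv).1]
    | succ i ih =>
      intro hi
      refine (ih (by omega)).tail ⟨(hp v hv).2.2.2.1 i (by omega), ?_⟩
      exact Finset.mem_coe.mpr (hmem v hv (i + 1) hi)
  have hdown : ∀ v ∈ U, ∀ i ≤ d v,
      Relation.ReflTransGen (fun u w => G.Adj u w ∧ w ∈ (W : Set V)) (p v i) u0 := by
    intro v hv i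
    induction i with
    | zero => intro _; rw [(hp v hv).1]
    | succ i ih =>
      intro hi
      refine Relation.ReflTransGen.head ⟨((hp v hv).2.2.2.1 i (by omega)).symm, ?_⟩ (ih (by omega))
      exact Finset.mem_coe.mpr (hmem v hv i (by omega))
  refine ⟨W, ?_, ?_, ⟨?_, ?_⟩, ?_⟩
  · intro v hv
    have := hmem v hv (d v) le_rfl
    rwa [(hp v hv).2.1] at this
  · intro w hw
    rw [Finset.mem_coe, hW, Finset.mem_biUnion] at hw
    obtain ⟨v, hv, hw⟩ := hw
    obtain ⟨i, hi, rfl⟩ := Finset.mem_image.mp hw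
    exact (hp v hv).2.2.1 i (by have := Finset.mem_range.mp hi; omega)
  · refine ⟨u0, ?_⟩
    have := hmem u0 hu0 0 (Nat.zero_le _)
    rwa [(hp u0 hu0).1] at this
  · intro a ha b hb
    rw [Finset.mem_coe, hW, Finset.mem_biUnion] at ha hb
    obtain ⟨v, hv, ha⟩ := ha
    obtain ⟨i, hi, rfl⟩ := Finset.mem_image.mp ha
    obtain ⟨v', hv', hb⟩ := hb
    obtain ⟨j, hj, rfl⟩ := Finset.mem_image.mp hb
    exact (hdown v hv i (by have := Finset.mem_range.mp hi; omega)).trans
      (hup v' hv' j (by have := Finset.mem_range.mp hj; omega))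
  · calc W.card ≤ ∑ v ∈ U, ((Finset.range (d v + 1)).image (p v)).card := Finset.card_biUnion_le
      _ ≤ ∑ _v ∈ U, n := by
          apply Finset.sum_le_sum
          intro v hv
          refine Finset.card_image_le.trans ?_
          rw [Finset.card_range]
          exact (hp v hv).2.2.2.2
      _ = U.card * n := by rw [Finset.sum_const, smul_eq_mul]

theorem small (n m : ℕ) : ∃ g : ℕ, ∀ (V : Type) (G : SimpleGraph V) (c : V → Bool) (D E : Set V),
    ¬ HasPath G n → Rich G c D m E →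
    ∃ W : Finset V, (W : Set V) ⊆ E ∧ W.card ≤ g ∧ Rich G c D m (W : Set V) := by
  classical
  refine ⟨(Fintype.card ((k : Fin (m + 1)) × ((Fin k.1 → Fin k.1 → Bool) × (Fin k.1 → Bool)))
    * m + 1) * n, ?_⟩
  intro V G c D E hn hE
  obtain ⟨v0, hv0⟩ := hE.1.1
  have key : ∀ P : (k : Fin (m + 1)) × ((Fin k.1 → Fin k.1 → Bool) × (Fin k.1 → Bool)),
      ∃ e : Fin P.1.1 → V, (∀ i, e i ∈ E) ∧
        ((∃ e0 : Fin P.1.1 → V, Function.Injective e0 ∧ (∀ i, e0 i ∈ E) ∧
          (∀ i j, G.Adj (e0 i) (e0 j) ↔ P.2.1 i j = true) ∧ ∀ i, c (e0 i) = P.2.2 i) →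
        (Function.Injective e ∧ (∀ i j, G.Adj (e i) (e j) ↔ P.2.1 i j = true) ∧
          ∀ i, c (e i) = P.2.2 i)) := by
    intro P
    by_cases h : ∃ e0 : Fin P.1.1 → V, Function.Injective e0 ∧ (∀ i, e0 i ∈ E) ∧
          (∀ i j, G.Adj (e0 i) (e0 j) ↔ P.2.1 i j = true) ∧ ∀ i, c (e0 i) = P.2.2 i
    · obtain ⟨e0, h1, h2, h3, h4⟩ := h
      exact ⟨e0, h2, fun _ => ⟨h1, h3, h4⟩⟩
    · exact ⟨fun _ => v0, fun _ => hv0, fun h' => absurd h' h⟩
  choose e heE he using key
  set U : Finset V := insert v0 (Finset.univ.biUnion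
    (fun P : (k : Fin (m + 1)) × ((Fin k.1 → Fin k.1 → Bool) × (Fin k.1 → Bool)) =>
      Finset.univ.image (e P))) with hU
  have hUE : (U : Set V) ⊆ E := by
    intro u hu
    rw [Finset.mem_coe, hU, Finset.mem_insert, Finset.mem_biUnion] at hu
    rcases hu with rfl | ⟨P, -, hu⟩
    · exact hv0
    · obtain ⟨i, -, rfl⟩ := Finset.mem_image.mp hu
      exact heE P i
  have hUc : U.card ≤
      Fintype.card ((k : Fin (m + 1)) × ((Fin k.1 → Fin k.1 → Bool) × (Fin k.1 → Bool)))
        * m + 1 := by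
    refine (Finset.card_insert_le _ _).trans (Nat.add_le_add_right ?_ 1)
    refine Finset.card_biUnion_le.trans ?_
    refine (Finset.sum_le_card_nsmul Finset.univ _ m ?_).trans ?_
    · intro P _
      refine Finset.card_image_le.trans ?_
      rw [Finset.card_univ, Fintype.card_fin]
      have := P.1.2
      omega
    · rw [smul_eq_mul, Finset.card_univ]
  obtain ⟨W, hUW, hWE, hWc, hWcard⟩ := connect hn hE.1 U ⟨v0, by
    rw [hU]; exact Finset.mem_insert_self _ _⟩ hUE
  refine ⟨W, hWE, hWcard.trans (Nat.mul_le_mul_right n hUc), hWc, ?_⟩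
  intro W0 hW0D hW0c b
  obtain ⟨f, hf, hfE⟩ := hE.2 W0 hW0D hW0c b
  -- the pattern of the copy
  let E0 : W0 ≃ Fin W0.card := W0.equivFin
  let P : (k : Fin (m + 1)) × ((Fin k.1 → Fin k.1 → Bool) × (Fin k.1 → Bool)) :=
    ⟨⟨W0.card, by omega⟩,
      (fun i j => decide (G.Adj (f (E0.symm i)) (f (E0.symm j)))),
      (fun i => c (f (E0.symm i)))⟩
  have hocc := he P ⟨fun i : Fin W0.card => f (E0.symm i), by
      intro i j hij
      have h1 := hf.inj (E0.symm i).2 (E0.symm j).2 hij
      exact E0.symm.injective (Subtype.ext h1), fun i => hfE (E0.symm i).2,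
      fun i j => (decide_eq_true_iff).symm, fun i => rfl⟩
  obtain ⟨ho1, ho2, ho3⟩ := hocc
  let e' : Fin W0.card → V := e P
  have ho1' : Function.Injective e' := ho1
  have ho2' : ∀ i j : Fin W0.card, G.Adj (e' i) (e' j) ↔
      G.Adj (f (E0.symm i)) (f (E0.symm j)) := by
    intro i j
    rw [show (G.Adj (e' i) (e' j) ↔ _) from ho2 i j]
    exact decide_eq_true_iff
  have ho3' : ∀ i : Fin W0.card, c (e' i) = c (f (E0.symm i)) := ho3
  have heW : ∀ i : Fin W0.card, e' i ∈ (W : Set V) := by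
    intro i
    apply hUW
    rw [hU]
    apply Finset.mem_insert_of_mem
    rw [Finset.mem_biUnion]
    exact ⟨P, Finset.mem_univ _, Finset.mem_image_of_mem _ (Finset.mem_univ _)⟩
  refine ⟨fun v => if h : v ∈ W0 then e' (E0 ⟨v, h⟩) else v, ⟨?_, ?_, ?_⟩, ?_⟩
  · intro u hu w hw huw
    have hu' : u ∈ W0 := hu
    have hw' : w ∈ W0 := hw
    simp only [hu', hw', dite_true] at huw
    have := E0.injective (ho1' huw)
    exact congrArg Subtype.val this
  · intro u hu w hw
    have hu' : u ∈ W0 := hu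
    have hw' : w ∈ W0 := hw
    simp only [hu', hw', dite_true]
    rw [ho2', Equiv.symm_apply_apply, Equiv.symm_apply_apply]
    exact hf.adj u hu w hw
  · intro u hu
    have hu' : u ∈ W0 := hu
    simp only [hu', dite_true]
    rw [ho3', Equiv.symm_apply_apply]
    exact hf.lab u hu
  · intro u hu
    have hu' : u ∈ W0 := hu
    simp only [hu', dite_true]
    exact heW _

end H24.Bip
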