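import Pool.Agent.H24.Bip.Cop
import Pool.Agent.H24.Bip.Small

/-!
Splitting rich sets, dominating vertices and the levels.
-/

namespace H24.Bip

open H7.Online

/-- rich sets split -/
theorem split (n m : ℕ) : ∃ R, m ≤ R ∧ ∀ (V : Type) (G : SimpleGraph V) (c : V → Bool) (s : ℕ)
    (D D1 D2 : Set V), ¬ HasPath G n → Ctx G c s D D1 D2 → m ≤ s → ∀ E, Rich G c D R E →
    ∃ E1 E2 : Set V, E1 ⊆ E ∧ E2 ⊆ E ∧ Anti G E1 E2 ∧ Rich G c D m E1 ∧ Rich G c D m E2 := by
  classical
  obtain ⟨g, hg⟩ := small n m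
  refine ⟨m + (g + g) * n, by omega, fun V G c s D D1 D2 hn hC hms E hE => ?_⟩
  obtain ⟨W1, h1, h2, h3⟩ := hg V G c D D1 hn (hC.rich1.le hms)
  obtain ⟨W2, k1, k2, k3⟩ := hg V G c D D2 hn (hC.rich2.le hms)
  obtain ⟨w, hw⟩ := h3.1.1
  obtain ⟨W, e1, e2, e3, e4⟩ := connect hn hC.conn (W1 ∪ W2) ⟨w, Finset.mem_union_left _ hw⟩ (by
    rw [Finset.coe_union]
    exact Set.union_subset (h1.trans hC.sub1) (k1.trans hC.sub2))
  have hcard : W.card ≤ m + (g + g) * n := by
    have : (W1 ∪ W2).card ≤ g + g := (Finset.card_union_le _ _).trans (by omega)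
    calc W.card ≤ (W1 ∪ W2).card * n := e4
      _ ≤ (g + g) * n := Nat.mul_le_mul_right _ this
      _ ≤ _ := by omega
  obtain ⟨f, f1, f2⟩ := hE.2 W e2 hcard false
  have s1 : (W1 : Set V) ⊆ W := fun u hu => e1 (Finset.mem_union_left _ hu)
  have s2 : (W2 : Set V) ⊆ W := fun u hu => e1 (Finset.mem_union_right _ hu)
  refine ⟨f '' W1, f '' W2, ?_, ?_, ?_, h3.image (f1.mono s1), k3.image (f1.mono s2)⟩
  · rintro _ ⟨u, hu, rfl⟩
    exact f2 (s1 hu)
  · rintro _ ⟨u, hu, rfl⟩
    exact f2 (s2 hu)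
  · exact anti_image f1 s1 s2 (hC.anti.mono h1 k1)

/-- many separate rich sets -/
theorem splitN (n m N : ℕ) : ∃ R, m ≤ R ∧ ∀ (V : Type) (G : SimpleGraph V) (c : V → Bool) (s : ℕ)
    (D D1 D2 : Set V), ¬ HasPath G n → Ctx G c s D D1 D2 → R ≤ s → ∀ E, Rich G c D R E →
    ∃ F : ℕ → Set V, (∀ i < N, F i ⊆ E ∧ Rich G c D m (F i)) ∧
      ∀ i < N, ∀ j < N, i ≠ j → Anti G (F i) (F j) := by
  induction N with
  | zero =>
    refine ⟨m, le_rfl, fun V G c s D D1 D2 hn hC hs E hE => ⟨fun _ => E, by simp, by simp⟩⟩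
  | succ N ih =>
    obtain ⟨R, hR1, hR2⟩ := ih
    obtain ⟨R', hR1', hR2'⟩ := split n R
    refine ⟨R', by omega, fun V G c s D D1 D2 hn hC hs E hE => ?_⟩
    obtain ⟨E1, E2, e1, e2, e3, e4, e5⟩ := hR2' V G c s D D1 D2 hn hC (by omega) E hE
    obtain ⟨F, hF1, hF2⟩ := hR2 V G c s D D1 D2 hn hC (by omega) E1 e4
    refine ⟨fun i => if i < N then F i else E2, ?_, ?_⟩
    · intro i hi
      by_cases h : i < N
      · simp only [if_pos h]
        exact ⟨(hF1 i h).1.trans e1, (hF1 i h).2⟩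
      · simp only [if_neg h]
        exact ⟨e2, e5.le hR1⟩
    · intro i hi j hj hij
      by_cases h : i < N
      · by_cases h' : j < N
        · simp only [if_pos h, if_pos h']
          exact hF2 i h j h' hij
        · simp only [if_pos h, if_neg h']
          exact e3.mono (hF1 i h).1 subset_rfl
      · by_cases h' : j < N
        · simp only [if_neg h, if_pos h']
          exact e3.symm.mono subset_rfl (hF1 j h').1
        · omega

/-- dominating vertices -/
theorem dominate (n a : ℕ) (F : ℕ → ℕ) : ∃ R, ∀ (V : Type) (G : SimpleGraph V) (c : V → Bool)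
    (s : ℕ) (D D1 D2 : Set V), ¬ HasPath G n → Ctx G c s D D1 D2 → R ≤ s →
    ∃ r, a ≤ r ∧ r ≤ R ∧ ∃ x ∈ D, ∃ D' ⊆ D, x ∉ D' ∧ Rich G c D (F r) D' ∧
      ∀ O ⊆ D', Rich G c D r O → Touch G x O := by
  let t : ℕ → ℕ := fun i => Nat.rec a (fun _ r => max r (F r)) i
  have ht : ∀ i, t (i + 1) = max (t i) (F (t i)) := fun i => rfl
  have hmono : Monotone t := monotone_nat_of_le_succ (fun i => by rw [ht]; exact le_max_left _ _)
  refine ⟨t n, fun V G c s D D1 D2 hn hC hs => ?_⟩
  by_contra hcon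
  push Not at hcon
  apply hn
  have claim : ∀ i ≤ n, ∀ x ∈ D, ∀ D' ⊆ D, x ∉ D' → Touch G x D' → Rich G c D (t i) D' →
      Pth G i x D' := by
    intro i
    induction i with
    | zero => intro _ x _ D' _ _ _ _; trivial
    | succ i ih =>
      intro hi x hx D' hD' hxD' hxt hr
      obtain ⟨O, hO, hOr, hxO⟩ := hcon (t i) (hmono (Nat.zero_le i)) (hmono (by omega)) x hx D' hD'
        hxD' (hr.le (by rw [ht]; exact le_max_right _ _))
      obtain ⟨w, hw, hxw, C, hC', hwC, hwt, hCr, hxC⟩ := step_of (Pp := Rich G c D (t i))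
        (fun s h => h.conn) (fun s s' h h1 h2 => h.mono h1 h2) hr.conn hxt hO hOr hxO
      refine ⟨w, hw, hxw, C, hC', ?_, ih (by omega) w (hD' hw) C (hC'.trans hD') hwC hwt hCr⟩
      intro z hz
      exact ⟨fun h => hxD' (h ▸ hC' hz), fun h => hxC ⟨z, hz, h⟩⟩
  obtain ⟨d, hd⟩ := hC.rich2.conn.1
  obtain ⟨x, hxD, hxD1, z, hz, hxz⟩ := boundary hC.conn hC.rich1.conn.1 hC.sub1 (hC.sub2 hd)
    (fun h => (hC.anti d h d hd).1 rfl)
  exact (claim n le_rfl x hxD D1 hC.sub1 hxD1 ⟨z, hz, hxz⟩ (hC.rich1.le hs)).hasPath (by omega)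

/-- dominating vertices of finite rich sets -/
theorem dominate_fin (n a : ℕ) (F : ℕ → ℕ) : ∃ R, ∀ (V : Type) (G : SimpleGraph V)
    (c : V → Bool) (s : ℕ) (D D1 D2 : Set V), ¬ HasPath G n → Ctx G c s D D1 D2 → R ≤ s →
    ∃ r, a ≤ r ∧ r ≤ R ∧ ∃ x ∈ D, ∃ W : Finset V, (W : Set V) ⊆ D ∧ x ∉ W ∧ W.card + 1 ≤ R ∧
      Rich G c D (F r) (W : Set V) ∧ ∀ O ⊆ (W : Set V), Rich G c D r O → Touch G x O := by
  obtain ⟨R, hR⟩ := dominate n a F
  choose g hg using fun m => small n m
  refine ⟨R + (∑ r ∈ Finset.range (R + 1), g (F r)) + 1, fun V G c s D D1 D2 hn hC hs => ?_⟩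
  obtain ⟨r, h1, h2, x, hx, D', hD', hxD', hr, hd⟩ := hR V G c s D D1 D2 hn hC (by omega)
  obtain ⟨W, e1, e2, e3⟩ := hg (F r) V G c D D' hn hr
  have hle : g (F r) ≤ ∑ r ∈ Finset.range (R + 1), g (F r) :=
    Finset.single_le_sum (f := fun r => g (F r)) (fun _ _ => Nat.zero_le _)
      (Finset.mem_range.mpr (by omega))
  exact ⟨r, h1, by omega, x, hx, W, e1.trans hD', fun h => hxD' (e1 h), by omega, e3,
    fun O hO hr => hd O (hO.trans e1) hr⟩

/-- a sequence of levels -/
structure Levels {V : Type} (G : SimpleGraph V) (c : V → Bool) (D : Set V) (Φ : ℕ → ℕ) (L : ℕ)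
    (r : ℕ) (q : ℕ → ℕ) (x : ℕ → V) (W : ℕ → Finset V) (O : Finset V) : Prop where
  anti : ∀ i < L, q (i + 1) ≤ q i
  xD : ∀ i < L, x i ∈ D
  WD : ∀ i < L, (W i : Set V) ⊆ D
  xW : ∀ i < L, x i ∉ W i
  card : ∀ i < L, (W i).card + 1 ≤ q i
  rich : ∀ i < L, Rich G c D (Φ (q (i + 1))) (W i : Set V)
  dom : ∀ i < L, ∀ E ⊆ (W i : Set V), Rich G c D r E → Touch G (x i) E
  OD : (O : Set V) ⊆ D
  richO : Rich G c D r (O : Set V)
  cardO : O.card ≤ q L

theorem levels (n : ℕ) (Φ : ℕ → ℕ) (hΦ : Monotone Φ) : ∀ L a : ℕ, ∃ R, ∀ (V : Type)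
    (G : SimpleGraph V) (c : V → Bool) (s : ℕ) (D D1 D2 : Set V), ¬ HasPath G n →
    Ctx G c s D D1 D2 → R ≤ s → ∃ (r : ℕ) (q : ℕ → ℕ) (x : ℕ → V) (W : ℕ → Finset V)
      (O : Finset V), a ≤ r ∧ q 0 ≤ R ∧ Levels G c D Φ L r q x W O := by
  intro L
  induction L with
  | zero =>
    intro a
    obtain ⟨g, hg⟩ := small n a
    refine ⟨a + g, fun V G c s D D1 D2 hn hC hs => ?_⟩
    obtain ⟨O, h1, h2, h3⟩ := hg V G c D D1 hn (hC.rich1.le (by omega))
    obtain ⟨d, _⟩ := hC.conn.1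
    exact ⟨a, fun _ => g, fun _ => d, fun _ => ∅, O, le_rfl, by simp,
      ⟨by simp, by simp, by simp, by simp, by simp, by simp, by simp, h1.trans hC.sub1, h3, h2⟩⟩
  | succ L ih =>
    intro a
    choose RL hRL using ih
    obtain ⟨R0, hR0⟩ := dominate_fin n a (fun r => Φ (RL r))
    refine ⟨R0 + ∑ r ∈ Finset.range (R0 + 1), RL r, fun V G c s D D1 D2 hn hC hs => ?_⟩
    obtain ⟨r0, h1, h2, x0, hx0, W0, hW0, hxW0, hcard0, hrich0, hdom0⟩ :=
      hR0 V G c s D D1 D2 hn hC (by omega)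
    have hle : RL r0 ≤ ∑ r ∈ Finset.range (R0 + 1), RL r :=
      Finset.single_le_sum (f := fun r => RL r) (fun _ _ => Nat.zero_le _)
        (Finset.mem_range.mpr (by omega))
    obtain ⟨r, q, x, W, O, hr, hq, hLv⟩ := hRL r0 V G c s D D1 D2 hn hC (by omega)
    refine ⟨r, fun i => if i = 0 then R0 + ∑ r ∈ Finset.range (R0 + 1), RL r else q (i - 1),
      fun i => if i = 0 then x0 else x (i - 1), fun i => if i = 0 then W0 else W (i - 1), O,
      by omega, by simp, ?_⟩
    constructor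
    · intro i hi
      by_cases h : i = 0
      · subst h
        simp only [if_true, Nat.zero_add, one_ne_zero, if_false, Nat.sub_self]
        omega
      · simp only [h, if_false, Nat.add_eq_zero_iff, one_ne_zero, and_false, Nat.add_sub_cancel]
        have := hLv.anti (i - 1) (by omega)
        rwa [show i - 1 + 1 = i by omega] at this
    · intro i hi
      by_cases h : i = 0
      · simp only [h, if_true]; exact hx0
      · simp only [h, if_false]; exact hLv.xD _ (by omega)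
    · intro i hi
      by_cases h : i = 0
      · simp only [h, if_true]; exact hW0
      · simp only [h, if_false]; exact hLv.WD _ (by omega)
    · intro i hi
      by_cases h : i = 0
      · simp only [h, if_true]; exact hxW0
      · simp only [h, if_false]; exact hLv.xW _ (by omega)
    · intro i hi
      by_cases h : i = 0
      · simp only [h, if_true]; omega
      · simp only [h, if_false]; exact hLv.card _ (by omega)
    · intro i hi
      by_cases h : i = 0
      · subst h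
        simp only [if_true, Nat.zero_add, one_ne_zero, if_false, Nat.sub_self]
        exact hrich0.le (hΦ hq)
      · simp only [h, if_false, Nat.add_eq_zero_iff, one_ne_zero, and_false, Nat.add_sub_cancel]
        have := hLv.rich (i - 1) (by omega)
        rwa [show i - 1 + 1 = i by omega] at this
    · intro i hi
      by_cases h : i = 0
      · simp only [h, if_true]
        exact fun E hE hEr => hdom0 E hE (hEr.le hr)
      · simp only [h, if_false]; exact hLv.dom _ (by omega)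
    · exact hLv.OD
    · exact hLv.richO
    · simp only [Nat.add_eq_zero_iff, one_ne_zero, and_false, if_false, Nat.add_sub_cancel]
      exact hLv.cardO

/-- passing to a subsequence of the levels -/
theorem Levels.sub {V : Type} {G : SimpleGraph V} {c : V → Bool} {D : Set V} {Φ : ℕ → ℕ}
    (hΦ : Monotone Φ) {L r : ℕ} {q : ℕ → ℕ} {x : ℕ → V} {W : ℕ → Finset V} {O : Finset V}
    (h : Levels G c D Φ L r q x W O) {M : ℕ} {ι : ℕ → ℕ} (hι : ∀ i j, i < j → j < M → ι i < ι j)
    (hL : ∀ j < M, ι j < L) :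
    Levels G c D Φ M r (fun j => if j < M then q (ι j) else q L) (fun j => x (ι j))
      (fun j => W (ι j)) O := by
  have hq : ∀ j ≤ L, ∀ i ≤ j, q j ≤ q i := by
    intro j
    induction j with
    | zero =>
      intro _ i hi
      have : i = 0 := by omega
      rw [this]
    | succ j ih =>
      intro hj i hi
      by_cases h' : i = j + 1
      · rw [h']
      · exact (h.anti j (by omega)).trans (ih (by omega) i (by omega))
  have hq' : ∀ j < M, (if j + 1 < M then q (ι (j + 1)) else q L) ≤ q (ι j + 1) := by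
    intro j hj
    have h1 := hL j hj
    by_cases h' : j + 1 < M
    · rw [if_pos h']
      have h2 := hι j (j + 1) (by omega) h'
      have h3 := hL (j + 1) h'
      exact hq _ (by omega) _ (by omega)
    · rw [if_neg h']
      exact hq _ le_rfl _ (by omega)
  constructor
  · intro i hi
    rw [if_pos hi]
    exact (hq' i hi).trans (h.anti _ (hL i hi))
  · intro i hi; exact h.xD _ (hL i hi)
  · intro i hi; exact h.WD _ (hL i hi)
  · intro i hi; exact h.xW _ (hL i hi)
  · intro i hi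
    rw [if_pos hi]
    exact h.card _ (hL i hi)
  · intro i hi
    exact (h.rich _ (hL i hi)).le (hΦ (hq' i hi))
  · intro i hi; exact h.dom _ (hL i hi)
  · exact h.OD
  · exact h.richO
  · rw [if_neg (lt_irrefl M)]
    exact h.cardO

end H24.Bip
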