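import Pool.Agent.H24.Bip.Att

/-!
Extraction: a deep tree of nodes gives a reproducing pointed set or a double laminar graph.
-/

namespace H24.Bip

open H7.Online

/-- the part of a path between the last neighbour of `xe` and the next neighbour of `ye` -/
private theorem ext_leaf {V : Type} {G : SimpleGraph V} {c : V → Bool} {D O : Set V} {xe ye : V}
    (hprop : ∀ u ∈ D, ∀ v ∈ D, G.Adj u v → c u ≠ c v) (hxD : xe ∈ D) (hyD : ye ∈ D)
    (hcx : c xe = true) (hcy : c ye = false) (hOD : O ⊆ D) {d : ℕ} {q : ℕ → V}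
    (hqO : ∀ i ≤ d, q i ∈ O)
    (hqa : ∀ i ≤ d, ∀ j ≤ d, (G.Adj (q i) (q j) ↔ (i + 1 = j ∨ j + 1 = i)))
    (hx : G.Adj xe (q 0)) (hy : G.Adj ye (q d)) :
    ∃ i0 j0 : ℕ, i0 < j0 ∧ j0 ≤ d ∧ Odd (j0 - i0) ∧
      (∀ i, i0 ≤ i → i ≤ j0 → (G.Adj xe (q i) ↔ i = i0)) ∧
      (∀ i, i0 ≤ i → i ≤ j0 → (G.Adj ye (q i) ↔ i = j0)) := by
  classical
  have hxl : ∀ i ≤ d, G.Adj xe (q i) → c (q i) = false := by
    intro i hi h
    have h1 := hprop xe hxD (q i) (hOD (hqO i hi)) h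
    rw [hcx] at h1
    cases hc : c (q i) with
    | false => rfl
    | true => exact absurd hc.symm h1
  have hyl : ∀ i ≤ d, G.Adj ye (q i) → c (q i) = true := by
    intro i hi h
    have h1 := hprop ye hyD (q i) (hOD (hqO i hi)) h
    rw [hcy] at h1
    cases hc : c (q i) with
    | true => rfl
    | false => exact absurd hc.symm h1
  set i0 := Nat.findGreatest (fun i => G.Adj xe (q i)) d with hi0
  have h1 : G.Adj xe (q i0) :=
    Nat.findGreatest_spec (P := fun i => G.Adj xe (q i)) (Nat.zero_le d) hx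
  have h2 : i0 ≤ d := Nat.findGreatest_le d
  have h3 : ∀ i, i0 < i → i ≤ d → ¬ G.Adj xe (q i) := fun i hi hid =>
    Nat.findGreatest_is_greatest hi hid
  have h4 : i0 ≠ d := by
    intro h
    have h5 := hxl i0 h2 h1
    rw [h, hyl d (le_refl d) hy] at h5
    exact Bool.noConfusion h5
  have hex : ∃ j, i0 < j ∧ j ≤ d ∧ G.Adj ye (q j) := ⟨d, by omega, le_refl d, hy⟩
  obtain ⟨h5, h6, h7⟩ := Nat.find_spec hex
  have h8 : ∀ j, i0 < j → j < Nat.find hex → ¬ G.Adj ye (q j) := by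
    intro j hj hj2 hadj
    exact Nat.find_min hex hj2 ⟨hj, by omega, hadj⟩
  have hlab : ∀ m, i0 + m ≤ d → (c (q (i0 + m)) = true ↔ Odd m) := by
    intro m
    induction m with
    | zero =>
      intro _
      rw [Nat.add_zero, hxl i0 h2 h1]
      simp
    | succ m ih =>
      intro hm
      have h9 := ih (by omega)
      have h10 := hprop _ (hOD (hqO (i0 + m) (by omega))) _ (hOD (hqO (i0 + (m + 1)) hm))
        ((hqa (i0 + m) (by omega) (i0 + (m + 1)) hm).mpr (Or.inl (by omega)))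
      rw [Nat.odd_add_one, ← h9]
      cases hc1 : c (q (i0 + m)) <;> cases hc2 : c (q (i0 + (m + 1))) <;> simp_all
  refine ⟨i0, Nat.find hex, h5, h6, ?_, ?_, ?_⟩
  · rw [← hlab (Nat.find hex - i0) (by omega)]
    have h11 : i0 + (Nat.find hex - i0) = Nat.find hex := by omega
    rw [h11]
    exact hyl _ h6 h7
  · intro i hi1 hi2
    constructor
    · intro h
      by_contra hcon
      exact h3 i (by omega) (by omega) h
    · rintro rfl
      exact h1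
  · intro i hi1 hi2
    constructor
    · intro h
      by_contra hcon
      rcases Nat.lt_or_ge i0 i with h9 | h9
      · exact h8 i h9 (by omega) h
      · have h10 : i = i0 := le_antisymm h9 hi1
        have h11 := hyl i (by omega) h
        rw [h10, hxl i0 h2 h1] at h11
        exact Bool.noConfusion h11
    · intro h
      rw [h]
      exact h7

private theorem ext_root {P : Type} {lt sep : P → P → Prop} {N : ℕ} {Pr : List P → Prop} {v : P}
    (h : TT lt sep N Pr v) : Pr [v] := by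
  cases N with
  | zero => exact h
  | succ N => exact h.1

private theorem ext_step {P : Type} {lt sep : P → P → Prop} {N : ℕ} {Pr : List P → Prop}
    {anc : List P} {v : P}
    (h : TT lt sep (N + 1) (fun l => ∀ s : List P, s.Sublist anc → Pr (s ++ l)) v) :
    ∃ u1 u2, lt u1 v ∧ lt u2 v ∧ sep u1 u2 ∧
      TT lt sep N (fun l => ∀ s : List P, s.Sublist (anc ++ [v]) → Pr (s ++ l)) u1 ∧
      TT lt sep N (fun l => ∀ s : List P, s.Sublist (anc ++ [v]) → Pr (s ++ l)) u2 := by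
  obtain ⟨-, u1, u2, h1, h2, h3, h4, h5⟩ := h
  have key : ∀ l : List P, ((∀ s : List P, s.Sublist anc → Pr (s ++ l)) ∧
      (∀ s : List P, s.Sublist anc → Pr (s ++ (v :: l)))) →
      ∀ s : List P, s.Sublist (anc ++ [v]) → Pr (s ++ l) := by
    rintro l ⟨h6, h7⟩ s hs
    obtain ⟨s1, s2, rfl, hs1, hs2⟩ := List.sublist_append_iff.mp hs
    rcases List.sublist_cons_iff.mp hs2 with h8 | ⟨r, rfl, h8⟩
    · rw [List.sublist_nil.mp h8, List.append_nil]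
      exact h6 s1 hs1
    · rw [List.sublist_nil.mp h8, List.append_assoc]
      exact h7 s1 hs1
  exact ⟨u1, u2, h1, h2, h3, h4.mono key, h5.mono key⟩

/-- the construction of the double laminar graphs -/
private theorem ext_build {V : Type} {G : SimpleGraph V} {c : V → Bool} {D : Set V}
    {Rc : Set V → Prop} {KP : Set V → V → Prop}
    (hprop : ∀ u ∈ D, ∀ v ∈ D, G.Adj u v → c u ≠ c v)
    (Q : Nd G c D Rc KP → Nd G c D Rc KP → Nd G c D Rc KP → Nd G c D Rc KP →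
      Nd G c D Rc KP → ℕ → V) (l : ℕ) (Pr : List (Nd G c D Rc KP) → Prop)
    (h2 : ∀ u v, Pr [u, v] → ¬ G.Adj u.x v.y ∧ ¬ G.Adj u.y v.x)
    (h6 : ∀ t1 t2 e b1 b2 w, Pr [t1, t2, e, b1, b2, w] →
      (∀ i ≤ l, Q t1 t2 b1 b2 w i ∈ w.O) ∧
      (∀ i ≤ l, ∀ j ≤ l, Q t1 t2 b1 b2 w i = Q t1 t2 b1 b2 w j → i = j) ∧
      (∀ i ≤ l, ∀ j ≤ l, (G.Adj (Q t1 t2 b1 b2 w i) (Q t1 t2 b1 b2 w j) ↔
        (i + 1 = j ∨ j + 1 = i))) ∧
      (∀ i ≤ l, (G.Adj e.x (Q t1 t2 b1 b2 w i) ↔ i = 0)) ∧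
      (∀ i ≤ l, (G.Adj e.y (Q t1 t2 b1 b2 w i) ↔ i = l))) :
    ∀ (dd : ℕ) (t1 t2 : Nd G c D Rc KP) (mid : List (Nd G c D Rc KP)) (v : Nd G c D Rc KP),
      mid ≠ [] → TT Nd.lt Nd.sep (2 * dd + 2)
        (fun m => ∀ s : List (Nd G c D Rc KP), s.Sublist (t1 :: t2 :: mid) → Pr (s ++ m)) v →
      ∃ E A B : Set V, DLam G l dd E A B ∧ A ⊆ E ∧ B ⊆ E ∧ E ⊆ insert v.x v.X ∧
        ∀ e ∈ mid, ∀ z ∈ E, (G.Adj e.x z ↔ z ∈ A) ∧ (G.Adj e.y z ↔ z ∈ B) := by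
  have hsub : ∀ u v : Nd G c D Rc KP, Nd.lt u v → insert u.x u.X ⊆ insert v.x v.X :=
    fun u v h t ht => Set.mem_insert_of_mem _ (v.YX (h.1 ht))
  have hxx : ∀ u v : Nd G c D Rc KP, ¬ G.Adj u.x v.x := fun u v h =>
    hprop _ u.xD _ v.xD h (by rw [u.cx, v.cx])
  have hyy : ∀ u v : Nd G c D Rc KP, ¬ G.Adj u.y v.y := fun u v h =>
    hprop _ (u.XD u.yX) _ (v.XD v.yX) h (by rw [u.cy, v.cy])
  intro dd
  induction dd with
  | zero =>
    intro t1 t2 mid v hmid hT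
    obtain ⟨b2, -, hb2, -, -, hT2, -⟩ := ext_step hT
    obtain ⟨w, -, hw, -, -, hT3, -⟩ := ext_step hT2
    have hP : ∀ e ∈ mid, Pr [t1, t2, e, v, b2, w] := by
      intro e he
      have h3 := ext_root hT3 [t1, t2, e, v, b2] (by
        have h4 : [e].Sublist mid := List.singleton_sublist.mpr he
        have h5 : ([e] ++ [v] ++ [b2]).Sublist (mid ++ [v] ++ [b2]) :=
          (h4.append (List.Sublist.refl _)).append (List.Sublist.refl _)
        have h7 := (h5.cons_cons t2).cons_cons t1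
        simpa using h7)
      simpa using h3
    obtain ⟨e0, he0⟩ := List.exists_mem_of_ne_nil mid hmid
    obtain ⟨a1, a2, a3, -, -⟩ := h6 _ _ _ _ _ _ (hP e0 he0)
    refine ⟨Set.range (fun i : Fin (l + 1) => Q t1 t2 v b2 w i), {Q t1 t2 v b2 w 0},
      {Q t1 t2 v b2 w l}, ?_, ?_, ?_, ?_, ?_⟩
    · refine ⟨fun i => Q t1 t2 v b2 w i, ?_, ?_, rfl, ?_, ?_⟩
      · intro i j hij
        exact Fin.ext (a2 i (by omega) j (by omega) hij)
      · intro i j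
        exact a3 i (by omega) j (by omega)
      · simp
      · simp
    · rintro z rfl
      exact ⟨0, by simp⟩
    · rintro z rfl
      exact ⟨Fin.last l, by simp⟩
    · rintro z ⟨i, rfl⟩
      have h3 : Q t1 t2 v b2 w i ∈ insert w.x w.X :=
        Set.mem_insert_of_mem _ (w.YX (w.OY (a1 i (by omega))))
      exact hsub _ _ hb2 (hsub _ _ hw h3)
    · rintro e he z ⟨i, rfl⟩
      obtain ⟨-, -, -, a4, a5⟩ := h6 _ _ _ _ _ _ (hP e he)
      have hi : (i : ℕ) ≤ l := by omega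
      refine ⟨?_, ?_⟩
      · rw [Set.mem_singleton_iff]
        refine (a4 i hi).trans ⟨fun h => ?_, fun h => ?_⟩
        · change Q t1 t2 v b2 w i = _
          rw [h]
        · exact a2 i hi 0 (Nat.zero_le _) h
      · rw [Set.mem_singleton_iff]
        refine (a5 i hi).trans ⟨fun h => ?_, fun h => ?_⟩
        · change Q t1 t2 v b2 w i = _
          rw [h]
        · exact a2 i hi l (le_refl _) h
  | succ dd ih =>
    intro t1 t2 mid v hmid hT
    have hPv : ∀ e ∈ mid, Pr [e, v] := by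
      intro e he
      have h3 := ext_root hT [e] (by
        refine List.singleton_sublist.mpr ?_
        exact List.mem_cons_of_mem _ (List.mem_cons_of_mem _ he))
      simpa using h3
    have hT' : TT Nd.lt Nd.sep (2 * dd + 2 + 1 + 1)
        (fun m => ∀ s : List (Nd G c D Rc KP), s.Sublist (t1 :: t2 :: mid) → Pr (s ++ m)) v := hT
    obtain ⟨u, -, hu, -, -, hT2, -⟩ := ext_step hT'
    have hPu : ∀ e ∈ mid ++ [v], Pr [e, u] := by
      intro e he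
      have h3 := ext_root hT2 [e] (by
        refine List.singleton_sublist.mpr ?_
        exact List.mem_cons_of_mem _ (List.mem_cons_of_mem _ he))
      simpa using h3
    obtain ⟨w1, w2, hw1, hw2, hsep, hT3, hT4⟩ := ext_step hT2
    have hlist : t1 :: t2 :: mid ++ [v] ++ [u] = t1 :: t2 :: (mid ++ [v, u]) := by simp
    rw [hlist] at hT3 hT4
    obtain ⟨E1, A1, B1, d1, c1, c1', s1, f1⟩ := ih t1 t2 (mid ++ [v, u]) w1 (by simp) hT3
    obtain ⟨E2, A2, B2, d2, c2, c2', s2, f2⟩ := ih t1 t2 (mid ++ [v, u]) w2 (by simp) hT4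
    have hE1 : E1 ⊆ u.Y := fun t ht => hw1.1 (s1 ht)
    have hE2 : E2 ⊆ u.Y := fun t ht => hw2.1 (s2 ht)
    have hE : ∀ t ∈ E1 ∪ E2, t ∈ u.Y := by
      rintro t (ht | ht)
      · exact hE1 ht
      · exact hE2 ht
    have huv : insert u.x u.X ⊆ v.X := fun t ht => v.YX (hu.1 ht)
    have hanti : Anti G E1 E2 := fun s hs t ht => hsep s (s1 hs) t (s2 ht)
    have hxE : v.x ∉ E1 ∪ E2 := fun h =>
      v.xX (huv (Set.mem_insert_of_mem _ (u.YX (hE _ h))))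
    have hyE : u.y ∉ E1 ∪ E2 := fun h => u.yY (hE _ h)
    have hA : A1 ∪ A2 ⊆ E1 ∪ E2 := Set.union_subset_union c1 c2
    have hB : B1 ∪ B2 ⊆ E1 ∪ E2 := Set.union_subset_union c1' c2'
    have hall : ∀ e ∈ mid ++ [v, u], ∀ z ∈ E1 ∪ E2,
        (G.Adj e.x z ↔ z ∈ A1 ∪ A2) ∧ (G.Adj e.y z ↔ z ∈ B1 ∪ B2) := by
      intro e he z hz
      rcases hz with hz | hz
      · have h3 := f1 e he z hz
        have h4 : z ∉ E2 := fun h => (hanti z hz z h).1 rfl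
        have h5 : z ∉ A2 := fun h => h4 (c2 h)
        have h7 : z ∉ B2 := fun h => h4 (c2' h)
        refine ⟨h3.1.trans ?_, h3.2.trans ?_⟩
        · simp [h5]
        · simp [h7]
      · have h3 := f2 e he z hz
        have h4 : z ∉ E1 := fun h => (hanti z h z hz).1 rfl
        have h5 : z ∉ A1 := fun h => h4 (c1 h)
        have h7 : z ∉ B1 := fun h => h4 (c1' h)
        refine ⟨h3.1.trans ?_, h3.2.trans ?_⟩
        · simp [h5]
        · simp [h7]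
    refine ⟨insert v.x (insert u.y (E1 ∪ E2)), A1 ∪ A2, B1 ∪ B2, ?_, ?_, ?_, ?_, ?_⟩
    · refine ⟨v.x, u.y, E1, A1, B1, E2, A2, B2, d1, d2, hanti, hxE, hyE, ?_, ?_, ?_, ?_, rfl,
        rfl, rfl⟩
      · intro h
        exact v.xX (by rw [h]; exact huv (Set.mem_insert_of_mem _ u.yX))
      · exact (h2 v u (hPu v (by simp))).1
      · exact fun z hz => (hall v (by simp) z hz).1
      · exact fun z hz => (hall u (by simp) z hz).2
    · exact fun t ht => Set.mem_insert_of_mem _ (Set.mem_insert_of_mem _ (hA ht))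
    · exact fun t ht => Set.mem_insert_of_mem _ (Set.mem_insert_of_mem _ (hB ht))
    · rintro t (rfl | rfl | ht)
      · exact Set.mem_insert _ _
      · exact Set.mem_insert_of_mem _ (huv (Set.mem_insert_of_mem _ u.yX))
      · exact Set.mem_insert_of_mem _ (huv (Set.mem_insert_of_mem _ (u.YX (hE _ ht))))
    · rintro e he z (rfl | rfl | hz)
      · refine ⟨⟨fun h => absurd h (hxx _ _), fun h => absurd (hA h) hxE⟩,
          ⟨fun h => absurd h (h2 e v (hPv e he)).2, fun h => absurd (hB h) hxE⟩⟩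
      · refine ⟨⟨fun h => absurd h (h2 e u (hPu e (by simp [he]))).1,
          fun h => absurd (hA h) hyE⟩, ⟨fun h => absurd h (hyy _ _), fun h => absurd (hB h) hyE⟩⟩
      · exact hall e (by simp [he]) z hz

theorem extract (n d k : ℕ) : ∃ M : ℕ, ∀ (V : Type) (G : SimpleGraph V) (c : V → Bool) (D : Set V)
    (Rc : Set V → Prop) (KP : Set V → V → Prop),
    (∀ u ∈ D, ∀ v ∈ D, G.Adj u v → c u ≠ c v) → ¬ HasPath G n →
    ∀ v : Nd G c D Rc KP, TT Nd.lt Nd.sep M (fun _ => True) v →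
      (∃ (z : V) (Z : Set V) (zs : ℕ → V) (Zs : ℕ → Set V), z ∈ Z ∧ KP Z z ∧
        (∀ i < k, Zs i ⊆ Z ∧ z ∉ Zs i ∧ zs i ∈ Zs i ∧ G.Adj z (zs i) ∧ KP (Zs i) (zs i)) ∧
        ∀ i < k, ∀ j < k, i ≠ j → Anti G (Zs i) (Zs j)) ∨
      ∃ (l : ℕ) (E A B : Set V), Odd l ∧ DLam G l d E A B := by
  classical
  obtain ⟨M4, hM4⟩ := ramsey_tree (C := Fin (n + 1) × Fin (n + 1)) 6 (2 * d + 5)
  obtain ⟨M3, hM3⟩ := ramsey_tree (C := Prop × Prop) 2 (max k M4)
  obtain ⟨M2, hM2⟩ := attach n M3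
  obtain ⟨M1, hM1⟩ := attach n M2
  refine ⟨M1, fun V G c D Rc KP hprop hnp v hv => ?_⟩
  obtain ⟨a, u1, -, hT1⟩ := hM1 V G c D Rc KP hprop hnp Nd.x (Or.inl rfl) _ v hv
  obtain ⟨b, u2, -, hT2⟩ := hM2 V G c D Rc KP hprop hnp Nd.y (Or.inr rfl) _ u1 hT1
  obtain ⟨κ, u3, -, hT3⟩ := hM3 _ Nd.lt Nd.sep att_trans att_sep att_symm _
    (fun l => (G.Adj (l.getD 0 v).x (l.getD 1 v).y, G.Adj (l.getD 0 v).y (l.getD 1 v).x)) u2 hT2
  by_cases hk1 : κ.1
  · left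
    obtain ⟨w, hw1, hw2⟩ := (hT3.le (le_max_left _ _)).comb att_trans att_sep att_symm
    refine ⟨u3.x, insert u3.x u3.X, fun i => (w i).y, fun i => insert (w i).y (w i).Y,
      Set.mem_insert _ _, u3.kx, ?_, ?_⟩
    · intro i hi
      obtain ⟨h1, -, -, h2⟩ := hw1 i hi
      have h3 := congrArg Prod.fst (h2 rfl)
      have h4 : insert (w i).y (w i).Y ⊆ u3.X := by
        rintro t (rfl | ht)
        · exact u3.YX (h1.1 (Set.mem_insert_of_mem _ (w i).yX))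
        · exact u3.YX (h1.1 (Set.mem_insert_of_mem _ ((w i).YX ht)))
      refine ⟨fun t ht => Set.mem_insert_of_mem _ (h4 ht), fun h => u3.xX (h4 h),
        Set.mem_insert _ _, ?_, (w i).ky⟩
      have h5 : G.Adj u3.x (w i).y = κ.1 := h3
      rw [h5]
      exact hk1
    · intro i hi j hj hij s hs t ht
      have hsub : ∀ r : Nd G c D Rc KP, insert r.y r.Y ⊆ insert r.x r.X := by
        rintro r t (rfl | ht)
        · exact Set.mem_insert_of_mem _ r.yX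
        · exact Set.mem_insert_of_mem _ (r.YX ht)
      exact hw2 i hi j hj hij s (hsub _ hs) t (hsub _ ht)
  by_cases hk2 : κ.2
  · left
    obtain ⟨w, hw1, hw2⟩ := (hT3.le (le_max_left _ _)).comb att_trans att_sep att_symm
    refine ⟨u3.y, insert u3.y u3.Y, fun i => (w i).x, fun i => insert (w i).x (w i).X,
      Set.mem_insert _ _, u3.ky, ?_, ?_⟩
    · intro i hi
      obtain ⟨h1, -, -, h2⟩ := hw1 i hi
      have h3 := congrArg Prod.snd (h2 rfl)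
      refine ⟨fun t ht => Set.mem_insert_of_mem _ (h1.1 ht), fun h => u3.yY (h1.1 h),
        Set.mem_insert _ _, ?_, (w i).kx⟩
      have h5 : G.Adj u3.y (w i).x = κ.2 := h3
      rw [h5]
      exact hk2
    · intro i hi j hj hij s hs t ht
      exact hw2 i hi j hj hij s hs t ht
  right
  -- the paths inside the cores
  have hpath : ∀ t1 t2 b1 b2 w : Nd G c D Rc KP, ∃ (m : ℕ) (p : ℕ → V),
      a t1 t2 b1 b2 w ∈ w.O → b t1 t2 b1 b2 w ∈ w.O →
      p 0 = a t1 t2 b1 b2 w ∧ p m = b t1 t2 b1 b2 w ∧ (∀ i ≤ m, p i ∈ w.O) ∧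
      (∀ i ≤ m, ∀ j ≤ m, p i = p j → i = j) ∧
      (∀ i ≤ m, ∀ j ≤ m, (G.Adj (p i) (p j) ↔ (i + 1 = j ∨ j + 1 = i))) := by
    intro t1 t2 b1 b2 w
    by_cases h : a t1 t2 b1 b2 w ∈ w.O ∧ b t1 t2 b1 b2 w ∈ w.O
    · obtain ⟨m, p, h1⟩ := geodesic h.1 (w.connO.2 _ h.1 _ h.2)
      exact ⟨m, p, fun _ _ => h1⟩
    · exact ⟨0, fun _ => a t1 t2 b1 b2 w, fun h1 h2 => absurd ⟨h1, h2⟩ h⟩
  choose LQ Q hQ using hpath
  -- the ends of the leaf paths
  have hends : ∀ l : List (Nd G c D Rc KP), ∃ ij : Fin (n + 1) × Fin (n + 1),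
      ∀ t1 t2 e b1 b2 w, l = [t1, t2, e, b1, b2, w] →
        a t1 t2 b1 b2 w ∈ w.O ∧ G.Adj e.x (a t1 t2 b1 b2 w) →
        b t1 t2 b1 b2 w ∈ w.O ∧ G.Adj e.y (b t1 t2 b1 b2 w) →
        (ij.1 : ℕ) < ij.2 ∧ (ij.2 : ℕ) ≤ LQ t1 t2 b1 b2 w ∧ Odd ((ij.2 : ℕ) - ij.1) ∧
        (∀ i, (ij.1 : ℕ) ≤ i → i ≤ ij.2 → (G.Adj e.x (Q t1 t2 b1 b2 w i) ↔ i = ij.1)) ∧
        (∀ i, (ij.1 : ℕ) ≤ i → i ≤ ij.2 → (G.Adj e.y (Q t1 t2 b1 b2 w i) ↔ i = ij.2)) := by
    intro l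
    by_cases h : ∃ t1 t2 e b1 b2 w, l = [t1, t2, e, b1, b2, w] ∧
        (a t1 t2 b1 b2 w ∈ w.O ∧ G.Adj e.x (a t1 t2 b1 b2 w)) ∧
        (b t1 t2 b1 b2 w ∈ w.O ∧ G.Adj e.y (b t1 t2 b1 b2 w))
    · obtain ⟨t1, t2, e, b1, b2, w, hl, h1, h2⟩ := h
      obtain ⟨q0, qm, qO, qi, qa⟩ := hQ t1 t2 b1 b2 w h1.1 h2.1
      have hLn : LQ t1 t2 b1 b2 w < n := by
        by_contra hcon
        exact hnp (hasPath_of _ qi qa (by omega))
      obtain ⟨i0, j0, e1, e2, e3, e4, e5⟩ := ext_leaf (xe := e.x) (ye := e.y) hprop e.xD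
        (e.XD e.yX) e.cx e.cy (fun t ht => w.XD (w.YX (w.OY ht)) : w.O ⊆ D) qO qa
        (by rw [q0]; exact h1.2) (by rw [qm]; exact h2.2)
      refine ⟨(⟨i0, by omega⟩, ⟨j0, by omega⟩), ?_⟩
      intro t1' t2' e' b1' b2' w' hl' _ _
      rw [hl] at hl'
      simp only [List.cons.injEq, and_true] at hl'
      obtain ⟨rfl, rfl, rfl, rfl, rfl, rfl⟩ := hl'
      exact ⟨e1, e2, e3, e4, e5⟩
    · refine ⟨(0, 0), ?_⟩
      intro t1 t2 e b1 b2 w hl h1 h2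
      exact absurd ⟨t1, t2, e, b1, b2, w, hl, h1, h2⟩ h
  choose ends hends using hends
  obtain ⟨μ, u4, -, hT4⟩ := hM4 _ Nd.lt Nd.sep att_trans att_sep att_symm _ ends u3
    (hT3.le (le_max_right _ _))
  -- the facts about the chains with two and six nodes
  set Pr : List (Nd G c D Rc KP) → Prop := fun l => (∀ u v, l = [u, v] →
      ¬ G.Adj u.x v.y ∧ ¬ G.Adj u.y v.x) ∧ (∀ t1 t2 e b1 b2 w, l = [t1, t2, e, b1, b2, w] →
      (μ.1 : ℕ) < μ.2 ∧ (μ.2 : ℕ) ≤ LQ t1 t2 b1 b2 w ∧ Odd ((μ.2 : ℕ) - μ.1) ∧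
        (∀ i, (μ.1 : ℕ) ≤ i → i ≤ μ.2 → (G.Adj e.x (Q t1 t2 b1 b2 w i) ↔ i = μ.1)) ∧
        (∀ i, (μ.1 : ℕ) ≤ i → i ≤ μ.2 → (G.Adj e.y (Q t1 t2 b1 b2 w i) ↔ i = μ.2)) ∧
        (∀ i ≤ LQ t1 t2 b1 b2 w, Q t1 t2 b1 b2 w i ∈ w.O) ∧
        (∀ i ≤ LQ t1 t2 b1 b2 w, ∀ j ≤ LQ t1 t2 b1 b2 w,
          Q t1 t2 b1 b2 w i = Q t1 t2 b1 b2 w j → i = j) ∧
        (∀ i ≤ LQ t1 t2 b1 b2 w, ∀ j ≤ LQ t1 t2 b1 b2 w,
          (G.Adj (Q t1 t2 b1 b2 w i) (Q t1 t2 b1 b2 w j) ↔ (i + 1 = j ∨ j + 1 = i)))) with hPr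
  have hT5 : TT Nd.lt Nd.sep (2 * d + 5) Pr u4 := by
    refine hT4.mono ?_
    rintro l ⟨⟨⟨⟨-, h1⟩, h2⟩, h3⟩, h4⟩
    refine ⟨?_, ?_⟩
    · rintro u v rfl
      have h5 := h3 rfl
      have h6 : G.Adj u.x v.y = κ.1 := congrArg Prod.fst h5
      have h7 : G.Adj u.y v.x = κ.2 := congrArg Prod.snd h5
      exact ⟨by rw [h6]; exact hk1, by rw [h7]; exact hk2⟩
    · rintro t1 t2 e b1 b2 w rfl
      have h5 := h1 t1 t2 e b1 b2 w rfl
      have h6 := h2 t1 t2 e b1 b2 w rfl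
      obtain ⟨e1, e2, e3, e4, e5⟩ := hends _ t1 t2 e b1 b2 w rfl h5 h6
      obtain ⟨-, -, qO, qi, qa⟩ := hQ t1 t2 b1 b2 w h5.1 h6.1
      rw [h4 rfl] at e1 e2 e3 e4 e5
      exact ⟨e1, e2, e3, e4, e5, qO, qi, qa⟩
  have hodd : Odd ((μ.2 : ℕ) - μ.1) := by
    obtain ⟨w, -, hw⟩ := hT5.line
    exact ((hw [0, 1, 2, 3, 4, 5] (by simp) (by simp) (by
      simp only [List.mem_cons, List.not_mem_nil, or_false, forall_eq_or_imp, forall_eq]
      omega)).2 (w 0) (w 1) (w 2) (w 3) (w 4) (w 5) rfl).2.2.1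
  -- the first three ancestors
  have hT6 : TT Nd.lt Nd.sep (2 * d + 2 + 1 + 1 + 1)
      (fun m => ∀ s : List (Nd G c D Rc KP), s.Sublist [] → Pr (s ++ m)) u4 := by
    refine hT5.mono ?_
    intro l hl s hs
    rw [List.sublist_nil.mp hs]
    exact hl
  obtain ⟨u5, -, -, -, -, hT7, -⟩ := ext_step hT6
  obtain ⟨u6, -, -, -, -, hT8, -⟩ := ext_step hT7
  obtain ⟨u7, -, -, -, -, hT9, -⟩ := ext_step hT8
  have hlist : ([] : List (Nd G c D Rc KP)) ++ [u4] ++ [u5] ++ [u6] = [u4, u5, u6] := rfl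
  rw [hlist] at hT9
  obtain ⟨E, A, B, hE, -⟩ := ext_build hprop (fun t1 t2 b1 b2 w i => Q t1 t2 b1 b2 w (μ.1 + i))
    ((μ.2 : ℕ) - μ.1) Pr (fun u v h => h.1 u v rfl) (fun t1 t2 e b1 b2 w h => by
      obtain ⟨e1, e2, e3, e4, e5, qO, qi, qa⟩ := h.2 t1 t2 e b1 b2 w rfl
      refine ⟨?_, ?_, ?_, ?_, ?_⟩
      · intro i hi
        exact qO _ (by omega)
      · intro i hi j hj hij
        have := qi _ (by omega) _ (by omega) hij
        omega
      · intro i hi j hj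
        rw [qa _ (by omega) _ (by omega)]
        omega
      · intro i hi
        rw [e4 _ (by omega) (by omega)]
        omega
      · intro i hi
        rw [e5 _ (by omega) (by omega)]
        omega) d u4 u5 [u6] u7 (by simp) hT9
  exact ⟨_, E, A, B, hodd, hE⟩

end H24.Bip
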