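import Pool.Agent.H24.Bip.Defs

/-!
A double laminar graph of depth `3` contains an induced path with `11` vertices: with `x11` the
first vertex of the first grandchild, `a11` an end of one of its leaves and `x1` the first vertex of
the first child, the path is `x11, a11, x1`, a leaf of the other grandchild, the second vertex of the
root, and then back in the same way in the second child.
-/

set_option autoImplicit false

namespace H24.Bip

open H7.Online

/-- the first `n` terms of `q` form an induced path -/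
private def IsP {V : Type} (H : SimpleGraph V) (n : ℕ) (q : ℕ → V) : Prop :=
  ∀ i < n, ∀ j < n, i < j → q i ≠ q j ∧ (H.Adj (q i) (q j) ↔ i + 1 = j)

private theorem IsP.cons {V : Type} {H : SimpleGraph V} {n : ℕ} {q : ℕ → V} (h : IsP H n q)
    (v : V) (h1 : ∀ i < n, v ≠ q i) (h2 : ∀ i < n, (H.Adj v (q i) ↔ i = 0)) :
    IsP H (n + 1) (fun i => if i = 0 then v else q (i - 1)) := by
  intro i hi j hj hij
  have hj0 : j ≠ 0 := by omega
  by_cases hi0 : i = 0
  · subst hi0
    simp only [if_true, hj0, if_false]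
    refine ⟨h1 _ (by omega), ?_⟩
    rw [h2 _ (by omega)]
    omega
  · simp only [hi0, hj0, if_false]
    have h3 := h (i - 1) (by omega) (j - 1) (by omega) (by omega)
    refine ⟨h3.1, ?_⟩
    rw [h3.2]
    omega

private theorem IsP.drop {V : Type} {H : SimpleGraph V} {n m : ℕ} {q : ℕ → V}
    (h : IsP H (n + m) q) : IsP H n (fun i => q (i + m)) := by
  intro i hi j hj hij
  have h3 := h (i + m) (by omega) (j + m) (by omega) (by omega)
  refine ⟨h3.1, ?_⟩
  rw [h3.2]
  omega

private theorem dsub {V : Type} {H : SimpleGraph V} {l : ℕ} : ∀ {d : ℕ} {E A B : Set V},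
    DLam H l d E A B → A ⊆ E ∧ B ⊆ E
  | 0, E, A, B, h => by
    obtain ⟨p, _, _, rfl, rfl, rfl⟩ := h
    constructor <;> (rintro z rfl; exact Set.mem_range_self _)
  | d + 1, E, A, B, h => by
    obtain ⟨x, y, E1, A1, B1, E2, A2, B2, h1, h2, _, _, _, _, _, _, _, rfl, rfl, rfl⟩ := h
    have s1 := dsub h1
    have s2 := dsub h2
    constructor
    · rintro z (hz | hz)
      · exact Or.inr (Or.inr (Or.inl (s1.1 hz)))
      · exact Or.inr (Or.inr (Or.inr (s2.1 hz)))
    · rintro z (hz | hz)
      · exact Or.inr (Or.inr (Or.inl (s1.2 hz)))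
      · exact Or.inr (Or.inr (Or.inr (s2.2 hz)))

private theorem ddisj {V : Type} {H : SimpleGraph V} {l : ℕ} (hl : 1 ≤ l) :
    ∀ {d : ℕ} {E A B : Set V}, DLam H l d E A B → ∀ z ∈ A, z ∉ B
  | 0, E, A, B, h => by
    obtain ⟨p, hp, _, rfl, rfl, rfl⟩ := h
    rintro z rfl h1
    have h2 := congrArg Fin.val (hp (Set.mem_singleton_iff.1 h1))
    simp only [Fin.val_zero, Fin.val_last] at h2
    omega
  | d + 1, E, A, B, h => by
    obtain ⟨x, y, E1, A1, B1, E2, A2, B2, h1, h2, ha, _, _, _, _, _, _, rfl, rfl, rfl⟩ := h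
    have s1 := dsub h1
    have s2 := dsub h2
    have t1 := ddisj hl h1
    have t2 := ddisj hl h2
    rintro z (hz | hz) (hz' | hz')
    · exact t1 z hz hz'
    · exact (ha z (s1.1 hz) z (s2.2 hz')).1 rfl
    · exact (ha z (s1.2 hz') z (s2.1 hz)).1 rfl
    · exact t2 z hz hz'

/-- half of the path -/
private theorem half {V : Type} {H : SimpleGraph V} {l : ℕ} {E A B : Set V} (hl : 1 ≤ l)
    (h : DLam H l 2 E A B) : ∃ q : ℕ → V, IsP H 5 q ∧ (∀ i < 5, q i ∈ E) ∧
      ∀ i < 5, (q i ∈ B ↔ i = 4) := by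
  obtain ⟨x, y, Ea, Aa, Ba, Eb, Ab, Bb, ha, hb, hab, hx, _, _, _, hxadj, _, rfl, rfl, rfl⟩ := h
  have sa := dsub ha
  have sb := dsub hb
  have ta := ddisj hl ha
  have tb := ddisj hl hb
  obtain ⟨xa, ya, F1, A1, B1, F2, A2, B2, hF1, hF2, _, hxa, _, _, _, hxaadj, _, hEa, hAa, hBa⟩ := ha
  obtain ⟨xb, yb, G1, C1, D1, G2, C2, D2, hG1, hG2, hG12, hxb, _, _, _, _, _, hEb, hAb, hBb⟩ := hb
  have sF1 := dsub hF1
  have sF2 := dsub hF2
  have sG2 := dsub hG2
  obtain ⟨r, _, _, hrF, hrA, _⟩ := hF1
  obtain ⟨p, hp, hpadj, hpG, hpC, hpD⟩ := hG1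
  -- the vertices
  have a1 : r 0 ∈ A1 := by rw [hrA]; exact Set.mem_singleton _
  have a2 : r 0 ∈ Aa := by rw [hAa]; exact Or.inl a1
  have a3 : r 0 ∈ Ea := sa.1 a2
  have x1 : xa ∈ Ea := by rw [hEa]; exact Or.inl rfl
  have x2 : xa ∉ Aa := by
    rw [hAa]
    rintro (h | h)
    · exact hxa (Or.inl (sF1.1 h))
    · exact hxa (Or.inr (sF2.1 h))
  have x3 : xa ∉ Ba := by
    rw [hBa]
    rintro (h | h)
    · exact hxa (Or.inl (sF1.2 h))
    · exact hxa (Or.inr (sF2.2 h))
  have p1 : ∀ i, p i ∈ G1 := fun i => by rw [hpG]; exact Set.mem_range_self i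
  have p2 : ∀ i, p i ∈ Eb := fun i => by rw [hEb]; exact Or.inr (Or.inr (Or.inl (p1 i)))
  have nb : ∀ z ∈ Ea, z ∉ Eb := fun z hz hz' => (hab z hz z hz').1 rfl
  have pA : ∀ i, (p i ∈ Ab ↔ i = 0) := by
    intro i
    rw [hAb, hpC]
    constructor
    · rintro (h | h)
      · exact hp h
      · exact absurd rfl (hG12 (p i) (p1 i) (p i) (sG2.1 h)).1
    · rintro rfl
      exact Or.inl rfl
  have pB : ∀ i, (p i ∈ Bb ↔ i = Fin.last l) := by
    intro i
    rw [hBb, hpD]
    constructor
    · rintro (h | h)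
      · exact hp h
      · exact absurd rfl (hG12 (p i) (p1 i) (p i) (sG2.2 h)).1
    · rintro rfl
      exact Or.inl rfl
  set p' : ℕ → V := fun i => p (if h : i < l + 1 then ⟨i, h⟩ else 0) with hp'
  have hval : ∀ i (h : i < l + 1), p' i = p ⟨i, h⟩ := by
    intro i h
    rw [hp']
    simp only [h, dif_pos]
  have P1 : IsP H (l + 1) p' := by
    intro i hi j hj hij
    rw [hval i hi, hval j hj, hpadj]
    refine ⟨fun h => ?_, ?_⟩
    · have := congrArg Fin.val (hp h)
      simp only at this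
      omega
    · simp only
      omega
  have hpE : ∀ i, p' i ∈ Eb := fun i => p2 _
  have P2 : IsP H (l + 2) (fun i => if i = 0 then x else p' (i - 1)) := by
    refine P1.cons x (fun i _ h => hx (Or.inr (h ▸ hpE i))) fun i hi => ?_
    rw [hxadj _ (Or.inr (hpE i))]
    constructor
    · rintro (h | h)
      · exact absurd (hpE i) (nb _ (sa.1 h))
      · rw [hval i hi, pA] at h
        have := congrArg Fin.val h
        simpa using this
    · rintro rfl
      rw [hval 0 hi]
      exact Or.inr ((pA _).2 rfl)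
  have P3 := P2.cons (r 0) (by
    intro i hi
    by_cases h0 : i = 0
    · rw [if_pos h0]
      rintro h
      exact hx (Or.inl (h ▸ a3))
    · rw [if_neg h0]
      exact (hab _ a3 _ (hpE _)).1) (by
    intro i hi
    by_cases h0 : i = 0
    · rw [if_pos h0]
      refine iff_of_true ?_ h0
      exact ((hxadj _ (Or.inl a3)).2 (Or.inl a2)).symm
    · rw [if_neg h0]
      exact iff_of_false (hab _ a3 _ (hpE _)).2 h0)
  have P4 := P3.cons xa (by
    intro i hi
    by_cases h0 : i = 0
    · rw [if_pos h0]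
      rintro h
      exact x2 (h ▸ a2)
    · rw [if_neg h0]
      by_cases h1 : i - 1 = 0
      · rw [if_pos h1]
        intro h
        exact hx (Or.inl (h ▸ x1))
      · rw [if_neg h1]
        exact (hab _ x1 _ (hpE _)).1) (by
    intro i hi
    by_cases h0 : i = 0
    · rw [if_pos h0]
      refine iff_of_true ?_ h0
      exact (hxaadj _ (Or.inl (sF1.1 a1))).2 (Or.inl a1)
    · rw [if_neg h0]
      refine iff_of_false ?_ h0
      by_cases h1 : i - 1 = 0
      · rw [if_pos h1]
        intro h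
        rcases (hxadj _ (Or.inl x1)).1 h.symm with h2 | h2
        · exact x2 h2
        · exact nb _ x1 (sb.1 h2)
      · rw [if_neg h1]
        exact (hab _ x1 _ (hpE _)).2)
  have e : l + 2 + 1 + 1 = 5 + (l - 1) := by omega
  rw [e] at P4
  refine ⟨_, P4.drop, ?_, ?_⟩
  · intro i _
    split_ifs with c1 c2 c3
    · exact Or.inr (Or.inr (Or.inl x1))
    · exact Or.inr (Or.inr (Or.inl a3))
    · exact Or.inl rfl
    · exact Or.inr (Or.inr (Or.inr (hpE _)))
  · intro i hi
    split_ifs with c1 c2 c3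
    · refine iff_of_false ?_ (by omega)
      rintro (h | h)
      · exact x3 h
      · exact nb _ x1 (sb.2 h)
    · refine iff_of_false ?_ (by omega)
      rintro (h | h)
      · exact ta _ a2 h
      · exact nb _ a3 (sb.2 h)
    · refine iff_of_false ?_ (by omega)
      rintro (h | h)
      · exact hx (Or.inl (sa.2 h))
      · exact hx (Or.inr (sb.2 h))
    · have hlt : i + (l - 1) - 1 - 1 - 1 < l + 1 := by omega
      rw [hval _ hlt]
      constructor
      · rintro (h | h)
        · exact absurd (p2 _) (nb _ (sa.2 h))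
        · have := congrArg Fin.val ((pB _).1 h)
          simp only [Fin.val_last] at this
          omega
      · intro h
        refine Or.inr ((pB _).2 (Fin.ext ?_))
        simp only [Fin.val_last]
        omega

theorem hasPath_of_dlam {V : Type} {H : SimpleGraph V} {l : ℕ} {E A B : Set V} (hl : 1 ≤ l)
    (h : DLam H l 3 E A B) : HasPath H 11 := by
  obtain ⟨x, y, E1, A1, B1, E2, A2, B2, h1, h2, ha, _, hy, _, _, _, hyadj, _, _, _⟩ := h
  have s1 := dsub h1
  have s2 := dsub h2
  obtain ⟨q1, P1, m1, b1⟩ := half hl h1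
  obtain ⟨q2, P2, m2, b2⟩ := half hl h2
  have y1 : ∀ i < 5, y ≠ q1 i := fun i hi h => hy (Or.inl (h ▸ m1 i hi))
  have y2 : ∀ i < 5, y ≠ q2 i := fun i hi h => hy (Or.inr (h ▸ m2 i hi))
  have z1 : ∀ i < 5, (H.Adj y (q1 i) ↔ i = 4) := by
    intro i hi
    rw [hyadj _ (Or.inl (m1 i hi)), ← b1 i hi]
    constructor
    · rintro (h | h)
      · exact h
      · exact absurd rfl (ha _ (m1 i hi) _ (s2.2 h)).1
    · exact Or.inl
  have z2 : ∀ i < 5, (H.Adj y (q2 i) ↔ i = 4) := by
    intro i hi
    rw [hyadj _ (Or.inr (m2 i hi)), ← b2 i hi]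
    constructor
    · rintro (h | h)
      · exact absurd rfl (ha _ (s1.2 h) _ (m2 i hi)).1
      · exact h
    · exact Or.inr
  have P : IsP H 11 (fun i => if i < 5 then q1 i else if i = 5 then y else q2 (10 - i)) := by
    intro i hi j hj hij
    simp only
    by_cases c1 : j < 5
    · have c2 : i < 5 := by omega
      rw [if_pos c1, if_pos c2]
      exact P1 i c2 j c1 hij
    by_cases c2 : j = 5
    · have c3 : i < 5 := by omega
      rw [if_neg c1, if_pos c2, if_pos c3]
      refine ⟨(y1 i c3).symm, ?_⟩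
      rw [SimpleGraph.adj_comm, z1 i c3]
      omega
    rw [if_neg c1, if_neg c2]
    by_cases c3 : i < 5
    · rw [if_pos c3]
      have h3 := ha _ (m1 i c3) _ (m2 (10 - j) (by omega))
      exact ⟨h3.1, iff_of_false h3.2 (by omega)⟩
    by_cases c4 : i = 5
    · rw [if_neg c3, if_pos c4]
      refine ⟨y2 _ (by omega), ?_⟩
      rw [z2 _ (by omega)]
      omega
    · rw [if_neg c3, if_neg c4]
      have h3 := P2 (10 - j) (by omega) (10 - i) (by omega) (by omega)
      refine ⟨h3.1.symm, ?_⟩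
      rw [SimpleGraph.adj_comm, h3.2]
      omega
  refine ⟨fun i => (fun i => if i < 5 then q1 i else if i = 5 then y else q2 (10 - i)) (i : ℕ),
    ?_, ?_⟩
  · intro i j hij
    rcases lt_trichotomy (i : ℕ) j with h | h | h
    · exact absurd hij (P i i.2 j j.2 h).1
    · exact Fin.ext h
    · exact absurd hij.symm (P j j.2 i i.2 h).1
  · intro i j
    rcases lt_trichotomy (i : ℕ) j with h | h | h
    · rw [(P i i.2 j j.2 h).2]
      omega
    · rw [Fin.ext h]
      refine iff_of_false (H.loopless.irrefl _) (by omega)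
    · rw [SimpleGraph.adj_comm, (P j j.2 i i.2 h).2]
      omega

end H24.Bip
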