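import Pool.Agent.H24.Bip.Defs
import Pool.Agent.H7.Online.Wqo
import Pool.Agent.H7.Online.RankMain
import Pool.Agent.H24.Bip.Alg
import Pool.Agent.H24.Bip.P11

/-!
The algorithm for all the classes at once.
-/

namespace H24.Bip

open H7.Online

/-- the key lemma -/
def Key : Prop := ∀ n d k : ℕ, ∃ s : ℕ, ∀ (m : ℕ) (H : SimpleGraph (Fin m)) (c : Fin m → Bool)
  (D D1 D2 : Set (Fin m)), ¬ HasPath H n → OnlineLE ⟨m, H⟩ k → Ctx H c s D D1 D2 →
    ∃ (l : ℕ) (E A B : Set (Fin m)), Odd l ∧ DLam H l d E A B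

/-! ### pulling back along an injection -/

section pull
variable {U V : Type} {G : SimpleGraph V} {H : SimpleGraph U} {τ : U → V}

theorem conn_pull (hadj : ∀ a b, G.Adj (τ a) (τ b) ↔ H.Adj a b) (hinj : Function.Injective τ)
    {D : Set V} (hD : D ⊆ Set.range τ) (h : Conn G D) : Conn H (τ ⁻¹' D) := by
  obtain ⟨⟨d, hd⟩, h2⟩ := h
  obtain ⟨a0, rfl⟩ := hD hd
  refine ⟨⟨a0, hd⟩, ?_⟩
  intro a ha b hb
  have key : ∀ c, Relation.ReflTransGen (fun u v => G.Adj u v ∧ v ∈ D) (τ a) c →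
      ∃ b' : U, τ b' = c ∧
        Relation.ReflTransGen (fun u v => H.Adj u v ∧ v ∈ (τ ⁻¹' D : Set U)) a b' := by
    intro c hc
    induction hc with
    | refl => exact ⟨a, rfl, Relation.ReflTransGen.refl⟩
    | tail _ h3 ih =>
      obtain ⟨b1, h4, h5⟩ := ih
      obtain ⟨b2, rfl⟩ := hD h3.2
      refine ⟨b2, rfl, h5.tail ⟨?_, h3.2⟩⟩
      rw [← hadj, h4]
      exact h3.1
  obtain ⟨b', h3, h4⟩ := key (τ b) (h2 (τ a) ha (τ b) hb)
  rw [hinj h3] at h4
  exact h4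

theorem anti_pull (hadj : ∀ a b, G.Adj (τ a) (τ b) ↔ H.Adj a b) {D1 D2 : Set V}
    (h : Anti G D1 D2) : Anti H (τ ⁻¹' D1) (τ ⁻¹' D2) := by
  intro a ha b hb
  have h1 := h (τ a) ha (τ b) hb
  exact ⟨fun h2 => h1.1 (congrArg τ h2), fun h2 => h1.2 ((hadj a b).mpr h2)⟩

theorem rich_pull (hadj : ∀ a b, G.Adj (τ a) (τ b) ↔ H.Adj a b) (hinj : Function.Injective τ)
    {c : V → Bool} {D D1 : Set V} {s : ℕ} (hD1 : D1 ⊆ Set.range τ)
    (h : Rich G c D s D1) : Rich H (fun a => c (τ a)) (τ ⁻¹' D) s (τ ⁻¹' D1) := by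
  classical
  refine ⟨conn_pull hadj hinj hD1 h.1, ?_⟩
  intro W hW hcard b
  obtain ⟨f, hf, hm⟩ := h.2 (W.image τ) (by
    intro x hx
    rw [Finset.coe_image] at hx
    obtain ⟨a, ha, rfl⟩ := hx
    exact hW ha) (le_trans Finset.card_image_le hcard) b
  have hmem : ∀ a ∈ W, τ a ∈ ((W.image τ : Finset V) : Set V) := by
    intro a ha
    rw [Finset.coe_image]
    exact ⟨a, ha, rfl⟩
  have hex : ∀ a : U, ∃ a' : U, a ∈ W → τ a' = f (τ a) := by
    intro a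
    by_cases ha : a ∈ W
    · obtain ⟨a', ha'⟩ := hD1 (hm (hmem a ha))
      exact ⟨a', fun _ => ha'⟩
    · exact ⟨a, fun h => absurd h ha⟩
  choose g hg using hex
  refine ⟨g, ⟨?_, ?_, ?_⟩, ?_⟩
  · intro a ha a' ha' haa
    have h1 := hg a ha
    have h2 := hg a' ha'
    rw [haa, h2] at h1
    exact hinj (hf.inj (hmem a ha) (hmem a' ha') h1.symm)
  · intro u hu w hw
    rw [← hadj, hg u hu, hg w hw, hf.adj _ (hmem u hu) _ (hmem w hw), hadj]
  · intro u hu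
    rw [hg u hu]
    exact hf.lab _ (hmem u hu)
  · intro u hu
    show τ (g u) ∈ D1
    rw [hg u hu]
    exact hm (hmem u hu)

theorem ctx_pull (hadj : ∀ a b, G.Adj (τ a) (τ b) ↔ H.Adj a b) (hinj : Function.Injective τ)
    {c : V → Bool} {s : ℕ} {D D1 D2 : Set V} (hD : D ⊆ Set.range τ) (h : Ctx G c s D D1 D2) :
    Ctx H (fun a => c (τ a)) s (τ ⁻¹' D) (τ ⁻¹' D1) (τ ⁻¹' D2) where
  conn := conn_pull hadj hinj hD h.conn
  sub1 := Set.preimage_mono h.sub1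
  sub2 := Set.preimage_mono h.sub2
  anti := anti_pull hadj h.anti
  rich1 := rich_pull hadj hinj (h.sub1.trans hD) h.rich1
  rich2 := rich_pull hadj hinj (h.sub2.trans hD) h.rich2
  proper := fun u hu v hv huv => h.proper (τ u) hu (τ v) hv ((hadj u v).mpr huv)

end pull

theorem hasPath_mono {V : Type} {H : SimpleGraph V} {n n' : ℕ} (h : HasPath H n') (hn : n ≤ n') :
    HasPath H n := by
  obtain ⟨p, h1, h2⟩ := h
  refine ⟨fun i => p (Fin.castLE hn i), fun i j hij => Fin.castLE_injective hn (h1 hij), ?_⟩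
  intro i j
  exact h2 _ _

/-- the class of graphs for the parameters `n`, `d` and `k` -/
def Cl (n d k : ℕ) : Set FG :=
  {Y | Y.2.Colorable 2 ∧ ¬ HasPath Y.2 n ∧
    (n ≤ 11 ∨ ∀ (l : ℕ) (E A B : Set (Fin Y.1)), Odd l → ¬ DLam Y.2 l d E A B) ∧ OnlineLE Y k}

theorem handles_cl (hK : Key) (n d k : ℕ) : ∃ (N : ℕ) (A : ℕ → SimpleGraph ℕ → ℕ),
    Handles A (Cl n d k) N := by
  classical
  -- the depth
  obtain ⟨d', hd'⟩ : ∃ d' : ℕ, ∀ Y ∈ Cl n d k, ∀ (l : ℕ) (E A B : Set (Fin Y.1)), Odd l →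
      ¬ DLam Y.2 l d' E A B := by
    by_cases hn : n ≤ 11
    · refine ⟨3, fun Y hY l E A B hl h => hY.2.1 (hasPath_mono (hasPath_of_dlam ?_ h) hn)⟩
      obtain ⟨j, rfl⟩ := hl
      omega
    · refine ⟨d, fun Y hY l E A B hl h => ?_⟩
      rcases hY.2.2.1 with h1 | h1
      · exact hn h1
      · exact h1 l E A B hl h
  obtain ⟨s, hs⟩ := hK n d' k
  obtain ⟨A, N, hA, hB⟩ := alg s
  refine ⟨N, A, handles_of_uses hA ?_⟩
  rintro ⟨m, H⟩ hY G σ hσ
  obtain ⟨c0⟩ := hY.1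
  -- the labels
  let cc : Fin m → Bool := fun i => decide (c0 i = 1)
  have hcc : ∀ i j, H.Adj i j → cc i ≠ cc j := by
    intro i j hij h
    have h1 := c0.valid hij
    have h2 : (c0 i = 1) ↔ (c0 j = 1) := by
      have : decide (c0 i = 1) = decide (c0 j = 1) := h
      simpa using this
    generalize c0 i = a at h1 h2
    generalize c0 j = b at h1 h2
    revert a b
    decide
  let c : ℕ → Bool := fun i => if hi : i < m then cc (σ ⟨i, hi⟩) else false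
  let τ : Fin m → ℕ := fun a => (σ.symm a : ℕ)
  have hτ : ∀ a b, G.Adj (τ a) (τ b) ↔ H.Adj a b := by
    intro a b
    have := hσ (σ.symm a) (σ.symm b)
    rw [Equiv.apply_symm_apply, Equiv.apply_symm_apply] at this
    exact this
  have hinj : Function.Injective τ := fun a b hab => σ.symm.injective (Fin.ext hab)
  have hc : (fun a => c (τ a)) = cc := by
    funext a
    have h1 : τ a < m := (σ.symm a).2
    have h2 : c (τ a) = cc (σ ⟨τ a, h1⟩) := dif_pos h1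
    have h3 : (⟨τ a, h1⟩ : Fin m) = σ.symm a := rfl
    rw [h2, h3, Equiv.apply_symm_apply]
  have hall : ∀ i < m, A i G < N := by
    apply hB G m c
    · intro i hi j hj hij
      have h1 : c i = cc (σ ⟨i, hi⟩) := dif_pos hi
      have h2 : c j = cc (σ ⟨j, hj⟩) := dif_pos hj
      rw [h1, h2]
      exact hcc _ _ ((hσ ⟨i, hi⟩ ⟨j, hj⟩).mp hij)
    · intro D D1 D2 hD hctx
      have hDr : D ⊆ Set.range τ := by
        intro i hi
        have him : i < m := hD hi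
        refine ⟨σ ⟨i, him⟩, ?_⟩
        show ((σ.symm (σ ⟨i, him⟩) : Fin m) : ℕ) = i
        rw [Equiv.symm_apply_apply]
      have h1 := ctx_pull hτ hinj hDr hctx
      rw [hc] at h1
      obtain ⟨l, E, A', B', hl, h2⟩ := hs m H cc _ _ _ hY.2.1 hY.2.2.2 h1
      exact hd' ⟨m, H⟩ hY l E A' B' hl h2
  have hsub : (Finset.range m).image (fun i => A i G) ⊆ Finset.range N := by
    intro x hx
    rw [Finset.mem_image] at hx
    obtain ⟨i, hi, rfl⟩ := hx
    rw [Finset.mem_range] at hi ⊢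
    exact hall i hi
  have := Finset.card_le_card hsub
  rwa [Finset.card_range] at this

theorem main_of_key (hK : Key) : ∃ A : ℕ → SimpleGraph ℕ → ℕ, IsOnline A ∧
    ∀ n d : ℕ, ∃ h : ℕ → ℕ, ∀ (m : ℕ) (H : SimpleGraph (Fin m)), H.Colorable 2 →
      ¬ HasPath H n → (n ≤ 11 ∨ ∀ (l : ℕ) (E A B : Set (Fin m)), Odd l → ¬ DLam H l d E A B) →
      ∀ k : ℕ, (∃ B : ℕ → SimpleGraph ℕ → ℕ, IsOnline B ∧ UsesAtMost B H k) →
        UsesAtMost A H (h k) := by
  choose N A hA using fun i : ℕ =>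
    handles_cl hK (Nat.unpair i).1 (Nat.unpair (Nat.unpair i).2).1 (Nat.unpair (Nat.unpair i).2).2
  obtain ⟨A', hA1, hA2⟩ := combine hA
  refine ⟨A', hA1, fun n d =>
    ⟨fun k => ∑ i ∈ Finset.range (Nat.pair n (Nat.pair d k) + 1), N i, ?_⟩⟩
  intro m H h1 h2 h3 k h4
  refine hA2 (Nat.pair n (Nat.pair d k)) ⟨m, H⟩ ?_
  simp only [Nat.unpair_pair]
  exact ⟨h1, h2, h3, h4⟩

end H24.Bip
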