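import Pool.Agent.H24.Bip.Defs
import Pool.Agent.H7.Online.Lower

/-!
# A reproducing set forces many colours

The presented graph lives in disjoint copies of `Z`: the vertex `i` lies in the component `π i` and
is labelled by the vertex `φ i` of `H`.
-/

set_option autoImplicit false

namespace H24.Bip

open H7.Online

/-- the graph of copies: `i` and `j` are adjacent if they are in the same component and their
labels are adjacent -/
def CG {m : ℕ} (H : SimpleGraph (Fin m)) (π : ℕ → ℕ) (φ : ℕ → Fin m) : SimpleGraph ℕ where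
  Adj i j := π i = π j ∧ H.Adj (φ i) (φ j)
  symm := by
    constructor
    rintro i j ⟨h1, h2⟩
    exact ⟨h1.symm, h2.symm⟩
  loopless := by
    constructor
    rintro i ⟨_, h⟩
    exact H.loopless.irrefl _ h

theorem CG_adj {m : ℕ} {H : SimpleGraph (Fin m)} {π : ℕ → ℕ} {φ : ℕ → Fin m} {i j : ℕ} :
    (CG H π φ).Adj i j ↔ π i = π j ∧ H.Adj (φ i) (φ j) := Iff.rfl

theorem locCG {m : ℕ} {H : SimpleGraph (Fin m)} {B : ℕ → SimpleGraph ℕ → ℕ} (hB : IsOnline B)
    {π π' : ℕ → ℕ} {φ φ' : ℕ → Fin m} {n : ℕ}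
    (h : ∀ i < n, ∀ j < n, ((CG H π φ).Adj i j ↔ (CG H π' φ').Adj i j)) :
    ∀ r < n, B r (CG H π φ) = B r (CG H π' φ') := by
  intro r hr
  apply hB.1
  intro i j hi hj
  exact h i (by omega) j (by omega)

theorem forceCG {m k : ℕ} {H : SimpleGraph (Fin m)}
    {B : ℕ → SimpleGraph ℕ → ℕ} (hB : IsOnline B)
    (Z : Set (Fin m)) (z : Fin m) (hz : z ∈ Z)
    (Zs : ℕ → Set (Fin m)) (zs : ℕ → Fin m)
    (h1 : ∀ i < k, Zs i ⊆ Z ∧ z ∉ Zs i ∧ zs i ∈ Zs i ∧ H.Adj z (zs i))
    (h2 : ∀ i < k, ∀ j < k, i ≠ j → Anti H (Zs i) (Zs j))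
    (h3 : ∀ i < k, ∀ W : Finset (Fin m), z ∈ W → (W : Set (Fin m)) ⊆ Z → W.card ≤ Sz (k + 1) →
      ∃ f : Fin m → Fin m, Set.InjOn f W ∧ Set.MapsTo f W (Zs i) ∧ f z = zs i ∧
        ∀ u ∈ W, ∀ v ∈ W, (H.Adj (f u) (f v) ↔ H.Adj u v)) (k' : ℕ) : k' ≤ k + 1 →
    ∀ (π0 : ℕ → ℕ) (φ0 : ℕ → Fin m) (n0 c0 : ℕ), (∀ i < n0, π0 i < c0) →
    ∃ (π : ℕ → ℕ) (φ : ℕ → Fin m) (n1 c1 : ℕ) (A : Finset ℕ), n0 ≤ n1 ∧ n1 ≤ n0 + Sz k' ∧
      c0 ≤ c1 ∧ c1 ≤ c0 + Sz k' ∧
      (∀ i < n0, π i = π0 i ∧ φ i = φ0 i) ∧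
      (∀ i, n0 ≤ i → i < n1 → c0 ≤ π i ∧ π i < c1 ∧ φ i ∈ Z) ∧
      (∀ i j, n0 ≤ i → i < n1 → n0 ≤ j → j < n1 → π i = π j → φ i = φ j → i = j) ∧
      (∀ r ∈ A, n0 ≤ r ∧ r < n1 ∧ φ r = z) ∧ A.card = k' ∧
      ∀ r ∈ A, ∀ r' ∈ A, B r (CG H π φ) = B r' (CG H π φ) → r = r' := by
  classical
  induction k' with
  | zero =>
    intro _ π0 φ0 n0 c0 _
    refine ⟨π0, φ0, n0, c0, ∅, le_rfl, by simp, le_rfl, by simp, fun _ _ => ⟨rfl, rfl⟩, ?_, ?_,
      by simp, rfl, by simp⟩
    · intro i h4 h5; omega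
    · intro i j h4 h5; omega
  | succ k' ih =>
    intro hk' π0 φ0 n0 c0 hc0
    obtain ⟨π1, φ1, n1, c1, A, a1, a2, a3, a4, a5, a6, a7, a8, a9, a10⟩ :=
      ih (by omega) π0 φ0 n0 c0 hc0
    have hc1 : ∀ i < n1, π1 i < c1 := by
      intro i hi
      by_cases h : i < n0
      · rw [(a5 i h).1]
        have := hc0 i h
        omega
      · exact (a6 i (by omega) hi).2.1
    obtain ⟨π2, φ2, n2, c2, A', b1, b2, b3, b4, b5, b6, b7, b8, b9, b10⟩ :=
      ih (by omega) π1 φ1 n1 c1 hc1
    have hS : Sz (k' + 1) = 2 * Sz k' + 1 := rfl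
    have hloc1 : ∀ r ∈ A, B r (CG H π1 φ1) = B r (CG H π2 φ2) := by
      intro r hr
      refine locCG hB (n := n1) (fun i hi j hj => ?_) r (a8 r hr).2.1
      rw [CG_adj, CG_adj, (b5 i hi).1, (b5 i hi).2, (b5 j hj).1, (b5 j hj).2]
    -- the vertices after the second round
    have hZ2 : ∀ i, n0 ≤ i → i < n2 → c0 ≤ π2 i ∧ π2 i < c2 ∧ φ2 i ∈ Z := by
      intro i hi1 hi2
      by_cases h : i < n1
      · rw [(b5 i h).1, (b5 i h).2]
        obtain ⟨e1, e2, e3⟩ := a6 i hi1 h
        exact ⟨e1, by omega, e3⟩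
      · obtain ⟨e1, e2, e3⟩ := b6 i (by omega) hi2
        exact ⟨by omega, e2, e3⟩
    have hI2 : ∀ i j, n0 ≤ i → i < n2 → n0 ≤ j → j < n2 → π2 i = π2 j → φ2 i = φ2 j → i = j := by
      intro i j hi1 hi2 hj1 hj2 hp hf
      by_cases hi : i < n1 <;> by_cases hj : j < n1
      · rw [(b5 i hi).1, (b5 j hj).1] at hp
        rw [(b5 i hi).2, (b5 j hj).2] at hf
        exact a7 i j hi1 hi hj1 hj hp hf
      · have e1 := hc1 i hi
        rw [← (b5 i hi).1] at e1
        have e2 := (b6 j (by omega) hj2).1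
        omega
      · have e1 := hc1 j hj
        rw [← (b5 j hj).1] at e1
        have e2 := (b6 i (by omega) hi2).1
        omega
      · exact b7 i j (by omega) hi2 (by omega) hj2 hp hf
    by_cases hcase : ∃ r' ∈ A', ∀ r ∈ A, B r (CG H π2 φ2) ≠ B r' (CG H π2 φ2)
    · obtain ⟨r', hr', hne⟩ := hcase
      have hr'A : r' ∉ A := fun h => by
        have h4 := (a8 r' h).2.1
        have h5 := (b8 r' hr').1
        omega
      refine ⟨π2, φ2, n2, c2, insert r' A, by omega, by omega, by omega, by omega, ?_, hZ2, hI2,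
        ?_, ?_, ?_⟩
      · intro i hi
        rw [(b5 i (by omega)).1, (b5 i (by omega)).2]
        exact a5 i hi
      · intro r hr
        rw [Finset.mem_insert] at hr
        rcases hr with rfl | hr
        · obtain ⟨e1, e2, e3⟩ := b8 _ hr'
          exact ⟨by omega, e2, e3⟩
        · obtain ⟨e1, e2, e3⟩ := a8 r hr
          exact ⟨e1, by omega, by rw [(b5 r e2).2, e3]⟩
      · rw [Finset.card_insert_of_notMem hr'A, a9]
      · intro r hr s hs hrs
        rw [Finset.mem_insert] at hr hs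
        rcases hr with rfl | hr <;> rcases hs with rfl | hs
        · rfl
        · exact absurd hrs.symm (hne s hs)
        · exact absurd hrs (hne r hr)
        · rw [← hloc1 r hr, ← hloc1 s hs] at hrs
          exact a10 r hr s hs hrs
    · -- the two colour sets coincide
      push Not at hcase
      -- the roots of `A`
      have hroot : ∀ r ∈ A, n0 ≤ r ∧ r < n1 ∧ r < n2 ∧ φ2 r = z ∧ c0 ≤ π2 r ∧ π2 r < c1 := by
        intro r hr
        obtain ⟨e1, e2, e3⟩ := a8 r hr
        obtain ⟨e4, e5, _⟩ := a6 r e1 e2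
        exact ⟨e1, e2, by omega, by rw [(b5 r e2).2, e3], by rw [(b5 r e2).1]; exact e4,
          by rw [(b5 r e2).1]; exact e5⟩
      have hdist : ∀ r ∈ A, ∀ s ∈ A, π2 r = π2 s → r = s := by
        intro r hr s hs hrs
        obtain ⟨e1, _, e2, e3, _⟩ := hroot r hr
        obtain ⟨f1, _, f2, f3, _⟩ := hroot s hs
        exact hI2 r s e1 e2 f1 f2 hrs (by rw [e3, f3])
      -- an index for each root
      obtain ⟨ι, hι1, hι2⟩ : ∃ ι : ℕ → ℕ, (∀ r ∈ A, ι r < k) ∧
          ∀ r ∈ A, ∀ s ∈ A, ι r = ι s → r = s := by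
        have hAk : A.card ≤ k := by rw [a9]; omega
        refine ⟨fun r => if h : r ∈ A then (A.equivFin ⟨r, h⟩ : ℕ) else 0, ?_, ?_⟩
        · intro r hr
          simp only [dif_pos hr]
          exact lt_of_lt_of_le (A.equivFin ⟨r, hr⟩).2 hAk
        · intro r hr s hs h
          simp only [dif_pos hr, dif_pos hs] at h
          have h4 := A.equivFin.injective (Fin.ext h)
          exact congrArg Subtype.val h4
      -- the labels in the component of a root
      let W : ℕ → Finset (Fin m) := fun r =>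
        ((Finset.Ico n0 n2).filter (fun i => π2 i = π2 r)).image φ2
      have hW : ∀ r i, n0 ≤ i → i < n2 → π2 i = π2 r → φ2 i ∈ W r := by
        intro r i hi1 hi2 hir
        exact Finset.mem_image.2 ⟨i, Finset.mem_filter.2 ⟨Finset.mem_Ico.2 ⟨hi1, hi2⟩, hir⟩, rfl⟩
      have hWZ : ∀ r, (W r : Set (Fin m)) ⊆ Z := by
        intro r x hx
        rw [Finset.mem_coe, Finset.mem_image] at hx
        obtain ⟨i, hi, rfl⟩ := hx
        rw [Finset.mem_filter, Finset.mem_Ico] at hi
        exact (hZ2 i hi.1.1 hi.1.2).2.2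
      have hWc : ∀ r, (W r).card ≤ Sz (k + 1) := by
        intro r
        have e1 : (W r).card ≤ n2 - n0 := by
          refine Finset.card_image_le.trans ((Finset.card_filter_le _ _).trans ?_)
          rw [Nat.card_Ico]
        have e2 : Sz (k' + 1) ≤ Sz (k + 1) := by
          have hmono : Monotone Sz := monotone_nat_of_le_succ fun n => by
            change Sz n ≤ 2 * Sz n + 1
            omega
          exact hmono hk'
        omega
      have hf : ∀ r, ∃ f : Fin m → Fin m, r ∈ A → (Set.InjOn f (W r) ∧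
          Set.MapsTo f (W r) (Zs (ι r)) ∧ f z = zs (ι r) ∧
          ∀ u ∈ W r, ∀ v ∈ W r, (H.Adj (f u) (f v) ↔ H.Adj u v)) := by
        intro r
        by_cases hr : r ∈ A
        · obtain ⟨e1, _, e2, e3, _⟩ := hroot r hr
          obtain ⟨f, hf⟩ := h3 (ι r) (hι1 r hr) (W r)
            (by rw [← e3]; exact hW r r e1 e2 rfl) (hWZ r) (hWc r)
          exact ⟨f, fun _ => hf⟩
        · exact ⟨id, fun h => absurd h hr⟩
      choose f hf using hf
      -- the root of a merged vertex
      have hrt : ∀ i, ∃ r, (∃ s ∈ A, π2 i = π2 s) → r ∈ A ∧ π2 i = π2 r := by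
        intro i
        by_cases h : ∃ s ∈ A, π2 i = π2 s
        · obtain ⟨s, hs⟩ := h
          exact ⟨s, fun _ => hs⟩
        · exact ⟨0, fun h' => absurd h' h⟩
      choose rt hrt using hrt
      let mer : ℕ → Prop := fun i => ∃ s ∈ A, π2 i = π2 s
      let φ3 : ℕ → Fin m := fun i => if i = n2 then z else if mer i then f (rt i) (φ2 i) else φ2 i
      let π3 : ℕ → ℕ := fun i => if i = n2 then c2 else if mer i then c2 else π2 i
      have hmer : ∀ i, mer i → rt i ∈ A ∧ π2 i = π2 (rt i) := fun i hi => hrt i hi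
      have hmn0 : ∀ i < n0, ¬ mer i := by
        rintro i hi ⟨s, hs, h4⟩
        have e1 := (hroot s hs).2.2.2.2.1
        have e2 := hc0 i hi
        rw [(b5 i (by omega)).1, (a5 i hi).1] at h4
        omega
      have hmge : ∀ i, n1 ≤ i → i < n2 → ¬ mer i := by
        rintro i hi1 hi2 ⟨s, hs, h4⟩
        have e1 := (hroot s hs).2.2.2.2.2
        have e2 := (b6 i hi1 hi2).1
        omega
      have hφn : φ3 n2 = z := if_pos rfl
      have hπn : π3 n2 = c2 := if_pos rfl
      have hφm : ∀ i, i ≠ n2 → mer i → φ3 i = f (rt i) (φ2 i) := by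
        intro i hi hm
        simp only [φ3, if_neg hi, if_pos hm]
      have hπm : ∀ i, i ≠ n2 → mer i → π3 i = c2 := by
        intro i hi hm
        simp only [π3, if_neg hi, if_pos hm]
      have hφu : ∀ i, i ≠ n2 → ¬ mer i → φ3 i = φ2 i := by
        intro i hi hm
        simp only [φ3, if_neg hi, if_neg hm]
      have hπu : ∀ i, i ≠ n2 → ¬ mer i → π3 i = π2 i := by
        intro i hi hm
        simp only [π3, if_neg hi, if_neg hm]
      have hπc : ∀ i < n2, π2 i < c2 := by
        intro i hi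
        by_cases h : i < n1
        · have := hc1 i h
          rw [(b5 i h).1]
          omega
        · exact (b6 i (by omega) hi).2.1
      have hmem : ∀ i, i < n2 → mer i → n0 ≤ i ∧ φ2 i ∈ W (rt i) := by
        intro i hi hm
        have e1 : n0 ≤ i := by
          by_contra h
          exact hmn0 i (by omega) hm
        exact ⟨e1, hW _ i e1 hi (hmer i hm).2⟩
      have hfz : ∀ i, i < n2 → mer i → φ3 i ∈ Zs (ι (rt i)) := by
        intro i hi hm
        rw [hφm i (by omega) hm]
        exact (hf (rt i) (hmer i hm).1).2.1 (hmem i hi hm).2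
      -- locality
      have hloc2 : ∀ r, r < n2 → B r (CG H π2 φ2) = B r (CG H π3 φ3) := by
        refine locCG hB (fun i hi j hj => ?_)
        rw [CG_adj, CG_adj]
        by_cases hmi : mer i <;> by_cases hmj : mer j
        · rw [hπm i (by omega) hmi, hπm j (by omega) hmj]
          obtain ⟨hi1, hi2⟩ := hmer i hmi
          obtain ⟨hj1, hj2⟩ := hmer j hmj
          by_cases hrr : rt i = rt j
          · have e1 : π2 i = π2 j := by rw [hi2, hj2, hrr]
            rw [hφm i (by omega) hmi, hφm j (by omega) hmj, hrr]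
            have e2 := (hf (rt j) hj1).2.2.2 (φ2 i) (by rw [← hrr]; exact (hmem i hi hmi).2)
              (φ2 j) (hmem j hj hmj).2
            simp only [e1, true_and]
            exact e2.symm
          · constructor
            · rintro ⟨h4, _⟩
              exact absurd (hdist _ hi1 _ hj1 (by rw [← hi2, ← hj2, h4])) hrr
            · rintro ⟨_, h4⟩
              exfalso
              have e3 : ι (rt i) ≠ ι (rt j) := fun h => hrr (hι2 _ hi1 _ hj1 h)
              exact (h2 _ (hι1 _ hi1) _ (hι1 _ hj1) e3 _ (hfz i hi hmi) _ (hfz j hj hmj)).2 h4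
        · rw [hπm i (by omega) hmi, hπu j (by omega) hmj]
          have e1 := hπc j hj
          constructor
          · rintro ⟨h4, _⟩
            obtain ⟨hi1, hi2⟩ := hmer i hmi
            exact absurd ⟨rt i, hi1, by rw [← h4, hi2]⟩ hmj
          · rintro ⟨h4, _⟩
            omega
        · rw [hπu i (by omega) hmi, hπm j (by omega) hmj]
          have e1 := hπc i hi
          constructor
          · rintro ⟨h4, _⟩
            obtain ⟨hj1, hj2⟩ := hmer j hmj
            exact absurd ⟨rt j, hj1, by rw [h4, hj2]⟩ hmi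
          · rintro ⟨h4, _⟩
            omega
        · rw [hπu i (by omega) hmi, hπu j (by omega) hmj, hφu i (by omega) hmi,
            hφu j (by omega) hmj]
      have hnA' : n2 ∉ A' := fun h => by
        have := (b8 n2 h).2.1
        omega
      have hcol : ∀ r' ∈ A', B r' (CG H π3 φ3) ≠ B n2 (CG H π3 φ3) := by
        intro r' hr' heq
        obtain ⟨r, hr, hrr⟩ := hcase r' hr'
        obtain ⟨e1, e2, e3, e4, e5, e6⟩ := hroot r hr
        have hmr : mer r := ⟨r, hr, rfl⟩
        obtain ⟨g1, g2⟩ := hmer r hmr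
        have g3 : rt r = r := hdist _ g1 _ hr g2.symm
        have hadj : (CG H π3 φ3).Adj r n2 := by
          rw [CG_adj, hπm r (by omega) hmr, hπn, hφn, hφm r (by omega) hmr, g3, e4,
            (hf r hr).2.2.1]
          exact ⟨rfl, (h1 _ (hι1 r hr)).2.2.2.symm⟩
        apply hB.2 (CG H π3 φ3) r n2 (by omega) hadj
        rw [← heq, ← hloc2 r (by omega), ← hloc2 r' (b8 r' hr').2.1, hrr]
      refine ⟨π3, φ3, n2 + 1, c2 + 1, insert n2 A', by omega, by omega, by omega, by omega,
        ?_, ?_, ?_, ?_, ?_, ?_⟩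
      · intro i hi
        rw [hπu i (by omega) (hmn0 i hi), hφu i (by omega) (hmn0 i hi), (b5 i (by omega)).1,
          (b5 i (by omega)).2]
        exact a5 i hi
      · intro i hi1 hi2
        rcases Nat.lt_succ_iff_lt_or_eq.1 hi2 with hi | rfl
        · obtain ⟨e1, e2, e3⟩ := hZ2 i hi1 hi
          by_cases hm : mer i
          · rw [hπm i (by omega) hm]
            refine ⟨by omega, by omega, ?_⟩
            exact (h1 _ (hι1 _ (hmer i hm).1)).1 (hfz i hi hm)
          · rw [hπu i (by omega) hm, hφu i (by omega) hm]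
            exact ⟨e1, by omega, e3⟩
        · rw [hπn, hφn]
          exact ⟨by omega, by omega, hz⟩
      · -- injectivity
        have hnz : ∀ i, i < n2 → mer i → φ3 i ≠ z := by
          intro i hi hm h
          have e1 := hfz i hi hm
          rw [h] at e1
          exact (h1 _ (hι1 _ (hmer i hm).1)).2.1 e1
        have hcomp : ∀ i, i < n2 → ¬ mer i → π3 i ≠ c2 := by
          intro i hi hm
          rw [hπu i (by omega) hm]
          have := hπc i hi
          omega
        intro i j hi1 hi2 hj1 hj2 hp hq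
        rcases Nat.lt_succ_iff_lt_or_eq.1 hi2 with hi | rfl <;>
          rcases Nat.lt_succ_iff_lt_or_eq.1 hj2 with hj | rfl
        · by_cases hmi : mer i <;> by_cases hmj : mer j
          · obtain ⟨ei1, ei2⟩ := hmer i hmi
            obtain ⟨ej1, ej2⟩ := hmer j hmj
            have hrr : rt i = rt j := by
              by_contra hrr
              have e3 : ι (rt i) ≠ ι (rt j) := fun h => hrr (hι2 _ ei1 _ ej1 h)
              exact (h2 _ (hι1 _ ei1) _ (hι1 _ ej1) e3 _ (hfz i hi hmi) _ (hfz j hj hmj)).1 hq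
            rw [hφm i (by omega) hmi, hφm j (by omega) hmj, hrr] at hq
            have e4 := (hf (rt j) ej1).1 (by rw [← hrr]; exact (hmem i hi hmi).2)
              (hmem j hj hmj).2 hq
            exact hI2 i j hi1 hi hj1 hj (by rw [ei2, ej2, hrr]) e4
          · exfalso
            rw [hπm i (by omega) hmi] at hp
            exact hcomp j hj hmj hp.symm
          · exfalso
            rw [hπm j (by omega) hmj] at hp
            exact hcomp i hi hmi hp
          · rw [hπu i (by omega) hmi, hπu j (by omega) hmj] at hp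
            rw [hφu i (by omega) hmi, hφu j (by omega) hmj] at hq
            exact hI2 i j hi1 hi hj1 hj hp hq
        · exfalso
          rw [hπn] at hp
          rw [hφn] at hq
          by_cases hmi : mer i
          · exact hnz i hi hmi hq
          · exact hcomp i hi hmi hp
        · exfalso
          rw [hπn] at hp
          rw [hφn] at hq
          by_cases hmj : mer j
          · exact hnz j hj hmj hq.symm
          · exact hcomp j hj hmj hp.symm
        · rfl
      · intro r hr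
        rw [Finset.mem_insert] at hr
        rcases hr with rfl | hr
        · exact ⟨by omega, by omega, hφn⟩
        · obtain ⟨e1, e2, e3⟩ := b8 r hr
          exact ⟨by omega, by omega, by rw [hφu r (by omega) (hmge r e1 e2), e3]⟩
      · rw [Finset.card_insert_of_notMem hnA', b9]
      · intro r hr s hs hrs
        rw [Finset.mem_insert] at hr hs
        rcases hr with rfl | hr <;> rcases hs with rfl | hs
        · rfl
        · exact absurd hrs.symm (hcol s hs)
        · exact absurd hrs (hcol r hr)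
        · rw [← hloc2 r (b8 r hr).2.1, ← hloc2 s (b8 s hs).2.1] at hrs
          exact b10 r hr s hs hrs

theorem no_online_of_reproducing {m k : ℕ} {H : SimpleGraph (Fin m)}
    {B : ℕ → SimpleGraph ℕ → ℕ} (hB : IsOnline B) (hk : UsesAtMost B H k)
    (Z : Set (Fin m)) (z : Fin m) (hz : z ∈ Z)
    (Zs : ℕ → Set (Fin m)) (zs : ℕ → Fin m)
    (h1 : ∀ i < k, Zs i ⊆ Z ∧ z ∉ Zs i ∧ zs i ∈ Zs i ∧ H.Adj z (zs i))
    (h2 : ∀ i < k, ∀ j < k, i ≠ j → Anti H (Zs i) (Zs j))
    (h3 : ∀ i < k, ∀ W : Finset (Fin m), z ∈ W → (W : Set (Fin m)) ⊆ Z → W.card ≤ Sz (k + 1) →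
      ∃ f : Fin m → Fin m, Set.InjOn f W ∧ Set.MapsTo f W (Zs i) ∧ f z = zs i ∧
        ∀ u ∈ W, ∀ v ∈ W, (H.Adj (f u) (f v) ↔ H.Adj u v))
    (g : ℕ → Fin m → Fin m)
    (h4 : ∀ i < Sz (k + 1), Set.InjOn (g i) Z ∧ ∀ u ∈ Z, ∀ v ∈ Z,
      (H.Adj (g i u) (g i v) ↔ H.Adj u v))
    (h5 : ∀ i < Sz (k + 1), ∀ j < Sz (k + 1), i ≠ j → Anti H (g i '' Z) (g j '' Z)) : False := by
  classical
  obtain ⟨π, φ, n1, c1, A, a1, a2, a3, a4, a5, a6, a7, a8, a9, a10⟩ :=
    forceCG hB Z z hz Zs zs h1 h2 h3 (k + 1) le_rfl (fun _ => 0) (fun _ => z) 0 0 (by simp)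
  have hc : ∀ i < n1, π i < Sz (k + 1) ∧ φ i ∈ Z := by
    intro i hi
    obtain ⟨_, e2, e3⟩ := a6 i (Nat.zero_le i) hi
    exact ⟨by omega, e3⟩
  have hinj : ∀ i < n1, ∀ j < n1, g (π i) (φ i) = g (π j) (φ j) → i = j := by
    intro i hi j hj hij
    obtain ⟨e1, e2⟩ := hc i hi
    obtain ⟨f1, f2⟩ := hc j hj
    have hp : π i = π j := by
      by_contra hne
      exact (h5 _ e1 _ f1 hne _ ⟨_, e2, rfl⟩ _ ⟨_, f2, rfl⟩).1 hij
    rw [hp] at hij
    exact a7 i j (Nat.zero_le i) hi (Nat.zero_le j) hj hp ((h4 _ f1).1 e2 f2 hij)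
  have hadj : ∀ i < n1, ∀ j < n1, (H.Adj (g (π i) (φ i)) (g (π j) (φ j)) ↔
      (CG H π φ).Adj i j) := by
    intro i hi j hj
    obtain ⟨e1, e2⟩ := hc i hi
    obtain ⟨f1, f2⟩ := hc j hj
    rw [CG_adj]
    by_cases hp : π i = π j
    · rw [hp, (h4 _ f1).2 _ e2 _ f2]
      simp
    · constructor
      · intro h
        exact absurd h (h5 _ e1 _ f1 hp _ ⟨_, e2, rfl⟩ _ ⟨_, f2, rfl⟩).2
      · rintro ⟨h, _⟩
        exact absurd h hp
  obtain ⟨hsm, G, σ, b1, b2⟩ := present (f := fun i => g (π i) (φ i)) hinj hadj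
  have h6 := hk G σ b1
  have h7 : (A.image (fun i => B i G)).card = k + 1 := by
    rw [Finset.card_image_of_injOn, a9]
    intro i hi j hj hij
    dsimp only at hij
    rw [b2 B hB i (a8 i hi).2.1, b2 B hB j (a8 j hj).2.1] at hij
    exact a10 i hi j hj hij
  have h8 : (A.image (fun i => B i G)).card ≤ ((Finset.range m).image (fun i => B i G)).card := by
    apply Finset.card_le_card
    apply Finset.image_subset_image
    intro i hi
    rw [Finset.mem_range]
    have := (a8 i hi).2.1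
    omega
  omega

end H24.Bip
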