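import Pool.Agent.H24.Bip.Tree
import Pool.Agent.H24.Bip.Ext
import Pool.Agent.H24.Bip.TC
import Pool.Agent.H24.Bip.Fin

/-!
The key lemma: self-merging sets contain double laminar graphs or force many colours.
-/

namespace H24.Bip

open H7.Online

theorem key : Key := by
  classical
  intro n d k
  obtain ⟨M, hM⟩ := extract n d k
  obtain ⟨Φ, hΦm, hΦ1, hΦ3⟩ := split3 n
  obtain ⟨L, hL⟩ := pigeon (C := Set (RP (Sz (k + 1)))) (2 * (M + 1))
  obtain ⟨R, hR⟩ := levels n Φ hΦm L 0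
  obtain ⟨R2, h21, h22⟩ := splitN n R (Sz (k + 1))
  refine ⟨R2 + Φ R, fun m H c D D1 D2 hn hO hC => ?_⟩
  obtain ⟨r, q, x, W, O, -, hq0, hLv⟩ := hR (Fin m) H c _ D D1 D2 hn hC (by omega)
  obtain ⟨t, ι, i1, i2⟩ := hL (fun i => kind H (Sz (k + 1)) (insert (x i) (W i : Set (Fin m))) (x i))
  have hLv' := hLv.sub hΦm i1 (fun j hj => (i2 j hj).1)
  have hqa : ∀ j ≤ L, q j ≤ q 0 := by
    intro j
    induction j with
    | zero => intro _; exact le_rfl
    | succ j ih => intro hj; exact (hLv.anti j (by omega)).trans (ih (by omega))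
  have hqR : (if 0 < 2 * (M + 1) then q (ι 0) else q L) ≤ R := by
    rw [if_pos (by omega)]
    exact (hqa _ (i2 0 (by omega)).1.le).trans hq0
  obtain ⟨v, -, hv⟩ := tree_exists n Φ hΦ1 hΦ3 hn hC M _ _ _ O hLv' hqR
    ((hΦm hqR).trans (by omega)) (fun a b hab => hΦm hab) (fun i hi => (i2 i hi).2) D1 hC.sub1
    (hC.rich1.le (hqR.trans (by omega)))
  rcases hM (Fin m) H c D _ _ hC.proper hn v hv with ⟨z, Z, zs, Zs, hz, hZ, h1, h2⟩ | h
  · exfalso
    obtain ⟨B, hB, hBk⟩ := hO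
    obtain ⟨F, F1, F2⟩ := h22 (Fin m) H c _ D D1 D2 hn hC (by omega) D1 (hC.rich1.le (by omega))
    obtain ⟨hZ1, Z0, hZ2, hZ3, hZ4⟩ := hZ
    have hg : ∀ i, ∃ g : Fin m → Fin m, i < Sz (k + 1) → Cp H c false g Z ∧ Set.MapsTo g Z (F i) := by
      intro i
      by_cases hi : i < Sz (k + 1)
      · obtain ⟨g, g1, g2⟩ := (F1 i hi).2.2 Z0 (by rw [hZ2]; exact hZ4) hZ3 false
        rw [hZ2] at g1 g2
        exact ⟨g, fun _ => ⟨g1, g2⟩⟩
      · exact ⟨id, fun h => absurd h hi⟩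
    choose g hg using hg
    refine no_online_of_reproducing hB hBk Z z hz Zs zs
      (fun i hi => ⟨(h1 i hi).1, (h1 i hi).2.1, (h1 i hi).2.2.1, (h1 i hi).2.2.2.1⟩) h2 ?_ g ?_ ?_
    · intro i hi W' hzW hW' hcard
      have hk : kind H (Sz (k + 1)) Z z = kind H (Sz (k + 1)) (Zs i) (zs i) := by
        rw [hZ1, (h1 i hi).2.2.2.2.1]
      exact kind_emb hk W' hzW hW' hcard
    · intro i hi
      exact ⟨(hg i hi).1.inj, fun u hu w hw => (hg i hi).1.adj u hu w hw⟩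
    · intro i hi j hj hij
      refine (F2 i hi j hj hij).mono ?_ ?_
      · rintro _ ⟨u, hu, rfl⟩
        exact (hg i hi).2 hu
      · rintro _ ⟨u, hu, rfl⟩
        exact (hg j hj).2 hu
  · exact h

end H24.Bip
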