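import Pool.Agent.H24.Bip.Cop

/-!
Kinds of rooted sets, and a pigeonhole lemma for sequences.
-/

namespace H24.Bip

open H7.Online

/-- rooted patterns with at most `s` vertices; the root is the vertex `0` -/
abbrev RP (s : ℕ) : Type := Σ k : Fin s, (Fin ((k : ℕ) + 1) → Fin ((k : ℕ) + 1) → Prop)

/-- the set of the rooted patterns occurring in `E` with root `x` -/
def kind {V : Type} (G : SimpleGraph V) (s : ℕ) (E : Set V) (x : V) : Set (RP s) :=
  {π | ∃ e : Fin ((π.1 : ℕ) + 1) → V, Function.Injective e ∧ (∀ i, e i ∈ E) ∧ e 0 = x ∧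
    ∀ i j, (G.Adj (e i) (e j) ↔ π.2 i j)}

theorem kind_emb {V : Type} {G : SimpleGraph V} {s : ℕ} {E E' : Set V} {x x' : V}
    (h : kind G s E x = kind G s E' x') (W : Finset V) (hx : x ∈ W) (hW : (W : Set V) ⊆ E)
    (hs : W.card ≤ s) :
    ∃ f : V → V, Set.InjOn f W ∧ Set.MapsTo f W E' ∧ f x = x' ∧
      ∀ u ∈ W, ∀ v ∈ W, (G.Adj (f u) (f v) ↔ G.Adj u v) := by
  classical
  have hpos : 0 < W.card := Finset.card_pos.mpr ⟨x, hx⟩
  obtain ⟨k, hk⟩ : ∃ k, W.card = k + 1 := ⟨W.card - 1, by omega⟩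
  let e0 : W ≃ Fin (k + 1) := W.equivFinOfCardEq hk
  let e : W ≃ Fin (k + 1) := e0.trans (Equiv.swap (e0 ⟨x, hx⟩) 0)
  have he : e ⟨x, hx⟩ = 0 := by simp [e]
  have hmem : (⟨⟨k, by omega⟩, fun i j => G.Adj (e.symm i : V) (e.symm j : V)⟩ : RP s) ∈
      kind G s E x := by
    refine ⟨fun i => (e.symm i : V), ?_, ?_, ?_, fun i j => Iff.rfl⟩
    · intro i j hij
      exact e.symm.injective (Subtype.ext hij)
    · intro i
      exact hW (e.symm i).2
    · dsimp only
      rw [← he, Equiv.symm_apply_apply]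
  rw [h] at hmem
  obtain ⟨g, g1, g2, g3, g4⟩ := hmem
  dsimp only at g g1 g2 g3 g4
  refine ⟨fun u => if hu : u ∈ W then g (e ⟨u, hu⟩) else u, ?_, ?_, ?_, ?_⟩
  · intro u hu v hv huv
    have hu' : u ∈ W := hu
    have hv' : v ∈ W := hv
    simp only [dif_pos hu', dif_pos hv'] at huv
    have := e.injective (g1 huv)
    exact congrArg Subtype.val this
  · intro u hu
    have hu' : u ∈ W := hu
    simp only [dif_pos hu']
    exact g2 _
  · simp only [dif_pos hx]
    rw [he]
    exact g3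
  · intro u hu v hv
    simp only [dif_pos hu, dif_pos hv]
    rw [g4]
    simp

theorem kind_image {V : Type} {G : SimpleGraph V} {c : V → Bool} {s : ℕ} {b : Bool} {f : V → V}
    {x : V} {W : Set V} (hf : Cp G c b f (insert x W)) :
    kind G s (insert (f x) (f '' W)) (f x) = kind G s (insert x W) x := by
  classical
  ext π
  constructor
  · rintro ⟨e, e1, e2, e3, e4⟩
    have hinv : ∀ i, ∃ w ∈ insert x W, f w = e i := by
      intro i
      rcases e2 i with h | ⟨w, hw, h⟩
      · exact ⟨x, Set.mem_insert x W, h.symm⟩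
      · exact ⟨w, Set.mem_insert_of_mem x hw, h⟩
    choose g g1 g2 using hinv
    refine ⟨g, ?_, g1, ?_, ?_⟩
    · intro i j hij
      apply e1
      rw [← g2 i, ← g2 j, hij]
    · apply hf.inj (g1 0) (Set.mem_insert x W)
      rw [g2, e3]
    · intro i j
      rw [← e4 i j, ← g2 i, ← g2 j]
      exact (hf.adj _ (g1 i) _ (g1 j)).symm
  · rintro ⟨e, e1, e2, e3, e4⟩
    refine ⟨fun i => f (e i), ?_, ?_, ?_, ?_⟩
    · intro i j hij
      exact e1 (hf.inj (e2 i) (e2 j) hij)
    · intro i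
      rcases e2 i with h | h
      · left
        exact congrArg f h
      · right
        exact ⟨_, h, rfl⟩
    · dsimp only
      rw [e3]
    · intro i j
      rw [← e4 i j]
      exact hf.adj _ (e2 i) _ (e2 j)

/-- the pigeonhole principle for sequences -/
theorem pigeon {C : Type} [Finite C] (M : ℕ) : ∃ L : ℕ, ∀ κ : ℕ → C, ∃ (t : C) (ι : ℕ → ℕ),
    (∀ i j, i < j → j < M → ι i < ι j) ∧ ∀ j < M, ι j < L ∧ κ (ι j) = t := by
  classical
  have := Fintype.ofFinite C
  refine ⟨Fintype.card C * M + 1, fun κ => ?_⟩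
  obtain ⟨t, _, ht⟩ := Finset.exists_lt_card_fiber_of_mul_lt_card_of_maps_to
    (s := Finset.range (Fintype.card C * M + 1)) (t := Finset.univ) (f := κ) (n := M)
    (fun a _ => Finset.mem_univ _) (by simp)
  let S := (Finset.range (Fintype.card C * M + 1)).filter (fun a => κ a = t)
  have hS : S.card = S.card := rfl
  let g := S.orderEmbOfFin hS
  refine ⟨t, fun j => if h : j < S.card then g ⟨j, h⟩ else 0, ?_, ?_⟩
  · intro i j hij hj
    have hj' : j < S.card := lt_trans hj ht
    have hi' : i < S.card := lt_trans hij hj'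
    simp only [dif_pos hj', dif_pos hi']
    exact g.strictMono (by simpa using hij)
  · intro j hj
    have hj' : j < S.card := lt_trans hj ht
    simp only [dif_pos hj']
    have h1 : g ⟨j, hj'⟩ ∈ S := Finset.orderEmbOfFin_mem S hS _
    have h2 := Finset.mem_filter.mp h1
    exact ⟨Finset.mem_range.mp h2.1, h2.2⟩

end H24.Bip
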