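import Pool.Agent.H24.Bip.Dom
import Pool.Agent.H24.Bip.Kind

/-!
Binary trees of dominating vertices in rich sets.
-/

namespace H24.Bip

open H7.Online

/-- the property of the hosts in the tree: the rooted patterns are the given ones, and the host is a
small finite subset of `D` -/
def KPr {V : Type} (G : SimpleGraph V) (D : Set V) (s Q : ℕ) (t : Set (RP s)) (Z : Set V) (z : V) :
    Prop :=
  kind G s Z z = t ∧ ∃ F : Finset V, (F : Set V) = Z ∧ F.card ≤ Q ∧ Z ⊆ D

/-- splitting into three parts, with a monotone bound -/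
theorem split3 (n : ℕ) : ∃ Φ : ℕ → ℕ, Monotone Φ ∧ (∀ q, q ≤ Φ q) ∧
    ∀ (V : Type) (G : SimpleGraph V) (c : V → Bool) (s : ℕ) (D D1 D2 : Set V) (q : ℕ),
      ¬ HasPath G n → Ctx G c s D D1 D2 → Φ q ≤ s → ∀ E, Rich G c D (Φ q) E →
      ∃ F : ℕ → Set V, (∀ i < 3, F i ⊆ E ∧ Rich G c D q (F i)) ∧
        ∀ i < 3, ∀ j < 3, i ≠ j → Anti G (F i) (F j) := by
  choose R hR1 hR2 using fun q => splitN n q 3
  refine ⟨fun q => ∑ i ∈ Finset.range (q + 1), R i, ?_, ?_, ?_⟩
  · intro a b hab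
    exact Finset.sum_le_sum_of_subset (Finset.range_mono (by omega))
  · intro q
    exact (hR1 q).trans (Finset.single_le_sum (f := R) (fun _ _ => Nat.zero_le _)
      (Finset.mem_range.mpr (by omega)))
  · intro V G c s D D1 D2 q hn hC hs E hE
    have hle : R q ≤ ∑ i ∈ Finset.range (q + 1), R i :=
      Finset.single_le_sum (f := R) (fun _ _ => Nat.zero_le _) (Finset.mem_range.mpr (by omega))
    exact hR2 q V G c s D D1 D2 hn hC (hle.trans hs) E (hE.le hle)

/-- a copy of a level in a rich set, with a prescribed label of the dominating vertex -/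
theorem level_copy {V : Type} {G : SimpleGraph V} {c : V → Bool} {D : Set V} {s Q r q p : ℕ}
    {t : Set (RP s)} {x : V} {W : Finset V} (hx : x ∈ D) (hW : (W : Set V) ⊆ D) (hxW : x ∉ W)
    (hcard : W.card + 1 ≤ q) (hqQ : q ≤ Q) (hrich : Rich G c D p (W : Set V))
    (hdom : ∀ E ⊆ (W : Set V), Rich G c D r E → Touch G x E)
    (hk : kind G s (insert x (W : Set V)) x = t) {E : Set V} (hE : Rich G c D q E) (hED : E ⊆ D)
    (b : Bool) :
    ∃ (y : V) (Y : Set V), c y = b ∧ y ∉ Y ∧ insert y Y ⊆ E ∧ Rich G c D p Y ∧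
      (∀ E' ⊆ Y, Rich G c D r E' → Touch G y E') ∧ KPr G D s Q t (insert y Y) y := by
  classical
  have hins : ((insert x W : Finset V) : Set V) = insert x (W : Set V) := Finset.coe_insert x W
  obtain ⟨f, f1, f2⟩ := hE.2 (insert x W) (by
      rw [hins]
      exact Set.insert_subset hx hW) (by
      rw [Finset.card_insert_of_notMem hxW]
      exact hcard) (xor b (c x))
  rw [hins] at f1 f2
  have hmx : x ∈ insert x (W : Set V) := Set.mem_insert x _
  have hsub : insert (f x) (f '' (W : Set V)) ⊆ E := by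
    rw [← Set.image_insert_eq]
    rintro _ ⟨u, hu, rfl⟩
    exact f2 hu
  refine ⟨f x, f '' (W : Set V), ?_, ?_, hsub, ?_, dom_image f1 hdom, ?_, ?_⟩
  · rw [f1.lab x hmx]
    cases b <;> cases c x <;> rfl
  · rintro ⟨u, hu, hux⟩
    have := f1.inj (Set.mem_insert_of_mem x hu) hmx hux
    rw [this] at hu
    exact hxW hu
  · exact hrich.image (f1.mono (Set.subset_insert x _))
  · rw [kind_image f1]
    exact hk
  · refine ⟨(insert x W).image f, ?_, ?_, hsub.trans hED⟩
    · rw [Finset.coe_image, hins, Set.image_insert_eq]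
    · refine (Finset.card_image_le).trans ?_
      rw [Finset.card_insert_of_notMem hxW]
      omega

theorem tree_exists (n : ℕ) (Φ : ℕ → ℕ) (hΦ1 : ∀ q, q ≤ Φ q)
    (hΦ : ∀ (V : Type) (G : SimpleGraph V) (c : V → Bool) (s : ℕ) (D D1 D2 : Set V) (q : ℕ),
      ¬ HasPath G n → Ctx G c s D D1 D2 → Φ q ≤ s → ∀ E, Rich G c D (Φ q) E →
      ∃ F : ℕ → Set V, (∀ i < 3, F i ⊆ E ∧ Rich G c D q (F i)) ∧
        ∀ i < 3, ∀ j < 3, i ≠ j → Anti G (F i) (F j))
    {V : Type} {G : SimpleGraph V} {c : V → Bool} {s s' Q r : ℕ} {D D1 D2 : Set V}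
    {t : Set (RP s')} (hn : ¬ HasPath G n) (hC : Ctx G c s D D1 D2) : ∀ (M : ℕ) (q : ℕ → ℕ)
    (x : ℕ → V) (W : ℕ → Finset V) (O : Finset V),
    Levels G c D Φ (2 * (M + 1)) r q x W O → q 0 ≤ Q → Φ (q 0) ≤ s →
    (∀ a b, a ≤ b → Φ a ≤ Φ b) →
    (∀ i < 2 * (M + 1), kind G s' (insert (x i) (W i : Set V)) (x i) = t) →
    ∀ E ⊆ D, Rich G c D (q 0) E →
    ∃ v : Nd G c D (Rich G c D r) (KPr G D s' Q t), insert v.x v.X ⊆ E ∧
      TT Nd.lt Nd.sep M (fun _ => True) v := by
  classical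
  intro M
  induction M with
  | zero =>
    intro q x W O hL hQ hs hmono hk E hED hE
    have h01 := hL.anti 0 (by omega)
    have h12 := hL.anti 1 (by omega)
    obtain ⟨vx, vX, a1, a2, a3, a4, a5, a6⟩ := level_copy (hL.xD 0 (by omega)) (hL.WD 0 (by omega))
      (hL.xW 0 (by omega)) (hL.card 0 (by omega)) hQ (hL.rich 0 (by omega))
      (hL.dom 0 (by omega)) (hk 0 (by omega)) hE hED true
    have hvX : vX ⊆ D := (Set.subset_insert vx vX).trans (a3.trans hED)
    obtain ⟨vy, vY, b1, b2, b3, b4, b5, b6⟩ := level_copy (hL.xD 1 (by omega))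
      (hL.WD 1 (by omega)) (hL.xW 1 (by omega)) (hL.card 1 (by omega)) (h01.trans hQ)
      (hL.rich 1 (by omega)) (hL.dom 1 (by omega)) (hk 1 (by omega))
      (a4.le (hΦ1 _)) hvX false
    have hcO : O.card ≤ q 2 := hL.cardO
    obtain ⟨h, h1, h2⟩ := b4.2 O hL.OD (hcO.trans (hΦ1 _)) false
    refine ⟨⟨vx, vy, vX, vY, h '' (O : Set V), a1, b1, a2, b3 (Set.mem_insert _ _), b2,
      (Set.subset_insert vy vY).trans b3, ?_, ?_, hL.richO.image h1, a5, b5,
      hED (a3 (Set.mem_insert _ _)), hvX, a6, b6⟩, a3, trivial⟩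
    · rintro _ ⟨u, hu, rfl⟩
      exact h2 hu
    · exact (hL.richO.image h1).conn
  | succ M ih =>
    intro q x W O hL hQ hs hmono hk E hED hE
    have h01 := hL.anti 0 (by omega)
    have h12 := hL.anti 1 (by omega)
    obtain ⟨vx, vX, a1, a2, a3, a4, a5, a6⟩ := level_copy (hL.xD 0 (by omega)) (hL.WD 0 (by omega))
      (hL.xW 0 (by omega)) (hL.card 0 (by omega)) hQ (hL.rich 0 (by omega))
      (hL.dom 0 (by omega)) (hk 0 (by omega)) hE hED true
    have hvX : vX ⊆ D := (Set.subset_insert vx vX).trans (a3.trans hED)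
    obtain ⟨vy, vY, b1, b2, b3, b4, b5, b6⟩ := level_copy (hL.xD 1 (by omega))
      (hL.WD 1 (by omega)) (hL.xW 1 (by omega)) (hL.card 1 (by omega)) (h01.trans hQ)
      (hL.rich 1 (by omega)) (hL.dom 1 (by omega)) (hk 1 (by omega))
      (a4.le (hΦ1 _)) hvX false
    have hYX : vY ⊆ vX := (Set.subset_insert vy vY).trans b3
    -- the remaining levels
    have hL' : Levels G c D Φ (2 * (M + 1)) r (fun i => q (i + 2)) (fun i => x (i + 2))
        (fun i => W (i + 2)) O := by
      constructor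
      · intro i hi; exact hL.anti (i + 2) (by omega)
      · intro i hi; exact hL.xD (i + 2) (by omega)
      · intro i hi; exact hL.WD (i + 2) (by omega)
      · intro i hi; exact hL.xW (i + 2) (by omega)
      · intro i hi; exact hL.card (i + 2) (by omega)
      · intro i hi; exact hL.rich (i + 2) (by omega)
      · intro i hi; exact hL.dom (i + 2) (by omega)
      · exact hL.OD
      · exact hL.richO
      · exact hL.cardO
    have hq : ∀ j ≤ 2 * (M + 1 + 1), ∀ i ≤ j, q j ≤ q i := by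
      intro j
      induction j with
      | zero =>
        intro _ i hi
        have : i = 0 := by omega
        rw [this]
      | succ j ihj =>
        intro hj i hi
        by_cases h' : i = j + 1
        · rw [h']
        · exact (hL.anti j (by omega)).trans (ihj (by omega) i (by omega))
    have hcO : O.card ≤ q 2 := hL.cardO.trans (hq _ le_rfl 2 (by omega))
    have hs2 : Φ (q 2) ≤ s := (hmono _ _ (h12.trans h01)).trans hs
    obtain ⟨F, F1, F2⟩ := hΦ V G c s D D1 D2 (q 2) hn hC hs2 vY b4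
    obtain ⟨h, h1, h2⟩ := (F1 2 (by omega)).2.2 O hL.OD hcO false
    have hh : h '' (O : Set V) ⊆ F 2 := by
      rintro _ ⟨u, hu, rfl⟩
      exact h2 hu
    let v : Nd G c D (Rich G c D r) (KPr G D s' Q t) := ⟨vx, vy, vX, vY, h '' (O : Set V), a1, b1,
      a2, b3 (Set.mem_insert _ _), b2, hYX, hh.trans (F1 2 (by omega)).1,
      (hL.richO.image h1).conn, hL.richO.image h1, a5, b5, hED (a3 (Set.mem_insert _ _)), hvX, a6,
      b6⟩
    have hFD : ∀ i < 3, F i ⊆ D := fun i hi => (F1 i hi).1.trans (hYX.trans hvX)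
    have hk' : ∀ i < 2 * (M + 1), kind G s' (insert (x (i + 2)) (W (i + 2) : Set V)) (x (i + 2)) =
        t := fun i hi => hk (i + 2) (by omega)
    obtain ⟨u1, c1, c2⟩ := ih (fun i => q (i + 2)) (fun i => x (i + 2)) (fun i => W (i + 2)) O hL'
      ((h12.trans h01).trans hQ) hs2 hmono hk' (F 0) (hFD 0 (by omega)) (F1 0 (by omega)).2
    obtain ⟨u2, d1, d2⟩ := ih (fun i => q (i + 2)) (fun i => x (i + 2)) (fun i => W (i + 2)) O hL'
      ((h12.trans h01).trans hQ) hs2 hmono hk' (F 1) (hFD 1 (by omega)) (F1 1 (by omega)).2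
    refine ⟨v, a3, trivial, u1, u2, ?_, ?_, ?_, ?_, ?_⟩
    · exact ⟨c1.trans (F1 0 (by omega)).1, (F2 0 (by omega) 2 (by omega) (by omega)).mono c1 hh⟩
    · exact ⟨d1.trans (F1 1 (by omega)).1, (F2 1 (by omega) 2 (by omega) (by omega)).mono d1 hh⟩
    · exact (F2 0 (by omega) 1 (by omega) (by omega)).mono c1 d1
    · simpa using c2
    · simpa using d2

end H24.Bip
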